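import Mathlib

set_option autoImplicit false

namespace Pool.H868.Pal

/-- the morphism `φ` applied to a finite word -/
def app {α : Type} (φ : α → List α) (w : List α) : List α := w.flatMap φ

/-- the `n`-th power of the morphism `φ`, again as a morphism -/
def pw {α : Type} (φ : α → List α) (n : ℕ) (a : α) : List α := (app φ)^[n] [a]

/-- the reversed morphism -/
def rv {α : Type} (φ : α → List α) (a : α) : List α := (φ a).reverse

/-- window of length `n` at position `i` of the right-infinite word `u` -/
def win {α : Type} (u : ℕ → α) (i n : ℕ) : List α := (List.range n).map (fun j => u (i + j))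

/-- window of length `n` at position `i` of the bi-infinite word `x` -/
def winz {α : Type} (x : ℤ → α) (i : ℤ) (n : ℕ) : List α :=
  (List.range n).map (fun j : ℕ => x (i + (j : ℤ)))

/-- the properties of the pair (aperiodic primitive morphism, its language) that are used -/
structure Sys {α : Type} (φ : α → List α) (L : Set (List α)) : Prop where
  ne : ∀ a, φ a ≠ []
  letter : ∀ a, [a] ∈ L
  fact : ∀ v w : List α, v <:+: w → w ∈ L → v ∈ L
  sub : ∀ w ∈ L, app φ w ∈ L
  desub : ∀ w ∈ L, ∃ v ∈ L, w <:+: app φ v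
  extl : ∀ w ∈ L, ∃ a, a :: w ∈ L
  extr : ∀ w ∈ L, ∃ a, w ++ [a] ∈ L
  unif : ∀ w ∈ L, ∃ n, ∀ v ∈ L, n ≤ v.length → w <:+: v
  pow : ∃ C : ℕ, 1 ≤ C ∧ ∀ w : List α, w ≠ [] → (List.replicate C w).flatten ∉ L
  ratio : ∃ D : ℕ, 1 ≤ D ∧ ∀ n a b, (pw φ n a).length ≤ D * (pw φ n b).length
  growth : ∀ B : ℕ, ∃ t, ∀ s, t ≤ s → ∀ a, B ≤ (pw φ s a).length
  lin : ∃ K : ℕ, ∀ n, 1 ≤ n → {w : List α | w ∈ L ∧ w.length = n}.ncard ≤ K * n
  spec : ∀ n : ℕ, ∃ w ∈ L, w.length = n ∧ ∃ a b, a ≠ b ∧ a :: w ∈ L ∧ b :: w ∈ L

/-- the language is closed under reversal -/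
def RC {α : Type} (L : Set (List α)) : Prop := ∀ w ∈ L, w.reverse ∈ L

/-- all windows of the right-infinite word `w` belong to `L` -/
def InfL {α : Type} (L : Set (List α)) (w : ℕ → α) : Prop := ∀ i n, win w i n ∈ L

/-- the right-infinite word `z` is the image of `w` under `φ` -/
def Im {α : Type} (φ : α → List α) (w z : ℕ → α) : Prop :=
  ∀ n, app φ (win w 0 n) = win z 0 (app φ (win w 0 n)).length

/-- two right-infinite words have a common tail -/
def Tl {α : Type} (w w' : ℕ → α) : Prop := ∃ i j, ∀ k, w (i + k) = w' (j + k)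

/-- left special right-infinite words -/
def LSp {α : Type} (L : Set (List α)) (w : ℕ → α) : Prop :=
  ∃ a b, a ≠ b ∧ ∀ n, a :: win w 0 n ∈ L ∧ b :: win w 0 n ∈ L

/-- the reversed morphism and the morphism differ by the displacement `n` on all words of `L` -/
def FA {α : Type} (ψ : α → List α) (L : Set (List α)) (n : ℤ) : Prop :=
  ∀ v ∈ L, ∀ t t' : ℕ, (t' : ℤ) = (t : ℤ) + n → t < (app ψ v).length → t' < (app ψ v).length →
    (app (rv ψ) v)[t]? = (app ψ v)[t']?

/-- all windows of the bi-infinite word `x` belong to `L` -/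
def BL {α : Type} (L : Set (List α)) (x : ℤ → α) : Prop := ∀ (i : ℤ) (n : ℕ), winz x i n ∈ L

/-- `y` is a shift of `x` -/
def Sh {α : Type} (x y : ℤ → α) : Prop := ∃ m : ℤ, ∀ i, y i = x (i + m)

/-- the bi-infinite word `y` is (a shift of) the image of `x` under `ρ` -/
def IsIm {α : Type} (ρ : α → List α) (x y : ℤ → α) : Prop :=
  ∃ c : ℤ → ℤ, (∀ i, c (i + 1) = c i + ((ρ (x i)).length : ℤ)) ∧
    ∀ (i : ℤ) (k : ℕ), k < (ρ (x i)).length → (ρ (x i))[k]? = some (y (c i + (k : ℤ)))

/-- reversal of a bi-infinite word -/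
def rvz {α : Type} (x : ℤ → α) : ℤ → α := fun i => x (-i)

/-- `x` is the image under `ρ` of its own reversal; `c` gives the (decreasing) cut positions:
the letter `x i` is sent to the block of `x` occupying the positions `c (i+1), …, c i - 1`. -/
def Dn {α : Type} (ρ : α → List α) (x : ℤ → α) (c : ℤ → ℤ) : Prop :=
  (∀ i, c (i + 1) = c i - ((ρ (x i)).length : ℤ)) ∧
    ∀ (i : ℤ) (k : ℕ), k < (ρ (x i)).length → (ρ (x i))[k]? = some (x (c (i + 1) + (k : ℤ)))

/-- incidence matrix: entry `(b, a)` is the number of `b` in `φ a` -/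
def Mx {α : Type} [DecidableEq α] (φ : α → List α) : Matrix α α ℤ :=
  fun b a => ((φ a).count b : ℤ)

/-- a configuration at level `P` violating recognizability, see `level_data` and `no_bad` -/
def BadAt {α : Type} (φ : α → List α) (P : ℕ) (A : List α) (β : α) (s ofs : ℕ) : Prop :=
  (∃ S T, app (pw φ P) A = S ++ pw φ P β ++ T ∧ S.length = s) ∧ ofs < (pw φ P β).length ∧
  ∃ (ν : ℕ) (e : α), (app (pw φ (P - 1)) A)[ν]? = some e ∧
    s + ofs = (app φ ((app (pw φ (P - 1)) A).take ν)).length ∧
    ¬ ∃ μ : ℕ, (pw φ (P - 1) β)[μ]? = some e ∧ ofs = (app φ ((pw φ (P - 1) β).take μ)).length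

/-! ## basic lemmas (proved) -/

section basic
variable {α : Type}

@[simp] theorem app_nil (φ : α → List α) : app φ [] = [] := rfl

@[simp] theorem app_cons (φ : α → List α) (a : α) (w : List α) : app φ (a :: w) = φ a ++ app φ w := by
  simp [app]

@[simp] theorem app_append (φ : α → List α) (v w : List α) : app φ (v ++ w) = app φ v ++ app φ w := by
  simp [app]

theorem app_singleton (φ : α → List α) (a : α) : app φ [a] = φ a := by simp [app]

theorem app_iter (φ : α → List α) (n : ℕ) (w : List α) : app (pw φ n) w = (app φ)^[n] w := by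
  induction w with
  | nil =>
    have : ∀ n, (app φ)^[n] [] = [] := by
      intro n; induction n with
      | zero => rfl
      | succ n ih => rw [Function.iterate_succ_apply', ih]; rfl
    simp [this]
  | cons a w ih =>
    have hh : ∀ n (v w : List α), (app φ)^[n] (v ++ w) = (app φ)^[n] v ++ (app φ)^[n] w := by
      intro n; induction n with
      | zero => intro v w; rfl
      | succ n ih => intro v w; rw [Function.iterate_succ_apply', ih, app_append,
          Function.iterate_succ_apply', Function.iterate_succ_apply']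
    rw [app_cons, ih, ← List.singleton_append, hh]; rfl

@[simp] theorem pw_zero (φ : α → List α) (a : α) : pw φ 0 a = [a] := rfl

theorem pw_one (φ : α → List α) : pw φ 1 = φ := by
  funext a; simp [pw, app]

theorem pw_succ (φ : α → List α) (n : ℕ) (a : α) : pw φ (n + 1) a = app φ (pw φ n a) := by
  unfold pw; rw [Function.iterate_succ_apply']

theorem pw_succ' (φ : α → List α) (n : ℕ) (a : α) : pw φ (n + 1) a = app (pw φ n) (φ a) := by
  rw [app_iter]; unfold pw; rw [Function.iterate_succ_apply]; simp [app]

theorem app_pw_zero (φ : α → List α) (w : List α) : app (pw φ 0) w = w := by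
  rw [app_iter]; rfl

/-- `φ^(m+n) (w) = φ^m (φ^n (w))` -/
theorem app_pw_add (φ : α → List α) (m n : ℕ) (w : List α) :
    app (pw φ (m + n)) w = app (pw φ m) (app (pw φ n) w) := by
  rw [app_iter, app_iter, app_iter, Function.iterate_add_apply]

theorem pw_add (φ : α → List α) (m n : ℕ) (a : α) : pw φ (m + n) a = app (pw φ m) (pw φ n a) := by
  have := app_pw_add φ m n [a]
  simpa using this

theorem app_pw_succ (φ : α → List α) (n : ℕ) (w : List α) :
    app (pw φ (n + 1)) w = app φ (app (pw φ n) w) := by
  rw [app_iter, app_iter, Function.iterate_succ_apply']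

theorem app_pw_succ' (φ : α → List α) (n : ℕ) (w : List α) :
    app (pw φ (n + 1)) w = app (pw φ n) (app φ w) := by
  rw [app_iter, app_iter, Function.iterate_succ_apply]

theorem pw_pw (φ : α → List α) (k n : ℕ) : pw (pw φ k) n = pw φ (k * n) := by
  funext a
  induction n with
  | zero => simp
  | succ n ih => rw [pw_succ, ih, Nat.mul_succ, Nat.add_comm, pw_add]

theorem rv_rv (φ : α → List α) : rv (rv φ) = φ := by funext a; simp [rv]

/-- the reversed morphism is the conjugate of the morphism by reversal -/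
theorem app_rv (φ : α → List α) (w : List α) : app (rv φ) w = (app φ w.reverse).reverse := by
  induction w with
  | nil => rfl
  | cons a w ih => simp [ih, rv]

theorem app_rv_reverse (φ : α → List α) (w : List α) :
    app (rv φ) w.reverse = (app φ w).reverse := by
  rw [app_rv, List.reverse_reverse]

theorem length_app_rv (φ : α → List α) (w : List α) : (app (rv φ) w).length = (app φ w).length := by
  induction w with
  | nil => rfl
  | cons a w ih => simp [ih, rv]

theorem pw_rv (φ : α → List α) (n : ℕ) : pw (rv φ) n = rv (pw φ n) := by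
  funext a
  induction n with
  | zero => simp [rv]
  | succ n ih => rw [pw_succ, ih]; show app (rv φ) (pw φ n a).reverse = _
                 rw [app_rv_reverse, ← pw_succ]; rfl

theorem app_infix (φ : α → List α) {v w : List α} (h : v <:+: w) : app φ v <:+: app φ w := by
  obtain ⟨s, t, rfl⟩ := h
  exact ⟨app φ s, app φ t, by simp⟩

theorem length_le_app (φ : α → List α) (h : ∀ a, φ a ≠ []) (w : List α) :
    w.length ≤ (app φ w).length := by
  induction w with
  | nil => simp
  | cons a w ih =>
    have : 1 ≤ (φ a).length := List.length_pos_iff.mpr (h a)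
    simp; omega

@[simp] theorem length_win (u : ℕ → α) (i n : ℕ) : (win u i n).length = n := by simp [win]

@[simp] theorem length_winz (x : ℤ → α) (i : ℤ) (n : ℕ) : (winz x i n).length = n := by simp [winz]

theorem getElem?_win (u : ℕ → α) (i n k : ℕ) (h : k < n) : (win u i n)[k]? = some (u (i + k)) := by
  simp [win, h]

theorem getElem?_winz (x : ℤ → α) (i : ℤ) (n k : ℕ) (h : k < n) :
    (winz x i n)[k]? = some (x (i + k)) := by
  simp [winz, h]

theorem win_add (u : ℕ → α) (i m n : ℕ) : win u i (m + n) = win u i m ++ win u (i + m) n := by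
  unfold win
  rw [List.range_add, List.map_append, List.map_map]
  congr 1
  apply List.map_congr_left
  intro a _
  simp [Nat.add_assoc]

theorem winz_add (x : ℤ → α) (i : ℤ) (m n : ℕ) :
    winz x i (m + n) = winz x i m ++ winz x (i + m) n := by
  unfold winz
  rw [List.range_add, List.map_append, List.map_map]
  congr 1
  apply List.map_congr_left
  intro a _
  simp [add_assoc]

theorem pw_ne_nil (φ : α → List α) (h : ∀ a, φ a ≠ []) (n : ℕ) (a : α) : pw φ n a ≠ [] := by
  induction n with
  | zero => simp
  | succ n ih =>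
    rw [pw_succ]
    intro h0
    have := length_le_app φ h (pw φ n a)
    rw [h0] at this
    exact ih (List.eq_nil_of_length_eq_zero (by simpa using this))

end basic

/-- `Sh` is an equivalence relation -/
theorem Sh.refl {α : Type} (x : ℤ → α) : Sh x x := ⟨0, fun i => by simp⟩

theorem Sh.symm {α : Type} {x y : ℤ → α} (h : Sh x y) : Sh y x := by
  obtain ⟨m, hm⟩ := h
  refine ⟨-m, fun i => ?_⟩
  rw [hm]; congr 1; ring

theorem Sh.trans {α : Type} {x y z : ℤ → α} (h : Sh x y) (h' : Sh y z) : Sh x z := by
  obtain ⟨m, hm⟩ := h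
  obtain ⟨n, hn⟩ := h'
  refine ⟨n + m, fun i => ?_⟩
  rw [hn, hm]; congr 1; ring

/-- bi-infinite words over `L` which are (up to shift) the image under `ρ` of their own reversal -/
def Sol {α : Type} (ρ : α → List α) (L : Set (List α)) : Type :=
  {x : ℤ → α // BL L x ∧ IsIm ρ (rvz x) x}

/-- shift equivalence on `Sol` -/
def solS {α : Type} (ρ : α → List α) (L : Set (List α)) : Setoid (Sol ρ L) where
  r x y := Sh x.1 y.1
  iseqv := ⟨fun x => Sh.refl x.1, fun h => h.symm, fun h h' => h.trans h'⟩

/-- classes of self-reversed-image words modulo shift -/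
def Fix {α : Type} (ρ : α → List α) (L : Set (List α)) : Type := Quotient (solS ρ L)

/-- the factors of the right-infinite word `u` -/
def Lu {α : Type} (u : ℕ → α) : Set (List α) := {w | ∃ i n, w = win u i n}

/-- primitive morphism -/
def Prim {α : Type} (φ : α → List α) : Prop := ∃ k : ℕ, 1 ≤ k ∧ ∀ a b : α, b ∈ pw φ k a

/-- eventually periodic -/
def EvPer {α : Type} (u : ℕ → α) : Prop := ∃ p N : ℕ, 0 < p ∧ ∀ i, N ≤ i → u (i + p) = u i

/-- every short factor occurs in every factor which is `K` times longer -/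
def LinRec {α : Type} (u : ℕ → α) (K : ℕ) : Prop :=
  ∀ n, 1 ≤ n → ∀ w ∈ Lu u, w.length ≤ n → ∀ v ∈ Lu u, K * n ≤ v.length → w <:+: v

end Pool.H868.Pal
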