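import Pool.Agent.Helper868.Pal.Defs

set_option autoImplicit false

namespace Pool.H868.Pal



theorem bim_block {α : Type} {ρ : α → List α} {x y : ℤ → α} {c : ℤ → ℤ}
    (hc1 : ∀ i, c (i + 1) = c i + ((ρ (x i)).length : ℤ))
    (hc2 : ∀ (i : ℤ) (k : ℕ), k < (ρ (x i)).length → (ρ (x i))[k]? = some (y (c i + (k : ℤ))))
    (j : ℤ) (l : ℕ) :
    ∃ N : ℕ, c (j + l) = c j + N ∧ app ρ (winz x j l) = winz y (c j) N := by
  induction l with
  | zero => exact ⟨0, by simp, by simp [winz]⟩
  | succ l ih =>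
    obtain ⟨N, h1, h2⟩ := ih
    have h3 : ρ (x (j + l)) = winz y (c (j + l)) (ρ (x (j + l))).length := by
      apply List.ext_getElem?
      intro k
      by_cases hk : k < (ρ (x (j + l))).length
      · rw [hc2 _ k hk, getElem?_winz _ _ _ _ hk]
      · rw [List.getElem?_eq_none (by omega), List.getElem?_eq_none (by rw [length_winz]; omega)]
    refine ⟨N + (ρ (x (j + l))).length, ?_, ?_⟩
    · have := hc1 (j + l)
      rw [h1] at this
      push_cast
      rw [← add_assoc, ← add_assoc, this]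
    · rw [winz_add, app_append, h2]
      have h4 : winz x (j + l) 1 = [x (j + l)] := by simp [winz]
      rw [h4, app_singleton, winz_add, ← h1, ← h3]

theorem bim_BL {α : Type} {ρ : α → List α} {L : Set (List α)} (ne : ∀ a, ρ a ≠ [])
    (fact : ∀ v w : List α, v <:+: w → w ∈ L → v ∈ L) (sub : ∀ w ∈ L, app ρ w ∈ L)
    {x y : ℤ → α} (hx : BL L x) (h : IsIm ρ x y) : BL L y := by
  obtain ⟨c, hc1, hc2⟩ := h
  have hstep : ∀ (j : ℤ) (l : ℕ), c j + l ≤ c (j + l) := by
    intro j l
    induction l with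
    | zero => simp
    | succ l ih =>
      have h1 := hc1 (j + l)
      have h2 : 1 ≤ (ρ (x (j + l))).length := List.length_pos_iff.mpr (ne _)
      push_cast
      rw [← add_assoc, ← add_assoc, h1]
      omega
  intro i n
  set k : ℕ := (c 0 - i).toNat with hk
  have h1 : c (-(k : ℤ)) ≤ i := by
    have := hstep (-(k : ℤ)) k
    rw [neg_add_cancel] at this
    omega
  set j : ℤ := -(k : ℤ) with hj
  set l : ℕ := (i + n - c j).toNat with hl
  have h2 : i + n ≤ c (j + l) := by
    have := hstep j l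
    omega
  obtain ⟨N, h3, h4⟩ := bim_block hc1 hc2 j l
  obtain ⟨a, ha⟩ : ∃ a : ℕ, i = c j + a := ⟨(i - c j).toNat, by omega⟩
  obtain ⟨b, hb⟩ : ∃ b : ℕ, N = a + n + b := ⟨N - a - n, by omega⟩
  have h5 : winz y (c j) N ∈ L := by
    rw [← h4]
    exact sub _ (hx j l)
  refine fact _ _ ?_ h5
  rw [hb, winz_add, winz_add, ← ha]
  exact ⟨winz y (c j) a, winz y (c j + ((a + n : ℕ) : ℤ)) b, rfl⟩

end Pool.H868.Pal
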