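import Pool.Agent.Helper868.Pal.Defs

set_option autoImplicit false

namespace Pool.H868.Pal



theorem bim_aux {α : Type} {σ : α → List α} {y z : ℤ → α} {c' : ℤ → ℤ}
    (h1 : ∀ i, c' (i + 1) = c' i + ((σ (y i)).length : ℤ))
    (h2 : ∀ (i : ℤ) (k : ℕ), k < (σ (y i)).length → (σ (y i))[k]? = some (z (c' i + (k : ℤ))))
    (v : List α) : ∀ j : ℤ, (∀ k : ℕ, k < v.length → v[k]? = some (y (j + (k : ℤ)))) →
      c' (j + (v.length : ℤ)) = c' j + ((app σ v).length : ℤ) ∧
      ∀ k : ℕ, k < (app σ v).length → (app σ v)[k]? = some (z (c' j + (k : ℤ))) := by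
  induction v with
  | nil =>
    intro j _
    constructor
    · simp
    · intro k hk
      simp at hk
  | cons a v ih =>
    intro j hv
    have ha : a = y j := by
      have := hv 0 (by simp)
      simpa using this
    have hv' : ∀ k : ℕ, k < v.length → v[k]? = some (y (j + 1 + (k : ℤ))) := by
      intro k hk
      have := hv (k + 1) (by simpa using hk)
      rw [List.getElem?_cons_succ] at this
      rw [this]
      congr 2
      push_cast; ring
    obtain ⟨e1, e2⟩ := ih (j + 1) hv'
    rw [app_cons]
    constructor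
    · rw [List.length_append, List.length_cons]
      push_cast
      rw [show j + ((v.length : ℤ) + 1) = j + 1 + (v.length : ℤ) by ring, e1, h1 j, ha]
      ring
    · intro k hk
      by_cases hk1 : k < (σ a).length
      · rw [List.getElem?_append_left hk1, ha]
        exact h2 j k (by rw [← ha]; exact hk1)
      · push Not at hk1
        rw [List.getElem?_append_right hk1]
        rw [List.length_append] at hk
        rw [e2 (k - (σ a).length) (by omega), h1 j, ← ha]
        congr 2
        rw [Nat.cast_sub hk1]
        ring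

theorem bim_comp {α : Type} {ρ σ : α → List α} {x y z : ℤ → α}
    (h : IsIm ρ x y) (h' : IsIm σ y z) : IsIm (fun a => app σ (ρ a)) x z := by
  obtain ⟨c, hc1, hc2⟩ := h
  obtain ⟨c', hc1', hc2'⟩ := h'
  refine ⟨fun i => c' (c i), fun i => ?_, fun i k hk => ?_⟩
  · have := (bim_aux hc1' hc2' (ρ (x i)) (c i) (fun k hk => hc2 i k hk)).1
    show c' (c (i + 1)) = c' (c i) + _
    rw [hc1 i, this]
  · exact (bim_aux hc1' hc2' (ρ (x i)) (c i) (fun k hk => hc2 i k hk)).2 k hk

end Pool.H868.Pal
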