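import Pool.Agent.Helper868.Pal.Defs

set_option autoImplicit false

namespace Pool.H868.Pal



/-- partial sums of a sequence of natural numbers indexed by the integers -/
def j16908_c (l : ℤ → ℕ) : ℤ → ℤ
  | Int.ofNat n => ∑ i ∈ Finset.range n, (l (i : ℤ) : ℤ)
  | Int.negSucc n => -∑ i ∈ Finset.range (n + 1), (l (Int.negSucc i) : ℤ)

theorem j16908_step (l : ℤ → ℕ) (i : ℤ) : j16908_c l (i + 1) = j16908_c l i + (l i : ℤ) := by
  cases i with
  | ofNat n =>
    change (∑ i ∈ Finset.range (n + 1), (l (i : ℤ) : ℤ)) =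
      (∑ i ∈ Finset.range n, (l (i : ℤ) : ℤ)) + (l (n : ℤ) : ℤ)
    rw [Finset.sum_range_succ]
  | negSucc n =>
    cases n with
    | zero =>
      have e : Int.negSucc 0 + 1 = Int.ofNat 0 := rfl
      rw [e]
      simp [j16908_c]
    | succ m =>
      have e : Int.negSucc (m + 1) + 1 = Int.negSucc m := rfl
      rw [e]
      change -∑ i ∈ Finset.range (m + 1), (l (Int.negSucc i) : ℤ) =
        -∑ i ∈ Finset.range (m + 1 + 1), (l (Int.negSucc i) : ℤ) + (l (Int.negSucc (m + 1)) : ℤ)
      rw [Finset.sum_range_succ _ (m + 1)]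
      ring

theorem bim_exists {α : Type} {ρ : α → List α} (ne : ∀ a, ρ a ≠ []) (x : ℤ → α) :
    ∃ y, IsIm ρ x y := by
  set c : ℤ → ℤ := j16908_c (fun i => (ρ (x i)).length) with hc
  have hstep : ∀ i, c (i + 1) = c i + ((ρ (x i)).length : ℤ) := fun i => j16908_step _ i
  have hlen : ∀ i, 1 ≤ ((ρ (x i)).length : ℤ) := fun i => by
    have := List.length_pos_of_ne_nil (ne (x i))
    omega
  have hmono : StrictMono c := strictMono_int_of_lt_succ fun i => by
    have h1 := hstep i
    have h2 := hlen i
    omega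
  have hc0 : c 0 = 0 := by
    change (∑ i ∈ Finset.range 0, _) = (0 : ℤ)
    rw [Finset.sum_range_zero]
  have hup : ∀ n : ℕ, (n : ℤ) ≤ c n := by
    intro n
    induction n with
    | zero =>
      rw [Nat.cast_zero, hc0]
    | succ n ih =>
      have h1 := hstep n
      have h2 := hlen n
      push_cast
      omega
  have hdown : ∀ n : ℕ, c (-(n : ℤ)) ≤ -(n : ℤ) := by
    intro n
    induction n with
    | zero =>
      rw [Nat.cast_zero, neg_zero, hc0]
    | succ n ih =>
      have h1 := hstep (-(n : ℤ) - 1)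
      have h2 := hlen (-(n : ℤ) - 1)
      have e : -(n : ℤ) - 1 + 1 = -(n : ℤ) := by ring
      rw [e] at h1
      have e2 : -((n + 1 : ℕ) : ℤ) = -(n : ℤ) - 1 := by push_cast; ring
      rw [e2]
      omega
  have hex : ∀ p : ℤ, ∃ i, c i ≤ p ∧ p < c (i + 1) := by
    intro p
    obtain ⟨i, hi, hmax⟩ := Int.exists_greatest_of_bdd (P := fun i => c i ≤ p)
      ⟨max p 0, fun z hz => by
        rcases le_total z 0 with h | h
        · exact h.trans (le_max_right _ _)
        · obtain ⟨n, rfl⟩ := Int.eq_ofNat_of_zero_le h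
          exact ((hup n).trans hz).trans (le_max_left _ _)⟩
      ⟨min p 0, by
        have h : 0 ≤ -(min p 0) := by
          have := min_le_right p 0
          omega
        obtain ⟨n, hn⟩ := Int.eq_ofNat_of_zero_le h
        have e : min p 0 = -(n : ℤ) := by omega
        change c (min p 0) ≤ p
        rw [e]
        refine (hdown n).trans ?_
        rw [← e]
        exact min_le_left _ _⟩
    refine ⟨i, hi, ?_⟩
    by_contra hcon
    have := hmax (i + 1) (not_lt.1 hcon)
    omega
  have hy : ∀ p : ℤ, ∃ a : α, ∀ (i : ℤ) (k : ℕ), k < (ρ (x i)).length → p = c i + (k : ℤ) →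
      (ρ (x i))[k]? = some a := by
    intro p
    obtain ⟨i, h1, h2⟩ := hex p
    have h3 := hstep i
    have hk : (p - c i).toNat < (ρ (x i)).length := by omega
    refine ⟨(ρ (x i))[(p - c i).toNat]'hk, ?_⟩
    intro i' k' hk' hp
    have h4 := hstep i'
    have e : i' = i := by
      rcases lt_trichotomy i' i with h | h | h
      · exfalso
        have h5 : c (i' + 1) ≤ c i := hmono.monotone (by omega)
        omega
      · exact h
      · exfalso
        have h5 : c (i + 1) ≤ c i' := hmono.monotone (by omega)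
        omega
    subst e
    have e2 : k' = (p - c i').toNat := by omega
    subst e2
    exact List.getElem?_eq_getElem hk
  choose y hy using hy
  exact ⟨y, c, hstep, fun i k hk => hy (c i + (k : ℤ)) i k hk rfl⟩

end Pool.H868.Pal
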