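import Pool.Agent.Helper868.Pal.Defs

set_option autoImplicit false

namespace Pool.H868.Pal



theorem bim_winz {α : Type} {ψ : α → List α} {x y : ℤ → α} {c : ℤ → ℤ}
    (h1 : ∀ i, c (i + 1) = c i + ((ψ (x i)).length : ℤ))
    (h2 : ∀ (i : ℤ) (k : ℕ), k < (ψ (x i)).length → (ψ (x i))[k]? = some (y (c i + (k : ℤ))))
    (j : ℤ) (l : ℕ) : app ψ (winz x j l) = winz y (c j) (app ψ (winz x j l)).length ∧
      c (j + l) = c j + ((app ψ (winz x j l)).length : ℤ) := by
  induction l with
  | zero =>
    have e : winz x j 0 = [] := rfl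
    rw [e, app_nil]
    constructor
    · rfl
    · simp
  | succ l ih =>
    obtain ⟨ih1, ih2⟩ := ih
    have e1 : winz x (j + (l : ℤ)) 1 = [x (j + l)] := by
      unfold winz
      simp
    have e2 : winz x j (l + 1) = winz x j l ++ [x (j + l)] := by rw [winz_add, e1]
    have e3 : ψ (x (j + l)) = winz y (c (j + l)) (ψ (x (j + l))).length := by
      apply List.ext_getElem?
      intro k
      by_cases hk : k < (ψ (x (j + l))).length
      · rw [h2 _ _ hk, getElem?_winz _ _ _ _ hk]
      · rw [List.getElem?_eq_none (by omega), List.getElem?_eq_none (by rw [length_winz]; omega)]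
    rw [e2, app_append, app_singleton, List.length_append]
    constructor
    · rw [winz_add, ← ih1, ← ih2, ← e3]
    · have e4 : j + ((l + 1 : ℕ) : ℤ) = (j + l) + 1 := by push_cast; ring
      rw [e4, h1, ih2]
      push_cast
      ring

theorem bim_fa {α : Type} {ψ : α → List α} {L : Set (List α)} (ne : ∀ a, ψ a ≠ []) {n : ℤ}
    (hFA : FA ψ L n) {x y : ℤ → α} (hx : BL L x) (h : IsIm ψ x y) : IsIm (rv ψ) x y := by
  obtain ⟨c, h1, h2⟩ := h
  have hlen : ∀ a, (rv ψ a).length = (ψ a).length := fun a => List.length_reverse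
  refine ⟨fun i => c i + n, ?_, ?_⟩
  · intro i
    show c (i + 1) + n = c i + n + ((rv ψ (x i)).length : ℤ)
    rw [h1, hlen]
    ring
  · intro i k hk
    rw [hlen] at hk
    show (rv ψ (x i))[k]? = some (y (c i + n + (k : ℤ)))
    obtain ⟨N, hN⟩ : ∃ N : ℕ, N = n.natAbs + 1 := ⟨_, rfl⟩
    obtain ⟨A, hA⟩ : ∃ A, A = winz x (i - N) N := ⟨_, rfl⟩
    obtain ⟨B, hB⟩ : ∃ B, B = winz x (i + 1) N := ⟨_, rfl⟩
    have e1 : winz x i 1 = [x i] := by
      unfold winz
      simp
    have hv : winz x (i - N) (N + 1 + N) = A ++ [x i] ++ B := by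
      rw [winz_add, winz_add, ← hA, hB]
      have e2 : i - (N : ℤ) + (N : ℤ) = i := by ring
      have e3 : i - (N : ℤ) + ((N + 1 : ℕ) : ℤ) = i + 1 := by push_cast; ring
      rw [e2, e3, e1]
    have hvL : A ++ [x i] ++ B ∈ L := by
      rw [← hv]
      exact hx _ _
    have hAl : N ≤ (app ψ A).length := by
      have := length_le_app ψ ne A
      rw [hA, length_winz] at this
      rw [hA]
      exact this
    have hBl : N ≤ (app ψ B).length := by
      have := length_le_app ψ ne B
      rw [hB, length_winz] at this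
      rw [hB]
      exact this
    have hlv : (app ψ (A ++ [x i] ++ B)).length
        = (app ψ A).length + (ψ (x i)).length + (app ψ B).length := by
      rw [app_append, app_append, app_singleton, List.length_append, List.length_append]
    obtain ⟨t', ht'⟩ : ∃ t' : ℕ, (t' : ℤ) = ((app ψ A).length + k : ℕ) + n :=
      ⟨(((app ψ A).length + k : ℕ) + n).toNat, Int.toNat_of_nonneg (by omega)⟩
    have key := hFA (A ++ [x i] ++ B) hvL ((app ψ A).length + k) t' ht' (by rw [hlv]; omega)
      (by rw [hlv]; omega)
    have lhs : (app (rv ψ) (A ++ [x i] ++ B))[(app ψ A).length + k]? = (rv ψ (x i))[k]? := by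
      rw [app_append, app_append, app_singleton, List.getElem?_append_left, 
        List.getElem?_append_right]
      · rw [length_app_rv, Nat.add_sub_cancel_left]
      · rw [length_app_rv]
        omega
      · rw [List.length_append, length_app_rv, hlen]
        omega
    have rhs : (app ψ (A ++ [x i] ++ B))[t']? = some (y (c i + n + (k : ℤ))) := by
      have w1 := (bim_winz h1 h2 (i - N) (N + 1 + N)).1
      rw [hv] at w1
      rw [w1, getElem?_winz _ _ _ _ (by rw [hlv]; omega)]
      have w2 := (bim_winz h1 h2 (i - N) N).2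
      rw [← hA] at w2
      have e2 : i - (N : ℤ) + (N : ℤ) = i := by ring
      rw [e2] at w2
      congr 2
      rw [ht', w2]
      push_cast
      ring
    rw [← lhs, key, rhs]

end Pool.H868.Pal
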