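import Pool.Agent.Helper868.Pal.Defs

set_option autoImplicit false

namespace Pool.H868.Pal



theorem bim_rev {α : Type} {ρ : α → List α} {x y : ℤ → α} (h : IsIm ρ x y) :
    IsIm (rv ρ) (rvz x) (rvz y) := by
  obtain ⟨c, hc1, hc2⟩ := h
  refine ⟨fun i => 1 - c (1 - i), ?_, ?_⟩
  · intro i
    have h1 := hc1 (-i)
    have h2 : (1 : ℤ) - (i + 1) = -i := by ring
    have h3 : (1 : ℤ) - i = -i + 1 := by ring
    show 1 - c (1 - (i + 1)) = 1 - c (1 - i) + ((rv ρ (x (-i))).length : ℤ)
    rw [h2, h3, h1]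
    simp only [rv, List.length_reverse]
    ring
  · intro i k hk
    have h1 := hc1 (-i)
    have h3 : (1 : ℤ) - i = -i + 1 := by ring
    have hk' : k < (ρ (x (-i))).length := by
      have : (rv ρ (x (-i))).length = (ρ (x (-i))).length := by simp [rv]
      rw [← this]; exact hk
    show (ρ (x (-i))).reverse[k]? = some (y (-(1 - c (1 - i) + (k : ℤ))))
    rw [List.getElem?_reverse hk', hc2 (-i) _ (by omega), h3, h1]
    congr 2
    rw [Nat.cast_sub (by omega), Nat.cast_sub (by omega)]
    push_cast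
    ring

end Pool.H868.Pal
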