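import Pool.Agent.Helper868.Pal.Defs

set_option autoImplicit false

namespace Pool.H868.Pal



theorem bim_shift {α : Type} {ρ : α → List α} {x x' y y' : ℤ → α}
    (h : IsIm ρ x y) (hx : Sh x x') (hy : Sh y y') : IsIm ρ x' y' := by
  obtain ⟨c, hc1, hc2⟩ := h
  obtain ⟨m, hm⟩ := hx
  obtain ⟨n, hn⟩ := hy
  refine ⟨fun i => c (i + m) - n, fun i => ?_, fun i k hk => ?_⟩
  · show c (i + 1 + m) - n = c (i + m) - n + ((ρ (x' i)).length : ℤ)
    rw [hm, show i + 1 + m = i + m + 1 by ring, hc1]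
    ring
  · rw [hm] at hk ⊢
    rw [hc2 _ k hk, hn]
    show some (y (c (i + m) + k)) = some (y (c (i + m) - n + k + n))
    congr 2
    ring

end Pool.H868.Pal
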