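import Pool.Agent.Helper868.Pal.Defs

set_option autoImplicit false

namespace Pool.H868.Pal



theorem cut_lin_16918 {c : ℤ → ℤ} (hc : ∀ i, c i + 1 ≤ c (i + 1)) (i : ℤ) :
    (0 ≤ i → c 0 + i ≤ c i) ∧ (i ≤ 0 → c i ≤ c 0 + i) := by
  induction i using Int.induction_on with
  | zero => exact ⟨fun _ => by simp, fun _ => by simp⟩
  | succ i ih =>
    refine ⟨fun _ => ?_, fun h => ?_⟩
    · have := ih.1 (by positivity)
      have := hc i
      linarith
    · exfalso
      have : (0 : ℤ) ≤ i := by positivity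
      linarith
  | pred i ih =>
    refine ⟨fun h => ?_, fun _ => ?_⟩
    · exfalso
      have : (0 : ℤ) ≤ i := by positivity
      linarith
    · have h0 : (0 : ℤ) ≤ i := by positivity
      have h1 := ih.2 (by linarith)
      have h2 := hc (-(i : ℤ) - 1)
      have e : -(i : ℤ) - 1 + 1 = -i := by ring
      rw [e] at h2
      linarith

theorem cut_find_16918 {c : ℤ → ℤ} (hc : ∀ i, c i + 1 ≤ c (i + 1)) (p : ℤ) :
    ∃ i, c i ≤ p ∧ p < c (i + 1) := by
  obtain ⟨i, hi, hm⟩ := Int.exists_greatest_of_bdd (P := fun i => c i ≤ p)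
    ⟨max 0 (p - c 0), fun z hz => by
      by_contra hcon
      rw [not_le, max_lt_iff] at hcon
      have := (cut_lin_16918 hc z).1 hcon.1.le
      have hz' : c z ≤ p := hz
      linarith [hcon.2]⟩
    ⟨min 0 (p - c 0), by
      have := (cut_lin_16918 hc (min 0 (p - c 0))).2 (min_le_left _ _)
      have h2 := min_le_right 0 (p - c 0)
      show c (min 0 (p - c 0)) ≤ p
      linarith⟩
  refine ⟨i, hi, ?_⟩
  by_contra hcon
  have := hm (i + 1) (not_lt.1 hcon)
  linarith

theorem bim_unique {α : Type} {ρ : α → List α} (ne : ∀ a, ρ a ≠ []) {x x' y y' : ℤ → α}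
    (h : IsIm ρ x y) (h' : IsIm ρ x' y') (hs : Sh x x') : Sh y y' := by
  obtain ⟨c, hc1, hc2⟩ := h
  obtain ⟨c', hc1', hc2'⟩ := h'
  obtain ⟨m, hm⟩ := hs
  have hpos : ∀ i, c' i + 1 ≤ c' (i + 1) := by
    intro i
    rw [hc1' i]
    have : 1 ≤ (ρ (x' i)).length := List.length_pos_iff.mpr (ne _)
    have : (1 : ℤ) ≤ ((ρ (x' i)).length : ℤ) := by exact_mod_cast this
    linarith
  have hstep : ∀ i, c' (i + 1) - c (i + 1 + m) = c' i - c (i + m) := by
    intro i
    have h1 := hc1' i
    have h2 := hc1 (i + m)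
    rw [hm i] at h1
    have e : i + m + 1 = i + 1 + m := by ring
    rw [e] at h2
    linarith
  have hconst : ∀ i, c' i - c (i + m) = c' 0 - c (0 + m) := by
    intro i
    induction i using Int.induction_on with
    | zero => rfl
    | succ i ih => rw [hstep, ih]
    | pred i ih =>
      have h1 := hstep (-(i : ℤ) - 1)
      have e : -(i : ℤ) - 1 + 1 = -i := by ring
      rw [e] at h1
      rw [← h1, ih]
  refine ⟨-(c' 0 - c (0 + m)), fun p => ?_⟩
  obtain ⟨i, hi1, hi2⟩ := cut_find_16918 hpos p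
  have hk : ((p - c' i).toNat : ℤ) = p - c' i := Int.toNat_of_nonneg (by linarith)
  have hlt : (p - c' i).toNat < (ρ (x' i)).length := by
    have h1 := hc1' i
    have : ((p - c' i).toNat : ℤ) < ((ρ (x' i)).length : ℤ) := by rw [hk]; linarith
    exact_mod_cast this
  have h1 := hc2' i _ hlt
  have h2 := hc2 (i + m) (p - c' i).toNat (by rw [← hm i]; exact hlt)
  rw [← hm i, h1, hk] at h2
  have h3 := Option.some.inj h2
  have e1 : c' i + (p - c' i) = p := by ring
  have e2 : c (i + m) + (p - c' i) = p + -(c' 0 - c (0 + m)) := by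
    have := hconst i
    linarith
  rw [e1, e2] at h3
  exact h3

end Pool.H868.Pal
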