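import Pool.Agent.Helper868.Pal.Defs

set_option autoImplicit false

namespace Pool.H868.Pal



theorem bl_aper {α : Type} {φ : α → List α} {L : Set (List α)} (H : Sys φ L) {x : ℤ → α}
    (hx : BL L x) (m : ℤ) (h : ∀ i, x (i + m) = x i) : m = 0 := by
  have key : ∀ m : ℕ, 0 < m → (∀ i, x (i + (m : ℤ)) = x i) → False := by
    intro m hm hp
    obtain ⟨C, hC, hpow⟩ := H.pow
    have hper : ∀ (i : ℤ) (k : ℕ), winz x (i + m) k = winz x i k := by
      intro i k
      unfold winz
      apply List.map_congr_left
      intro j _
      rw [show i + (m : ℤ) + (j : ℤ) = i + (j : ℤ) + (m : ℤ) by ring, hp]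
    have hrep : ∀ (n : ℕ) (i : ℤ), winz x i (n * m) = (List.replicate n (winz x i m)).flatten := by
      intro n i
      induction n with
      | zero => simp [winz]
      | succ n ih =>
        rw [Nat.succ_mul, Nat.add_comm, winz_add, hper, ih, List.replicate_succ, List.flatten_cons]
    apply hpow (winz x 0 m)
    · intro h0
      have := length_winz x 0 m
      rw [h0] at this
      simp at this
      omega
    · rw [← hrep]
      exact hx 0 _
  rcases lt_trichotomy m 0 with hm | hm | hm
  · exfalso
    apply key m.natAbs (by omega)
    intro i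
    have e : ((m.natAbs : ℕ) : ℤ) = -m := by omega
    rw [e]
    have := h (i + -m)
    rw [← this]
    congr 1
    ring
  · exact hm
  · exfalso
    apply key m.natAbs (by omega)
    intro i
    have e : ((m.natAbs : ℕ) : ℤ) = m := by omega
    rw [e]
    exact h i

end Pool.H868.Pal
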