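import Pool.Agent.Helper868.Pal.Defs

set_option autoImplicit false

namespace Pool.H868.Pal



theorem bl_pal {α : Type} {L : Set (List α)} {x : ℤ → α} (hx : BL L x) (h : Sh x (rvz x)) :
    ∀ N : ℕ, ∃ w ∈ L, N ≤ w.length ∧ w.reverse = w := by
  intro N
  obtain ⟨m, hm⟩ := h
  -- `x (-i) = x (i + m)` for all `i`
  have hx2 : ∀ i : ℤ, x (-i) = x (i + m) := fun i => hm i
  obtain ⟨a, len, hlen, hN⟩ : ∃ (a : ℤ) (len : ℕ), (len : ℤ) = m + 1 - 2 * a ∧ N ≤ len := by
    refine ⟨-(N : ℤ) - |m|, (m + 1 - 2 * (-(N : ℤ) - |m|)).toNat, ?_, ?_⟩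
    · apply Int.toNat_of_nonneg
      have := neg_abs_le m
      have := abs_nonneg m
      omega
    · have h1 := neg_abs_le m
      have h2 := abs_nonneg m
      omega
  refine ⟨winz x a len, hx _ _, by simpa using hN, ?_⟩
  apply List.ext_getElem?
  intro t
  by_cases ht : t < len
  · rw [List.getElem?_reverse (by simpa using ht), length_winz, getElem?_winz _ _ _ _ ht,
      getElem?_winz _ _ _ _ (by omega)]
    congr 1
    have h1 := hx2 (-(a + t))
    rw [neg_neg] at h1
    rw [h1]
    congr 1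
    omega
  · rw [List.getElem?_eq_none (by simpa using ht), List.getElem?_eq_none (by simpa using ht)]

end Pool.H868.Pal
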