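import Pool.Agent.Helper868.Pal.Defs

set_option autoImplicit false

namespace Pool.H868.Pal



theorem j16942_eq {α : Type} (x : ℤ → α) (i : ℤ) (n : ℕ) :
    winz (rvz x) i n = (winz x (-(i + n - 1)) n).reverse := by
  apply List.ext_getElem?
  intro k
  by_cases hk : k < n
  · rw [getElem?_winz _ _ _ _ hk, List.getElem?_reverse (by rw [length_winz]; exact hk),
      length_winz, getElem?_winz _ _ _ _ (by omega)]
    unfold rvz
    congr 2
    omega
  · rw [List.getElem?_eq_none (by rw [length_winz]; omega),
      List.getElem?_eq_none (by rw [List.length_reverse, length_winz]; omega)]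

theorem bl_rvz {α : Type} {L : Set (List α)} (hR : RC L) {x : ℤ → α} (hx : BL L x) :
    BL L (rvz x) := by
  intro i n
  rw [j16942_eq]
  exact hR _ (hx _ _)

end Pool.H868.Pal
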