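import Pool.Agent.Helper868.Pal.Defs

set_option autoImplicit false

namespace Pool.H868.Pal



theorem bl_sh {α : Type} {L : Set (List α)} {x y : ℤ → α} (hx : BL L x) (h : Sh x y) :
    BL L y := by
  obtain ⟨m, hm⟩ := h
  intro i n
  have h1 : winz y i n = winz x (i + m) n := by
    unfold winz
    apply List.map_congr_left
    intro j _
    rw [hm]
    congr 1
    ring
  rw [h1]
  exact hx (i + m) n

end Pool.H868.Pal
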