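import Pool.Agent.Helper868.Pal.Defs

set_option autoImplicit false

namespace Pool.H868.Pal



theorem close_occ {α : Type} [Fintype α] {φ : α → List α} {L : Set (List α)} (H : Sys φ L) :
    ∃ C : ℕ, 1 ≤ C ∧ ∀ w ∈ L, ∀ (v : List α) (s δ : ℕ), 0 < δ → C * δ ≤ v.length →
      (w.drop s).take v.length = v → (w.drop (s + δ)).take v.length = v → False := by
  obtain ⟨C, hC1, hC⟩ := H.pow
  refine ⟨C, hC1, ?_⟩
  intro w hw v s δ hδ hlen h1 h2
  have e1 : ∀ i, i < v.length → w[s + i]? = v[i]? := by
    intro i hi
    have h := congrArg (fun l => l[i]?) h1
    simp only [List.getElem?_take, List.getElem?_drop, if_pos hi] at h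
    exact h
  have e2 : ∀ i, i < v.length → w[s + δ + i]? = v[i]? := by
    intro i hi
    have h := congrArg (fun l => l[i]?) h2
    simp only [List.getElem?_take, List.getElem?_drop, if_pos hi] at h
    exact h
  have per : ∀ i, i + δ < v.length → v[δ + i]? = v[i]? := by
    intro i hi
    rw [← e1 (δ + i) (by omega), ← e2 i (by omega), Nat.add_assoc]
  have key : ∀ c, c * δ ≤ v.length → (List.replicate c (v.take δ)).flatten = v.take (c * δ) := by
    intro c
    induction c with
    | zero => intro _; simp
    | succ c ih =>
      intro hc
      have hc' : (c + 1) * δ = δ + c * δ := by ring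
      rw [hc'] at hc
      rw [List.replicate_succ, List.flatten_cons, ih (by omega), hc', List.take_add]
      congr 1
      apply List.ext_getElem?
      intro i
      rw [List.getElem?_take, List.getElem?_take]
      split_ifs with hi
      · rw [List.getElem?_drop]
        exact (per i (by omega)).symm
      · rfl
  have hδC : δ ≤ C * δ := Nat.le_mul_of_pos_left δ hC1
  apply hC (v.take δ)
  · intro h0
    have h3 := congrArg List.length h0
    rw [List.length_take, List.length_nil] at h3
    omega
  · rw [key C hlen]
    apply H.fact _ w _ hw
    have h4 : v <:+: w := by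
      rw [← h1]
      exact ((List.take_prefix _ _).isInfix).trans (List.drop_suffix _ _).isInfix
    exact ((List.take_prefix _ _).isInfix).trans h4

end Pool.H868.Pal
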