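import Pool.Agent.Helper868.Pal.Defs

set_option autoImplicit false

namespace Pool.H868.Pal


section coretypes

variable {α : Type}

theorem ct_last_app {ψ : α → List α} {g : α → α} (hg : ∀ a, (ψ a).getLast? = some (g a))
    {w : List α} {x : α} (h : w.getLast? = some x) : (app ψ w).getLast? = some (g x) := by
  rw [List.getLast?_eq_some_iff] at h
  obtain ⟨s, rfl⟩ := h
  rw [app_append, app_singleton, List.getLast?_append, hg]
  rfl

theorem ct_last_pw {ψ : α → List α} {g : α → α} (hg : ∀ a, (ψ a).getLast? = some (g a))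
    (hgg : ∀ a, g (g a) = g a) (m : ℕ) (b : α) : (pw ψ (m + 1) b).getLast? = some (g b) := by
  induction m with
  | zero => rw [zero_add, pw_one]; exact hg b
  | succ m ih =>
    rw [pw_succ, ct_last_app hg ih, hgg]

theorem ct_mem_pw {ψ : α → List α} {L : Set (List α)} (H : Sys ψ L) (m : ℕ) {w : List α}
    (hw : w ∈ L) : app (pw ψ m) w ∈ L := by
  induction m with
  | zero => rwa [app_pw_zero]
  | succ m ih => rw [app_pw_succ]; exact H.sub _ ih

theorem ct_cons_mem {ψ : α → List α} {L : Set (List α)} (H : Sys ψ L) {g : α → α}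
    (hg : ∀ a, (ψ a).getLast? = some (g a)) (hgg : ∀ a, g (g a) = g a) (m : ℕ) {b c : α}
    (h : [b, c] ∈ L) : g b :: pw ψ (m + 1) c ∈ L := by
  have h1 := ct_mem_pw H (m + 1) h
  have h2 := ct_last_pw hg hgg m b
  rw [List.getLast?_eq_some_iff] at h2
  obtain ⟨s, hs⟩ := h2
  refine H.fact _ _ ⟨s, [], ?_⟩ h1
  rw [app_cons, app_singleton, hs]
  simp

theorem ct_g_eq {ψ : α → List α} {L : Set (List α)} (H : Sys ψ L) {g : α → α}
    (hg : ∀ a, (ψ a).getLast? = some (g a)) (hgg : ∀ a, g (g a) = g a)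
    (hdet : ∃ B : ℕ, ∀ (w : List α) (a b : α), B ≤ w.length → a :: w ∈ L → b :: w ∈ L → g a = g b)
    {b b' c : α} (h : [b, c] ∈ L) (h' : [b', c] ∈ L) : g b = g b' := by
  obtain ⟨B, hB⟩ := hdet
  obtain ⟨t, ht⟩ := H.growth B
  have := hB (pw ψ (t + 1) c) (g b) (g b') (ht (t + 1) (by omega) c)
    (ct_cons_mem H hg hgg t h) (ct_cons_mem H hg hgg t h')
  rwa [hgg, hgg] at this

theorem ct_tele {L : Set (List α)} (hfact : ∀ v w : List α, v <:+: w → w ∈ L → v ∈ L)
    {g al : α → α} (hal : ∀ b c, [b, c] ∈ L → g b = al c) (θ : α → ZMod 2) :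
    ∀ (w : List α) (x y : α), w ∈ L → w.head? = some x → w.getLast? = some y →
      (w.map fun z => θ (g z) + θ (al z)).sum = θ (g y) + θ (al x) := by
  intro w
  induction w with
  | nil => intro x y _ h; simp at h
  | cons z w ih =>
    intro x y hw hx hy
    rw [List.head?_cons, Option.some.injEq] at hx
    subst hx
    cases w with
    | nil =>
      rw [List.getLast?_singleton, Option.some.injEq] at hy
      subst hy
      simp
    | cons z' w =>
      have h1 : z' :: w ∈ L := hfact _ _ ⟨[z], [], by simp⟩ hw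
      have h2 : [z, z'] ∈ L := hfact _ _ ⟨[], w, by simp⟩ hw
      rw [List.getLast?_cons_cons] at hy
      have h3 := ih z' y h1 rfl hy
      rw [List.map_cons, List.sum_cons, h3, hal z z' h2]
      have h4 : θ (al z') + θ (al z') = 0 := CharTwo.add_self_eq_zero _
      linear_combination h4

theorem ct_even [DecidableEq α] {w : List α} (h : ∀ b, Even (w.count b)) (θ : α → ZMod 2) :
    (w.map θ).sum = 0 := by
  rw [Finset.sum_list_map_count]
  refine Finset.sum_eq_zero fun b _ => ?_
  obtain ⟨k, hk⟩ := h b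
  rw [hk, add_nsmul]
  exact CharTwo.add_self_eq_zero _

theorem ct_const {L : Set (List α)} (hfact : ∀ v w : List α, v <:+: w → w ∈ L → v ∈ L)
    {g : α → α} (hadj : ∀ b c, [b, c] ∈ L → g b = g c) :
    ∀ (w : List α) (x : α), w ∈ L → w.head? = some x → ∀ y ∈ w, g y = g x := by
  intro w
  induction w with
  | nil => intro x _ h; simp at h
  | cons z w ih =>
    intro x hw hx y hy
    rw [List.head?_cons, Option.some.injEq] at hx
    subst hx
    rcases List.mem_cons.mp hy with rfl | hy
    · rfl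
    · cases w with
      | nil => simp at hy
      | cons z' w =>
        have h1 : z' :: w ∈ L := hfact _ _ ⟨[z], [], by simp⟩ hw
        have h2 : [z, z'] ∈ L := hfact _ _ ⟨[], w, by simp⟩ hw
        rw [ih z' h1 rfl y hy, hadj z z' h2]

end coretypes

theorem core_types {α : Type} [Fintype α] [DecidableEq α] {ψ : α → List α} {L : Set (List α)}
    (H : Sys ψ L) (f g : α → α) (hf : ∀ a, (ψ a).head? = some (f a))
    (hg : ∀ a, (ψ a).getLast? = some (g a)) (hff : ∀ a, f (f a) = f a) (hgg : ∀ a, g (g a) = g a)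
    (hdet : ∃ B : ℕ, ∀ (w : List α) (a b : α), B ≤ w.length → a :: w ∈ L → b :: w ∈ L → g a = g b)
    (heven : ∀ a b, Even ((ψ a).count b)) :
    ∃ l : α, [l, f l] ∈ L ∧ g (f l) = l := by
  choose β hβ using fun c => H.extl [c] (H.letter c)
  have hA1 : ∀ b c, [b, c] ∈ L → g b = g (β c) := fun b c h =>
    ct_g_eq H hg hgg hdet h (hβ c)
  have hA2' : ∀ b c, [b, c] ∈ L → [g b, f c] ∈ L := by
    intro b c h
    have h1 := H.sub _ h
    have h2 := hg b
    rw [List.getLast?_eq_some_iff] at h2
    obtain ⟨s, hs⟩ := h2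
    obtain ⟨t, ht⟩ : ∃ t, ψ c = f c :: t := by
      have h3 := hf c
      rw [List.head?_eq_some_iff] at h3
      exact h3
    refine H.fact _ _ ⟨s, t, ?_⟩ h1
    rw [app_cons, app_singleton, hs, ht]
    simp
  have hA2 : ∀ c, g (β (f c)) = g (β c) := by
    intro c
    have := hA1 _ _ (hA2' _ _ (hβ c))
    rw [hgg] at this
    exact this.symm
  have hA3 : ∀ a, g a = g (β a) := by
    intro a
    have hmem : ψ a ∈ L := by
      have := H.sub _ (H.letter a)
      rwa [app_singleton] at this
    have hkey : ∀ θ : α → ZMod 2, θ (g (g a)) + θ (g (β (f a))) = 0 := by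
      intro θ
      rw [← ct_tele H.fact (al := fun c => g (β c)) hA1 θ (ψ a) (f a) (g a) hmem (hf a) (hg a)]
      exact ct_even (heven a) _
    have h1 := hkey (fun x => if x = g (g a) then 1 else 0)
    rw [hA2, hgg] at h1
    by_contra hne
    simp only [if_true] at h1
    rw [if_neg (fun h => hne h.symm)] at h1
    simp at h1
  have hadj : ∀ b c, [b, c] ∈ L → g b = g c := fun b c h => by rw [hA1 b c h, ← hA3]
  have hconst : ∀ a b, g a = g b := by
    intro a b
    obtain ⟨n1, h1⟩ := H.unif [a] (H.letter a)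
    obtain ⟨n2, h2⟩ := H.unif [b] (H.letter b)
    obtain ⟨w, hw, hlen, -⟩ := H.spec (max n1 n2 + 1)
    have ha : a ∈ w := (h1 w hw (by omega)).subset (List.mem_singleton_self a)
    have hb : b ∈ w := (h2 w hw (by omega)).subset (List.mem_singleton_self b)
    cases w with
    | nil => simp at hlen
    | cons x w =>
      rw [ct_const H.fact hadj (x :: w) x hw rfl a ha, ct_const H.fact hadj (x :: w) x hw rfl b hb]
  obtain ⟨w, -, -, a, -, -⟩ := H.spec 0
  refine ⟨g a, ?_, hconst _ _⟩
  have := hA2' _ _ (hβ (g a))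
  rwa [hconst (β (g a)) a] at this

end Pool.H868.Pal
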