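import Pool.Agent.Helper868.Pal.Defs

set_option autoImplicit false

namespace Pool.H868.Pal



theorem dnx_lim {α : Type} (a : α) (w : ℕ → List α) (h : ∀ t, w t <+: w (t+1)) :
    ∃ f : ℕ → α, ∀ t j, j < (w t).length → (w t)[j]? = some (f j) := by
  classical
  have hm : ∀ s t, s ≤ t → w s <+: w t := by
    intro s t hst
    induction t, hst using Nat.le_induction with
    | base => exact List.prefix_refl _
    | succ t _ ih => exact ih.trans (h t)
  have hp : ∀ s t, s ≤ t → ∀ j, j < (w s).length → (w t)[j]? = (w s)[j]? := by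
    intro s t hst j hj
    obtain ⟨z, hz⟩ := hm s t hst
    rw [← hz, List.getElem?_append_left hj]
  refine ⟨fun j => if hj : ∃ t, j < (w t).length then (w (Nat.find hj))[j]'(Nat.find_spec hj) else a, ?_⟩
  intro t j hj
  have hex : ∃ t, j < (w t).length := ⟨t, hj⟩
  have hle : Nat.find hex ≤ t := Nat.find_min' hex hj
  simp only [dif_pos hex]
  rw [hp _ t hle j (Nat.find_spec hex)]
  exact List.getElem?_eq_getElem _

theorem dnx_seq {α : Type} (ρ : α → List α) (P S' : List α) :
    ∃ m r : ℕ → List α, m 0 = [] ∧ r 0 = [] ∧ (∀ t, m (t+1) = P.reverse ++ app (rv ρ) (r t)) ∧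
      (∀ t, r (t+1) = S' ++ app ρ (m t)) := by
  let p : ℕ → List α × List α := fun t =>
    Nat.rec ([], []) (fun _ q => (P.reverse ++ app (rv ρ) q.2, S' ++ app ρ q.1)) t
  exact ⟨fun t => (p t).1, fun t => (p t).2, rfl, rfl, fun t => rfl, fun t => rfl⟩

theorem dnx_win_eq {α : Type} (w : List α) (f : ℕ → α)
    (h : ∀ j, j < w.length → w[j]? = some (f j)) : w = win f 0 w.length := by
  apply List.ext_getElem?
  intro j
  by_cases hj : j < w.length
  · rw [h j hj, getElem?_win _ _ _ _ hj, Nat.zero_add]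
  · rw [List.getElem?_eq_none (by omega), List.getElem?_eq_none (by simp; omega)]

theorem dnx_blk {α : Type} (ψ : α → List α) (Q : List α) (u v : ℕ → List α) (U V : ℕ → α)
    (hv : ∀ t, v (t+1) = Q ++ app ψ (u t))
    (hU : ∀ t j, j < (u t).length → (u t)[j]? = some (U j))
    (hV : ∀ t j, j < (v t).length → (v t)[j]? = some (V j))
    (hl : ∀ n, ∃ t, n ≤ (u t).length) :
    (∀ j, j < Q.length → Q[j]? = some (V j)) ∧
    ∀ n j, j < (ψ (U n)).length →
      (ψ (U n))[j]? = some (V (Q.length + (app ψ (win U 0 n)).length + j)) := by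
  constructor
  · intro j hj
    have h1 := hV 1 j (by rw [hv 0, List.length_append]; omega)
    rw [hv 0, List.getElem?_append_left hj] at h1
    exact h1
  · intro n j hj
    obtain ⟨t, ht⟩ := hl (n+1)
    have h1 : u t = win U 0 n ++ (U n :: win U (n+1) ((u t).length - (n+1))) := by
      have e := dnx_win_eq (u t) U (hU t)
      have e2 : (u t).length = n + (1 + ((u t).length - (n+1))) := by omega
      have e3 : win U 0 (u t).length = win U 0 (n + (1 + ((u t).length - (n+1)))) := by
        rw [← e2]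
      rw [e3, win_add, win_add, Nat.zero_add] at e
      have e4 : win U n 1 = [U n] := by simp [win]
      rw [e4] at e
      exact e
    have h2 : v (t+1) = Q ++ (app ψ (win U 0 n) ++ (ψ (U n) ++
        app ψ (win U (n+1) ((u t).length - (n+1))))) := by
      rw [hv t]
      conv_lhs => rw [h1]
      rw [app_append, app_cons]
    have h3 := hV (t+1) (Q.length + (app ψ (win U 0 n)).length + j)
      (by rw [h2]; simp only [List.length_append]; omega)
    rw [h2, List.getElem?_append_right (by omega), List.getElem?_append_right (by omega),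
      List.getElem?_append_left (by omega)] at h3
    have e5 : Q.length + (app ψ (win U 0 n)).length + j - Q.length -
      (app ψ (win U 0 n)).length = j := by omega
    rw [e5] at h3
    exact h3

theorem dnx_rev {α : Type} (w : List α) (j : ℕ) (hj : j < w.length) :
    w[j]? = w.reverse[w.length - 1 - j]? := by
  rw [List.getElem?_reverse (by omega)]
  congr 1
  omega

theorem dnx_len {α : Type} {ρ : α → List α} (h2 : ∀ a, 2 ≤ (ρ a).length) (w : List α) :
    2 * w.length ≤ (app ρ w).length := by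
  induction w with
  | nil => simp
  | cons a w ih =>
    have := h2 a
    simp only [app_cons, List.length_append, List.length_cons]; omega

theorem dnx_pref {α : Type} (ψ : α → List α) {v w : List α} (h : v <+: w) :
    app ψ v <+: app ψ w := by
  obtain ⟨t, rfl⟩ := h
  exact ⟨app ψ t, by simp⟩

theorem dn_existT {α : Type} [Fintype α] {ρ : α → List α} {L : Set (List α)} (H : Sys ρ L)
    (hR : RC L) (h2 : ∀ a, 2 ≤ (ρ a).length) (a : α) (k : ℕ) (hk : (ρ a)[k]? = some a) :
    ∃ (x : ℤ → α) (c : ℤ → ℤ), BL L x ∧ Dn ρ x c ∧ x 0 = a ∧ c 1 = -(k : ℤ) := by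
  classical
  obtain ⟨hkl, hka⟩ := List.getElem?_eq_some_iff.mp hk
  obtain ⟨P, S', hPS, hPl⟩ : ∃ P S' : List α, ρ a = P ++ a :: S' ∧ P.length = k := by
    refine ⟨(ρ a).take k, (ρ a).drop (k+1), ?_, by rw [List.length_take]; omega⟩
    conv_lhs => rw [← List.take_append_drop k (ρ a)]
    rw [List.drop_eq_getElem_cons hkl, hka]
  have hlen : (ρ a).length = k + 1 + S'.length := by
    rw [hPS]; simp only [List.length_append, List.length_cons]; omega
  obtain ⟨m, r, hm0, hr0, hm, hr⟩ := dnx_seq ρ P S'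
  -- monotone
  have hpre : ∀ t, m t <+: m (t+1) ∧ r t <+: r (t+1) := by
    intro t
    induction t with
    | zero => rw [hm0, hr0]; exact ⟨List.nil_prefix, List.nil_prefix⟩
    | succ t ih =>
      constructor
      · rw [hm (t+1), hm t]
        exact (List.prefix_append_right_inj _).mpr (dnx_pref _ ih.2)
      · rw [hr (t+1), hr t]
        exact (List.prefix_append_right_inj _).mpr (dnx_pref _ ih.1)
  -- lengths
  have hlm : ∀ t, k + 2 * (r t).length ≤ (m (t+1)).length := by
    intro t
    rw [hm t, List.length_append, List.length_reverse, length_app_rv, hPl]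
    have := dnx_len h2 (r t)
    omega
  have hlr : ∀ t, S'.length + 2 * (m t).length ≤ (r (t+1)).length := by
    intro t
    rw [hr t, List.length_append]
    have := dnx_len h2 (m t)
    omega
  have hgr : ∀ n, n ≤ (m (2*n)).length ∧ n ≤ (r (2*n)).length := by
    intro n
    induction n with
    | zero => exact ⟨Nat.zero_le _, Nat.zero_le _⟩
    | succ n ih =>
      have e : 2 * (n+1) = 2*n+1+1 := by ring
      rw [e]
      have h1 := hlm (2*n)
      have h1' := hlm (2*n+1)
      have h3 := hlr (2*n)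
      have h3' := hlr (2*n+1)
      have h4 := h2 a
      omega
  -- membership
  have hW : ∀ t, (m t).reverse ++ (a :: r t) ∈ L := by
    intro t
    induction t with
    | zero => rw [hm0, hr0]; exact H.letter a
    | succ t ih =>
      have h5 := H.sub _ (hR _ ih)
      have e : app ρ ((m t).reverse ++ (a :: r t)).reverse =
          (m (t+1)).reverse ++ (a :: r (t+1)) := by
        rw [hm t, hr t, List.reverse_append, List.reverse_append, List.reverse_reverse,
          List.reverse_reverse, List.reverse_cons, app_append, app_append, app_singleton, hPS,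
          app_rv, List.reverse_reverse]
        simp only [List.append_assoc, List.cons_append]
      rw [← e]; exact h5
  obtain ⟨M, hM⟩ := dnx_lim a m (fun t => (hpre t).1)
  obtain ⟨R, hRR⟩ := dnx_lim a r (fun t => (hpre t).2)
  obtain ⟨hP1, hB1⟩ := dnx_blk (rv ρ) P.reverse r m R M hm hRR hM (fun n => ⟨2*n, (hgr n).2⟩)
  obtain ⟨hS1, hB2⟩ := dnx_blk ρ S' m r M R hr hM hRR (fun n => ⟨2*n, (hgr n).1⟩)
  let x : ℤ → α := fun i => match i with
    | Int.ofNat 0 => a
    | Int.ofNat (n+1) => R n
    | Int.negSucc n => M n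
  let c : ℤ → ℤ := fun i => match i with
    | Int.ofNat 0 => (S'.length : ℤ) + 1
    | Int.ofNat (n+1) => -(k:ℤ) - ((app ρ (win R 0 n)).length : ℤ)
    | Int.negSucc n => (S'.length : ℤ) + 1 + ((app ρ (win M 0 (n+1))).length : ℤ)
  have hx0 : x 0 = a := rfl
  have hxp : ∀ n : ℕ, x ((n:ℤ)+1) = R n := fun n => rfl
  have hxn : ∀ n : ℕ, x (-(n:ℤ)-1) = M n := by
    intro n
    have : (-(n:ℤ)-1) = Int.negSucc n := by rw [Int.negSucc_eq]; ring
    rw [this]
  have hc0 : c 0 = (S'.length : ℤ) + 1 := rfl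
  have hcp : ∀ n : ℕ, c ((n:ℤ)+1) = -(k:ℤ) - ((app ρ (win R 0 n)).length : ℤ) := fun n => rfl
  have hcn : ∀ n : ℕ, c (-(n:ℤ)) = (S'.length : ℤ) + 1 + ((app ρ (win M 0 n)).length : ℤ) := by
    intro n
    cases n with
    | zero => 
      have e : -((0:ℕ):ℤ) = 0 := by simp
      rw [e, hc0]
      simp [win]
    | succ n =>
      have : (-((n+1:ℕ):ℤ)) = Int.negSucc n := by rw [Int.negSucc_eq]; push_cast; ring
      rw [this]
  have hws : ∀ (f : ℕ → α) (n : ℕ), (app ρ (win f 0 (n+1))).length =
      (app ρ (win f 0 n)).length + (ρ (f n)).length := by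
    intro f n
    rw [win_add, app_append, List.length_append]
    have e4 : win f (0+n) 1 = [f n] := by simp [win]
    rw [e4, app_singleton]
  refine ⟨x, c, ?_, ⟨?_, ?_⟩, hx0, ?_⟩
  · -- BL
    intro i n
    obtain ⟨h6, h7⟩ := hgr (i.natAbs + n)
    set t := 2 * (i.natAbs + n) with ht
    have e1 : winz x (-((m t).length : ℤ)) (m t).length = (m t).reverse := by
      apply List.ext_getElem?
      intro j
      by_cases hj : j < (m t).length
      · rw [getElem?_winz _ _ _ _ hj, List.getElem?_reverse hj, hM t _ (by omega)]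
        have : (-((m t).length : ℤ) + (j:ℤ)) = -(((m t).length - 1 - j : ℕ) : ℤ) - 1 := by omega
        rw [this, hxn]
      · rw [List.getElem?_eq_none (by simp; omega), List.getElem?_eq_none (by simp; omega)]
    have e2 : winz x 0 1 = [a] := by simp [winz, hx0]
    have e3 : winz x 1 (r t).length = r t := by
      apply List.ext_getElem?
      intro j
      by_cases hj : j < (r t).length
      · rw [getElem?_winz _ _ _ _ hj, hRR t _ hj]
        have : (1 + (j:ℤ)) = (j:ℤ) + 1 := by ring
        rw [this, hxp]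
      · rw [List.getElem?_eq_none (by simp; omega), List.getElem?_eq_none (by omega)]
    have e4 : winz x (-((m t).length : ℤ)) ((m t).length + (1 + (r t).length)) ∈ L := by
      rw [winz_add, winz_add, e1]
      have e5 : (-((m t).length : ℤ) + ((m t).length : ℤ)) = 0 := by ring
      rw [e5, e2]
      have e6 : (0 + ((1:ℕ):ℤ)) = 1 := by norm_num
      rw [e6, e3]
      exact hW t
    refine H.fact _ _ ?_ e4
    obtain ⟨A, hA⟩ : ∃ A : ℕ, (A:ℤ) = i + (m t).length := ⟨(i + (m t).length).toNat, by omega⟩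
    obtain ⟨B, hB⟩ : ∃ B : ℕ, (m t).length + (1 + (r t).length) = A + (n + B) :=
      ⟨(m t).length + (1 + (r t).length) - A - n, by omega⟩
    rw [hB, winz_add, winz_add]
    have e7 : (-((m t).length : ℤ) + (A:ℤ)) = i := by rw [hA]; ring
    rw [e7]
    exact ⟨_, _, by rw [List.append_assoc]⟩
  · intro i
    rcases lt_trichotomy i 0 with hi | hi | hi
    · obtain ⟨n, rfl⟩ : ∃ n : ℕ, i = -((n+1:ℕ):ℤ) := ⟨(-i-1).toNat, by omega⟩
      have e1 : (-((n+1:ℕ):ℤ) + 1) = -(n:ℤ) := by push_cast; ring
      have e2 : (-((n+1:ℕ):ℤ)) = -(n:ℤ) - 1 := by push_cast; ring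
      rw [e1, hcn, hcn, hws, e2, hxn]
      push_cast; ring
    · subst hi
      have e1 : (0:ℤ) + 1 = ((0:ℕ):ℤ) + 1 := by norm_num
      rw [e1, hcp, hc0, hx0, hlen]
      simp [win]
      ring
    · obtain ⟨n, rfl⟩ : ∃ n : ℕ, i = (n:ℤ)+1 := ⟨(i-1).toNat, by omega⟩
      have e1 : ((n:ℤ)+1+1) = ((n+1:ℕ):ℤ) + 1 := by push_cast; ring
      rw [e1, hcp, hcp, hws, hxp]
      push_cast; ring
  · intro i q hq
    rcases lt_trichotomy i 0 with hi | hi | hi
    · obtain ⟨n, rfl⟩ : ∃ n : ℕ, i = -(n:ℤ) - 1 := ⟨(-i-1).toNat, by omega⟩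
      have e1 : (-(n:ℤ) - 1 + 1) = -(n:ℤ) := by ring
      rw [hxn] at hq ⊢
      rw [e1, hcn]
      have e2 : (S'.length : ℤ) + 1 + ((app ρ (win M 0 n)).length : ℤ) + (q:ℤ) =
        ((S'.length + (app ρ (win M 0 n)).length + q : ℕ) : ℤ) + 1 := by push_cast; ring
      rw [e2, hxp]
      exact hB2 n q hq
    · subst hi
      have e1 : (0:ℤ) + 1 = ((0:ℕ):ℤ) + 1 := by norm_num
      rw [e1, hcp, hx0]
      rw [hx0] at hq
      have e2 : ((app ρ (win R 0 0)).length : ℤ) = 0 := by simp [win]
      rw [e2]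
      rcases lt_trichotomy q k with h | h | h
      · have e3 : (-(k:ℤ) - 0 + (q:ℤ)) = -((k - 1 - q : ℕ):ℤ) - 1 := by omega
        rw [e3, hxn, ← hP1 _ (by rw [List.length_reverse]; omega), hPS,
          List.getElem?_append_left (by omega), dnx_rev P q (by omega), hPl]
      · subst h
        have e3 : (-(q:ℤ) - 0 + (q:ℤ)) = 0 := by ring
        rw [e3, hx0]; exact hk
      · have e3 : (-(k:ℤ) - 0 + (q:ℤ)) = ((q - k - 1 : ℕ):ℤ) + 1 := by omega
        rw [e3, hxp, ← hS1 _ (by omega), hPS, List.getElem?_append_right (by omega), hPl]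
        have e4 : q - k = (q - k - 1) + 1 := by omega
        rw [e4, List.getElem?_cons_succ]
        congr 1
    · obtain ⟨n, rfl⟩ : ∃ n : ℕ, i = (n:ℤ)+1 := ⟨(i-1).toNat, by omega⟩
      have e1 : ((n:ℤ)+1+1) = ((n+1:ℕ):ℤ) + 1 := by push_cast; ring
      rw [hxp] at hq ⊢
      rw [e1, hcp, hws]
      have e2 : (-(k:ℤ) - (((app ρ (win R 0 n)).length + (ρ (R n)).length : ℕ) : ℤ) + (q:ℤ)) =
        -((k + (app ρ (win R 0 n)).length + ((ρ (R n)).length - 1 - q) : ℕ) : ℤ) - 1 := by
        omega
      rw [e2, hxn]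
      have h8 := hB1 n ((ρ (R n)).length - 1 - q) (by show _ < ((ρ (R n)).reverse).length; rw [List.length_reverse]; omega)
      rw [length_app_rv, List.length_reverse, hPl] at h8
      rw [← h8, dnx_rev _ q hq]
      rfl
  · have e1 : (1:ℤ) = ((0:ℕ):ℤ) + 1 := by norm_num
    rw [e1, hcp]
    simp [win]

end Pool.H868.Pal
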