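import Pool.Agent.Helper868.Pal.Defs

set_option autoImplicit false

namespace Pool.H868.Pal



section dvaux
variable {α : Type}

/-- the prefixes of the two halves -/
def dvPQ (ρ : α → List α) (l r : α) : ℕ → List α × List α
  | 0 => ([r], [l])
  | t + 1 => (app ρ (dvPQ ρ l r t).2, app (rv ρ) (dvPQ ρ l r t).1)

theorem dv_app_prefix (φ : α → List α) {v w : List α} (h : v <+: w) : app φ v <+: app φ w := by
  obtain ⟨s, rfl⟩ := h
  exact ⟨app φ s, by simp⟩

theorem dv_len2 (φ : α → List α) (h : ∀ a, 2 ≤ (φ a).length) (w : List α) :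
    2 * w.length ≤ (app φ w).length := by
  induction w with
  | nil => simp
  | cons a w ih =>
    have := h a
    simp
    omega

theorem dv_chain (P : ℕ → List α) (h : ∀ t, P t <+: P (t + 1)) {s t : ℕ} (hst : s ≤ t) :
    P s <+: P t := by
  induction hst with
  | refl => exact List.prefix_refl _
  | step _ ih => exact ih.trans (h _)

theorem dv_limit (P : ℕ → List α) (h : ∀ t, P t <+: P (t + 1)) (hl : ∀ t, t < (P t).length) :
    ∃ R : ℕ → α, ∀ t i, i < (P t).length → (P t)[i]? = some (R i) := by
  refine ⟨fun i => (P i)[i]'(hl i), fun t i hi => ?_⟩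
  rcases le_total i t with hit | hit
  · obtain ⟨s, hs⟩ := dv_chain P h hit
    rw [← hs, List.getElem?_append_left (hl i)]
    exact List.getElem?_eq_getElem (hl i)
  · obtain ⟨s, hs⟩ := dv_chain P h hit
    have h1 : (P i)[i]? = some ((P i)[i]'(hl i)) := List.getElem?_eq_getElem (hl i)
    rw [← h1]
    conv_rhs => rw [← hs]
    rw [List.getElem?_append_left hi]

theorem dv_win (R : ℕ → α) (w : List α) (h : ∀ i, i < w.length → w[i]? = some (R i)) (n : ℕ)
    (hn : n ≤ w.length) : win R 0 n <+: w := by
  have h1 : win R 0 n = w.take n := by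
    apply List.ext_getElem?
    intro i
    by_cases hi : i < n
    · rw [getElem?_win _ _ _ _ hi, List.getElem?_take_of_lt hi, h i (by omega), Nat.zero_add]
    · rw [List.getElem?_eq_none (by simpa using hi), List.getElem?_eq_none]
      rw [List.length_take]
      omega
  rw [h1]
  exact List.take_prefix _ _

theorem dv_winz_infix (x : ℤ → α) (a i : ℤ) (m n : ℕ) (h1 : a ≤ i) (h2 : i + n ≤ a + m) :
    winz x i n <:+: winz x a m := by
  obtain ⟨u, hu⟩ := Int.le.dest h1
  obtain ⟨v, hv⟩ := Int.le.dest h2
  have hm : m = u + n + v := by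
    zify
    linarith
  refine ⟨winz x a u, winz x (a + ((u + n : ℕ) : ℤ)) v, ?_⟩
  rw [hm, winz_add, winz_add, hu]

end dvaux

theorem dn_existV {α : Type} [Fintype α] {ρ : α → List α} {L : Set (List α)} (H : Sys ρ L)
    (hR : RC L) (h2 : ∀ a, 2 ≤ (ρ a).length) (l r : α) (hlr : [l, r] ∈ L)
    (hl : (ρ l).head? = some r) (hr : (ρ r).getLast? = some l) :
    ∃ (x : ℤ → α) (c : ℤ → ℤ), BL L x ∧ Dn ρ x c ∧ c 0 = 0 ∧ x (-1) = l := by
  have h2r : ∀ a, 2 ≤ (rv ρ a).length := by
    intro a
    unfold rv
    rw [List.length_reverse]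
    exact h2 a
  have hP : ∀ t, (dvPQ ρ l r t).1 <+: (dvPQ ρ l r (t + 1)).1 ∧
      (dvPQ ρ l r t).2 <+: (dvPQ ρ l r (t + 1)).2 := by
    intro t
    induction t with
    | zero =>
      constructor
      · change [r] <+: app ρ [l]
        rw [app_singleton]
        rcases hρ : ρ l with _ | ⟨a, w⟩
        · rw [hρ] at hl; simp at hl
        · rw [hρ] at hl
          simp only [List.head?_cons, Option.some.injEq] at hl
          subst hl
          exact ⟨w, rfl⟩
      · change [l] <+: app (rv ρ) [r]
        rw [app_singleton]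
        unfold rv
        have h1 : (ρ r).reverse.head? = some l := by rw [List.head?_reverse]; exact hr
        rcases hρ : (ρ r).reverse with _ | ⟨a, w⟩
        · rw [hρ] at h1; simp at h1
        · rw [hρ] at h1
          simp only [List.head?_cons, Option.some.injEq] at h1
          subst h1
          exact ⟨w, rfl⟩
    | succ t ih =>
      exact ⟨dv_app_prefix ρ ih.2, dv_app_prefix (rv ρ) ih.1⟩
  have hlen : ∀ t, t < (dvPQ ρ l r t).1.length ∧ t < (dvPQ ρ l r t).2.length := by
    intro t
    induction t with
    | zero => exact ⟨Nat.one_pos, Nat.one_pos⟩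
    | succ t ih =>
      have e1 := dv_len2 ρ h2 (dvPQ ρ l r t).2
      have e2 := dv_len2 (rv ρ) h2r (dvPQ ρ l r t).1
      constructor
      · change t + 1 < (app ρ (dvPQ ρ l r t).2).length
        omega
      · change t + 1 < (app (rv ρ) (dvPQ ρ l r t).1).length
        omega
  obtain ⟨R, hRt⟩ := dv_limit (fun t => (dvPQ ρ l r t).1) (fun t => (hP t).1) (fun t => (hlen t).1)
  obtain ⟨Q, hQt⟩ := dv_limit (fun t => (dvPQ ρ l r t).2) (fun t => (hP t).2) (fun t => (hlen t).2)

  have hWt : ∀ t, (dvPQ ρ l r t).2.reverse ++ (dvPQ ρ l r t).1 ∈ L := by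
    intro t
    induction t with
    | zero => exact hlr
    | succ t ih =>
      have e1 := H.sub _ (hR _ ih)
      rw [List.reverse_append, List.reverse_reverse, app_append] at e1
      change (app (rv ρ) (dvPQ ρ l r t).1).reverse ++ app ρ (dvPQ ρ l r t).2 ∈ L
      rw [app_rv, List.reverse_reverse]
      exact e1
  -- the bi-infinite word
  let x : ℤ → α := fun i => match i with
    | Int.ofNat n => R n
    | Int.negSucc n => Q n
  have hx1 : ∀ n : ℕ, x (n : ℤ) = R n := fun n => rfl
  have hx2 : ∀ n : ℕ, x (-(n : ℤ) - 1) = Q n := by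
    intro n
    have : -(n : ℤ) - 1 = Int.negSucc n := by
      rw [Int.negSucc_eq]; ring
    rw [this]
  let c : ℤ → ℤ := fun i => match i with
    | Int.ofNat n => -((app ρ (win R 0 n)).length : ℤ)
    | Int.negSucc n => ((app ρ (win Q 0 (n + 1))).length : ℤ)
  have hc1 : ∀ n : ℕ, c (n : ℤ) = -((app ρ (win R 0 n)).length : ℤ) := fun n => rfl
  have hc2 : ∀ n : ℕ, c (-(n : ℤ)) = ((app ρ (win Q 0 n)).length : ℤ) := by
    intro n
    rcases n with _ | n
    · change -((app ρ (win R 0 0)).length : ℤ) = _
      simp [win]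
    · have : -((n + 1 : ℕ) : ℤ) = Int.negSucc n := rfl
      rw [this]
  have hwR : ∀ n, win R 0 (n + 1) = win R 0 n ++ [R n] := by
    intro n
    rw [win_add]
    simp [win]
  have hwQ : ∀ n, win Q 0 (n + 1) = win Q 0 n ++ [Q n] := by
    intro n
    rw [win_add]
    simp [win]
  refine ⟨x, c, ?_, ⟨?_, ?_⟩, ?_, ?_⟩
  · -- all windows belong to `L`
    intro i n
    set t := i.natAbs + n with ht
    have hW := hWt t
    have hl1 := (hlen t).1
    have hl2 := (hlen t).2
    have hw : winz x (-((dvPQ ρ l r t).2.length : ℤ))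
        ((dvPQ ρ l r t).2.length + (dvPQ ρ l r t).1.length)
        = (dvPQ ρ l r t).2.reverse ++ (dvPQ ρ l r t).1 := by
      rw [winz_add]
      congr 1
      · apply List.ext_getElem?
        intro k
        by_cases hk : k < (dvPQ ρ l r t).2.length
        · rw [getElem?_winz _ _ _ _ hk, List.getElem?_reverse hk, hQt t _ (by omega)]
          congr 1
          have : -((dvPQ ρ l r t).2.length : ℤ) + (k : ℤ)
              = -(((dvPQ ρ l r t).2.length - 1 - k : ℕ) : ℤ) - 1 := by
            omega
          rw [this, hx2]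
        · rw [List.getElem?_eq_none (by simpa using hk), List.getElem?_eq_none (by simpa using hk)]
      · apply List.ext_getElem?
        intro k
        by_cases hk : k < (dvPQ ρ l r t).1.length
        · rw [getElem?_winz _ _ _ _ hk, hRt t _ hk]
          congr 1
          have : -((dvPQ ρ l r t).2.length : ℤ) + ((dvPQ ρ l r t).2.length : ℤ) + (k : ℤ)
              = (k : ℤ) := by ring
          rw [this, hx1]
        · rw [List.getElem?_eq_none (by simpa using hk), List.getElem?_eq_none (by simpa using hk)]
    apply H.fact _ _ _ hW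
    rw [← hw]
    apply dv_winz_infix
    · omega
    · push_cast
      omega
  · -- cut positions
    intro i
    rcases i with n | n
    · change c ((n + 1 : ℕ) : ℤ) = c (n : ℤ) - ((ρ (x (n : ℤ))).length : ℤ)
      rw [hc1, hc1, hx1, hwR, app_append, app_singleton, List.length_append]
      push_cast
      ring
    · have e1 : Int.negSucc n + 1 = -(n : ℤ) := by rw [Int.negSucc_eq]; ring
      have e2 : Int.negSucc n = -((n + 1 : ℕ) : ℤ) := rfl
      have e3 : x (Int.negSucc n) = Q n := rfl
      rw [e1, e3, hc2, e2, hc2, hwQ, app_append, app_singleton, List.length_append]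
      push_cast
      ring
  · intro i k hk
    rcases i with n | n
    · have e3 : x (Int.ofNat n) = R n := rfl
      rw [e3] at hk ⊢
      have e1 : c (Int.ofNat n + 1) = -((app ρ (win R 0 (n + 1))).length : ℤ) := rfl
      rw [e1, hwR, app_append, app_singleton, List.length_append]
      set A := (app ρ (win R 0 n)).length with hA
      set m := (ρ (R n)).length with hm
      have e4 : -((A + m : ℕ) : ℤ) + (k : ℤ) = -((A + (m - 1 - k) : ℕ) : ℤ) - 1 := by
        omega
      rw [e4, hx2]
      obtain ⟨s, hs⟩ := dv_win R (dvPQ ρ l r (n + 1)).1 (hRt (n + 1)) (n + 1)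
        ((hlen (n + 1)).1).le
      have e5 : (dvPQ ρ l r (n + 2)).2 = app (rv ρ) (win R 0 n) ++ ((ρ (R n)).reverse ++
          app (rv ρ) s) := by
        change app (rv ρ) (dvPQ ρ l r (n + 1)).1 = _
        rw [← hs, hwR, app_append, app_append, app_singleton, List.append_assoc]
        rfl
      have e6 : (app (rv ρ) (win R 0 n)).length = A := length_app_rv _ _
      have e7 := hQt (n + 2) (A + (m - 1 - k)) (by
        rw [e5, List.length_append, List.length_append, e6, List.length_reverse]
        omega)
      rw [← e7, e5, List.getElem?_append_right (by omega), e6,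
        List.getElem?_append_left (by rw [List.length_reverse]; omega),
        List.getElem?_reverse (by omega)]
      congr 1
      omega
    · have e3 : x (Int.negSucc n) = Q n := rfl
      rw [e3] at hk ⊢
      have e1 : Int.negSucc n + 1 = -(n : ℤ) := by rw [Int.negSucc_eq]; ring
      rw [e1, hc2]
      set A := (app ρ (win Q 0 n)).length with hA
      have e4 : (A : ℤ) + (k : ℤ) = ((A + k : ℕ) : ℤ) := by push_cast; ring
      rw [e4, hx1]
      obtain ⟨s, hs⟩ := dv_win Q (dvPQ ρ l r (n + 1)).2 (hQt (n + 1)) (n + 1)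
        ((hlen (n + 1)).2).le
      have e5 : (dvPQ ρ l r (n + 2)).1 = app ρ (win Q 0 n) ++ (ρ (Q n) ++ app ρ s) := by
        change app ρ (dvPQ ρ l r (n + 1)).2 = _
        rw [← hs, hwQ, app_append, app_append, app_singleton, List.append_assoc]
      have e7 := hRt (n + 2) (A + k) (by
        rw [e5, List.length_append, List.length_append]
        omega)
      rw [← e7, e5, List.getElem?_append_right (by omega),
        List.getElem?_append_left (by omega)]
      congr 1
      omega
  · have := hc1 0
    simpa [win] using this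
  · have h1 : x (-1) = Q 0 := rfl
    have h3 := hQt 0 0 (hlen 0).2
    rw [h1]
    have h4 : some (Q 0) = some l := by rw [← h3]; rfl
    simpa using h4

end Pool.H868.Pal
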