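import Pool.Agent.Helper868.Pal.Defs

set_option autoImplicit false

namespace Pool.H868.Pal



theorem dn_fixed {α : Type} {ρ : α → List α} (ne : ∀ a, ρ a ≠ []) {x : ℤ → α} {c : ℤ → ℤ}
    (h : Dn ρ x c) : ∃! i : ℤ, c i = i ∨ (c (i + 1) ≤ i ∧ i < c i) := by
  have hstep : ∀ i : ℤ, c (i + 1) ≤ c i - 1 := by
    intro i
    have h1 := h.1 i
    have h2 : 1 ≤ (ρ (x i)).length := List.length_pos_iff.mpr (ne _)
    omega
  have hmono : ∀ (m : ℕ) (i : ℤ), c (i + m) ≤ c i - m := by
    intro m
    induction m with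
    | zero => intro i; simp
    | succ m ih =>
      intro i
      have h1 := ih i
      have h2 := hstep (i + m)
      have h3 : i + ((m + 1 : ℕ) : ℤ) = i + m + 1 := by push_cast; ring
      rw [h3]
      push_cast
      omega
  have hmono' : ∀ i j : ℤ, i ≤ j → c j ≤ c i - (j - i) := by
    intro i j hij
    have h1 := hmono (j - i).toNat i
    have h2 : ((j - i).toNat : ℤ) = j - i := Int.toNat_of_nonneg (by omega)
    rw [h2] at h1
    have h3 : i + (j - i) = j := by ring
    rw [h3] at h1
    exact h1
  obtain ⟨i, hi, hmax⟩ := Int.exists_greatest_of_bdd (P := fun i => i ≤ c i)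
    ⟨|c 0|, fun z hz => by
      by_contra hcon
      have h1 := abs_nonneg (c 0)
      have h2 := le_abs_self (c 0)
      have h3 := hmono' 0 z (by omega)
      omega⟩
    ⟨-|c 0|, by
      have h1 := abs_nonneg (c 0)
      have h2 := neg_abs_le (c 0)
      have h3 := hmono' (-|c 0|) 0 (by omega)
      show -|c 0| ≤ c (-|c 0|)
      omega⟩
  have hlt : c (i + 1) < i + 1 := by
    by_contra hcon
    have := hmax (i + 1) (not_lt.mp hcon)
    omega
  refine ⟨i, ?_, ?_⟩
  · rcases eq_or_lt_of_le hi with h1 | h1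
    · exact Or.inl h1.symm
    · exact Or.inr ⟨by omega, h1⟩
  · intro j hj
    have h1 : j ≤ c j ∧ c (j + 1) ≤ j := by
      rcases hj with h1 | h1
      · have := hstep j
        omega
      · omega
    have h2 : j ≤ i := hmax j h1.1
    rcases eq_or_lt_of_le h2 with h3 | h3
    · exact h3
    · exfalso
      have h4 := hmono' (j + 1) i (by omega)
      have hi' : i ≤ c i := hi
      omega

end Pool.H868.Pal
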