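import Pool.Agent.Helper868.Pal.Defs

set_option autoImplicit false

namespace Pool.H868.Pal



theorem dn_iff {α : Type} {ρ : α → List α} (x : ℤ → α) :
    IsIm ρ (rvz x) x ↔ ∃ c, Dn ρ x c := by
  constructor
  · rintro ⟨c0, h1, h2⟩
    refine ⟨fun i => c0 (1 - i), ?_, ?_⟩
    · intro i
      have h := h1 (-i)
      simp only [rvz, neg_neg] at h
      have e1 : (1 : ℤ) - (i + 1) = -i := by ring
      have e2 : (1 : ℤ) - i = -i + 1 := by ring
      simp only [e1, e2]
      rw [h]
      ring
    · intro i k hk
      have h := h2 (-i) k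
      simp only [rvz, neg_neg] at h
      have e1 : (1 : ℤ) - (i + 1) = -i := by ring
      simp only [e1]
      exact h hk
  · rintro ⟨c, h1, h2⟩
    refine ⟨fun i => c (1 - i), ?_, ?_⟩
    · intro i
      have h := h1 (-i)
      have e1 : (1 : ℤ) - (i + 1) = -i := by ring
      have e2 : (1 : ℤ) - i = -i + 1 := by ring
      simp only [rvz, e1, e2]
      rw [h]
      ring
    · intro i k hk
      have h := h2 (-i) k
      have e2 : (1 : ℤ) - i = -i + 1 := by ring
      simp only [rvz] at hk
      simp only [rvz, e2]
      exact h hk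

end Pool.H868.Pal
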