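import Pool.Agent.Helper868.Pal.Defs

set_option autoImplicit false

namespace Pool.H868.Pal



theorem dn_shift {α : Type} {ρ : α → List α} {x : ℤ → α} {c : ℤ → ℤ} (h : Dn ρ x c) (m : ℤ) :
    Dn ρ (fun i => x (i + m)) (fun i => c (i + m) - m) := by
  obtain ⟨h1, h2⟩ := h
  constructor
  · intro i
    have e : i + 1 + m = i + m + 1 := by ring
    show c (i + 1 + m) - m = c (i + m) - m - ((ρ (x (i + m))).length : ℤ)
    rw [e, h1 (i + m)]; ring
  · intro i k hk
    have e : i + 1 + m = i + m + 1 := by ring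
    show (ρ (x (i + m)))[k]? = some (x (c (i + 1 + m) - m + (k : ℤ) + m))
    rw [h2 (i + m) k hk, e]
    congr 2; ring

end Pool.H868.Pal
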