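import Pool.Agent.Helper868.Pal.Defs

set_option autoImplicit false

namespace Pool.H868.Pal



theorem dn_uniqT {α : Type} {ρ : α → List α} (h2 : ∀ a, 2 ≤ (ρ a).length) {x x' : ℤ → α}
    {c c' : ℤ → ℤ} (h : Dn ρ x c) (h' : Dn ρ x' c') (h0 : c 1 ≤ 0) (h1 : 0 < c 0)
    (hx : x 0 = x' 0) (hc : c 1 = c' 1) : x = x' := by
  have st : ∀ i, c (i + 1) = c i - ((ρ (x i)).length : ℤ) := h.1
  have st' : ∀ i, c' (i + 1) = c' i - ((ρ (x' i)).length : ℤ) := h'.1
  have hup : ∀ q : ℕ, (∀ i : ℤ, 0 ≤ i → i ≤ q → x i = x' i) → c ((q : ℤ) + 1) = c' ((q : ℤ) + 1) := by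
    intro q
    induction q with
    | zero => intro _; simpa using hc
    | succ q ih =>
      intro H
      have e1 := ih (fun i hi hi' => H i hi (by push_cast; omega))
      have e2 := H ((q : ℤ) + 1) (by omega) (by push_cast; omega)
      push_cast
      rw [st, st', e1, e2]
  have hc0 : c 0 = c' 0 := by
    have a1 := st 0
    have a2 := st' 0
    rw [zero_add] at a1 a2
    rw [hx] at a1
    omega
  have hdown : ∀ p : ℕ, (∀ i : ℤ, -(p : ℤ) ≤ i → i ≤ 0 → x i = x' i) →
      c (-(p : ℤ)) = c' (-(p : ℤ)) := by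
    intro p
    induction p with
    | zero => intro _; simpa using hc0
    | succ p ih =>
      intro H
      have e1 := ih (fun i hi hi' => H i (by push_cast; omega) hi')
      have e2 := H (-((p : ℤ) + 1)) (by push_cast; omega) (by omega)
      have a1 := st (-((p : ℤ) + 1))
      have a2 := st' (-((p : ℤ) + 1))
      have e3 : -((p : ℤ) + 1) + 1 = -(p : ℤ) := by ring
      rw [e3] at a1 a2
      rw [e2] at a1
      push_cast
      omega
  have bup : ∀ q : ℕ, c ((q : ℤ) + 1) ≤ c 1 - 2 * q := by
    intro q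
    induction q with
    | zero => simp
    | succ q ih =>
      push_cast
      rw [st]
      have := h2 (x ((q : ℤ) + 1))
      omega
  have bdown : ∀ p : ℕ, c 0 + 2 * p ≤ c (-(p : ℤ)) := by
    intro p
    induction p with
    | zero => simp
    | succ p ih =>
      have a1 := st (-((p : ℤ) + 1))
      have e3 : -((p : ℤ) + 1) + 1 = -(p : ℤ) := by ring
      rw [e3] at a1
      have := h2 (x (-((p : ℤ) + 1)))
      push_cast
      omega
  have cov : ∀ (n : ℕ) (m : ℤ), (∀ i, m ≤ i → i < m + n → x i = x' i) →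
      (∀ i, m ≤ i → i ≤ m + n → c i = c' i) → ∀ j, c (m + n) ≤ j → j < c m → x j = x' j := by
    intro n
    induction n with
    | zero => intro m _ _ j h3 h4; simp at h3; omega
    | succ n ih =>
      intro m H H' j h3 h4
      by_cases hj : c (m + n) ≤ j
      · exact ih m (fun i hi hi' => H i hi (by push_cast; omega))
          (fun i hi hi' => H' i hi (by push_cast; omega)) j hj h4
      · have e0 : m + ((n + 1 : ℕ) : ℤ) = (m + n) + 1 := by push_cast; ring
        rw [e0] at h3
        have ex := H (m + n) (by omega) (by push_cast; omega)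
        have ec := H' (m + n + 1) (by omega) (by push_cast; omega)
        have a1 := st (m + n)
        obtain ⟨k, hk⟩ := Int.eq_ofNat_of_zero_le (show 0 ≤ j - c (m + n + 1) by omega)
        have hk1 : k < (ρ (x (m + n))).length := by omega
        have b1 := h.2 (m + n) k hk1
        have b2 := h'.2 (m + n) k (by rw [← ex]; exact hk1)
        rw [← ex, b1, ← ec] at b2
        have e5 : c (m + n + 1) + (k : ℤ) = j := by omega
        rw [e5] at b2
        exact Option.some.inj b2
  have step : ∀ p q : ℕ, (∀ i : ℤ, -(p : ℤ) ≤ i → i ≤ q → x i = x' i) →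
      ∀ i : ℤ, -(2 * q - c 1) ≤ i → i ≤ 2 * p + (c 0 - 1) → x i = x' i := by
    intro p q H i hi hi'
    have e0 : -(p : ℤ) + ((p + q + 1 : ℕ) : ℤ) = (q : ℤ) + 1 := by push_cast; ring
    refine cov (p + q + 1) (-(p : ℤ)) (fun i hi hi' => H i hi (by omega)) ?_ i ?_ ?_
    · intro i hi hi'
      rcases le_or_gt i 0 with h5 | h5
      · obtain ⟨k, hk⟩ := Int.eq_ofNat_of_zero_le (show 0 ≤ -i by omega)
        have : i = -(k : ℤ) := by omega
        rw [this]
        exact hdown k (fun i hi hi' => H i (by omega) (by omega))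
      · obtain ⟨k, hk⟩ := Int.eq_ofNat_of_zero_le (show 0 ≤ i - 1 by omega)
        have : i = (k : ℤ) + 1 := by omega
        rw [this]
        exact hup k (fun i hi hi' => H i (by omega) (by omega))
    · rw [e0]
      have := bup q
      omega
    · have := bdown p
      omega
  have hl0 := h2 (x 0)
  have s0 := st 0
  rw [zero_add] at s0
  have all : ∀ n : ℕ, ∀ i : ℤ, -(n : ℤ) ≤ i → i ≤ n → x i = x' i := by
    intro n
    induction n with
    | zero =>
      intro i hi hi'
      have : i = 0 := by push_cast at hi hi'; omega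
      rw [this]; exact hx
    | succ n ih =>
      have s1 := step n n ih
      obtain ⟨p, hp⟩ := Int.eq_ofNat_of_zero_le (show 0 ≤ 2 * (n : ℤ) - c 1 by omega)
      obtain ⟨q, hq⟩ := Int.eq_ofNat_of_zero_le (show 0 ≤ 2 * (n : ℤ) + (c 0 - 1) by omega)
      have s2 := step p q (fun i hi hi' => s1 i (by omega) (by omega))
      intro i hi hi'
      exact s2 i (by push_cast at hi; omega) (by push_cast at hi'; omega)
  funext i
  exact all i.natAbs i (by omega) (by omega)

end Pool.H868.Pal
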