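import Pool.Agent.Helper868.Pal.Defs

set_option autoImplicit false

namespace Pool.H868.Pal



theorem dn_ivt (f : ℤ → ℤ) (a j : ℤ) (m : ℕ) (h1 : j < f a) (h2 : f (a + m) ≤ j) :
    ∃ i, a ≤ i ∧ i < a + m ∧ j < f i ∧ f (i + 1) ≤ j := by
  induction m with
  | zero =>
    simp at h2
    omega
  | succ m ih =>
    by_cases h3 : f (a + m) ≤ j
    · obtain ⟨i, hi1, hi2, hi3, hi4⟩ := ih h3
      exact ⟨i, hi1, by push_cast; omega, hi3, hi4⟩
    · push Not at h3
      refine ⟨a + m, by omega, by push_cast; omega, h3, ?_⟩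
      push_cast at h2
      rw [add_assoc]
      exact h2

theorem dn_up {α : Type} {ρ : α → List α} (h2 : ∀ a, 2 ≤ (ρ a).length) {x : ℤ → α}
    {c : ℤ → ℤ} (h : Dn ρ x c) (h0 : c 0 = 0) (n : ℕ) :
    c n ≤ -2 * n ∧ 2 * (n : ℤ) ≤ c (-n) := by
  induction n with
  | zero => simp [h0]
  | succ n ih =>
    obtain ⟨i1, i2⟩ := ih
    constructor
    · have e := h.1 (n : ℤ)
      have e2 := h2 (x n)
      push_cast
      rw [e]
      omega
    · have e := h.1 (-((n : ℤ) + 1))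
      have e2 := h2 (x (-((n : ℤ) + 1)))
      rw [show -((n : ℤ) + 1) + 1 = -(n : ℤ) by ring] at e
      push_cast
      omega

theorem dn_agc {α : Type} {ρ : α → List α} {x x' : ℤ → α}
    {c c' : ℤ → ℤ} (h : Dn ρ x c) (h' : Dn ρ x' c') (h0 : c 0 = 0) (h1 : c' 0 = 0) (n : ℕ)
    (hag : ∀ i : ℤ, -(n : ℤ) ≤ i → i < n → x i = x' i) (m : ℕ) (hm : m ≤ n) :
    c m = c' m ∧ c (-m) = c' (-m) := by
  induction m with
  | zero => simp [h0, h1]
  | succ m ih =>
    obtain ⟨i1, i2⟩ := ih (by omega)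
    constructor
    · push_cast
      rw [h.1, h'.1, i1, hag m (by omega) (by omega)]
    · have e := h.1 (-((m : ℤ) + 1))
      have e' := h'.1 (-((m : ℤ) + 1))
      rw [show -((m : ℤ) + 1) + 1 = -(m : ℤ) by ring] at e e'
      rw [hag (-((m : ℤ) + 1)) (by omega) (by omega)] at e
      push_cast
      omega

theorem dn_agc' {α : Type} {ρ : α → List α} {x x' : ℤ → α}
    {c c' : ℤ → ℤ} (h : Dn ρ x c) (h' : Dn ρ x' c') (h0 : c 0 = 0) (h1 : c' 0 = 0) (n : ℕ)
    (hag : ∀ i : ℤ, -(n : ℤ) ≤ i → i < n → x i = x' i) (i : ℤ) (hi1 : -(n : ℤ) ≤ i)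
    (hi2 : i ≤ n) : c i = c' i := by
  rcases le_or_gt 0 i with hi | hi
  · obtain ⟨m, rfl⟩ := Int.eq_ofNat_of_zero_le hi
    exact (dn_agc h h' h0 h1 n hag m (by omega)).1
  · obtain ⟨m, hm⟩ := Int.eq_ofNat_of_zero_le (show 0 ≤ -i by omega)
    have : i = -(m : ℤ) := by omega
    rw [this]
    exact (dn_agc h h' h0 h1 n hag m (by omega)).2

theorem dn_uniqV {α : Type} {ρ : α → List α} (h2 : ∀ a, 2 ≤ (ρ a).length) {x x' : ℤ → α}
    {c c' : ℤ → ℤ} (h : Dn ρ x c) (h' : Dn ρ x' c') (h0 : c 0 = 0) (h1 : c' 0 = 0)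
    (hx : x (-1) = x' (-1)) : x = x' := by
  have hx0 : x 0 = x' 0 := by
    have e := h.2 (-1) 0 (by have := h2 (x (-1)); omega)
    have e' := h'.2 (-1) 0 (by have := h2 (x' (-1)); omega)
    rw [show (-1 : ℤ) + 1 = 0 by norm_num, h0] at e
    rw [show (-1 : ℤ) + 1 = 0 by norm_num, h1] at e'
    rw [hx, e'] at e
    simpa using e.symm
  have key : ∀ n : ℕ, ∀ i : ℤ, -((n : ℤ) + 1) ≤ i → i < (n : ℤ) + 1 → x i = x' i := by
    intro n
    induction n with
    | zero =>
      intro i hi1 hi2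
      have : i = -1 ∨ i = 0 := by
        simp at hi1 hi2
        omega
      rcases this with rfl | rfl
      · exact hx
      · exact hx0
    | succ n ih =>
      intro j hj1 hj2
      have hag : ∀ i : ℤ, -((n + 1 : ℕ) : ℤ) ≤ i → i < ((n + 1 : ℕ) : ℤ) → x i = x' i := by
        intro i hi1 hi2
        push_cast at hi1 hi2
        exact ih i hi1 hi2
      obtain ⟨b1, b2⟩ := dn_up h2 h h0 (n + 1)
      push_cast at hj1 hj2 b1 b2
      obtain ⟨i, hi1, hi2, hi3, hi4⟩ := dn_ivt c (-((n : ℤ) + 1)) j (2 * (n + 1)) (by omega) (by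
        push_cast
        rw [show -((n : ℤ) + 1) + 2 * ((n : ℤ) + 1) = (n : ℤ) + 1 by ring]
        omega)
      push_cast at hi2
      have ec := h.1 i
      have ecc := dn_agc' h h' h0 h1 (n + 1) hag (i + 1) (by push_cast; omega) (by push_cast; omega)
      have hk : ((j - c (i + 1)).toNat : ℤ) = j - c (i + 1) := Int.toNat_of_nonneg (by omega)
      have hklt : (j - c (i + 1)).toNat < (ρ (x i)).length := by omega
      have hxi : x i = x' i := hag i (by push_cast; omega) (by push_cast; omega)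
      have f1 := h.2 i _ hklt
      have f2 := h'.2 i (j - c (i + 1)).toNat (by rw [← hxi]; exact hklt)
      rw [hk, show c (i + 1) + (j - c (i + 1)) = j by ring] at f1
      rw [hk, ← ecc, show c (i + 1) + (j - c (i + 1)) = j by ring, ← hxi, f1] at f2
      exact Option.some.inj f2
  funext i
  apply key i.natAbs i
  · omega
  · omega

end Pool.H868.Pal
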