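import Pool.Agent.Helper868.Pal.Defs

set_option autoImplicit false

namespace Pool.H868.Pal



theorem dn_dec {α : Type} {ρ : α → List α} (ne : ∀ a, ρ a ≠ []) {x : ℤ → α} {c : ℤ → ℤ}
    (h : Dn ρ x c) (i : ℤ) (n : ℕ) : c (i + n) ≤ c i - n := by
  induction n with
  | zero => simp
  | succ n ih =>
    have h1 := h.1 (i + n)
    have h2 : 1 ≤ (ρ (x (i + n))).length := List.length_pos_iff.mpr (ne _)
    have h3 : i + ((n + 1 : ℕ) : ℤ) = i + n + 1 := by push_cast; ring
    rw [h3, h1]
    push_cast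
    omega

theorem dn_cover {α : Type} {ρ : α → List α} (ne : ∀ a, ρ a ≠ []) {x : ℤ → α} {c : ℤ → ℤ}
    (h : Dn ρ x c) (p : ℤ) : ∃ i, c (i + 1) ≤ p ∧ p < c i := by
  obtain ⟨i, hi, hmax⟩ := Int.exists_greatest_of_bdd (P := fun i => p < c i)
    ⟨max 0 (c 0 - p), by
      intro z hz
      rcases le_total z 0 with h0 | h0
      · exact le_max_of_le_left h0
      · have := dn_dec ne h 0 z.toNat
        rw [Int.toNat_of_nonneg h0, zero_add] at this
        have hz' : p < c z := hz
        exact le_max_of_le_right (by omega)⟩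
    ⟨-((p - c 0 + 1).toNat : ℤ), by
      have := dn_dec ne h (-((p - c 0 + 1).toNat : ℤ)) (p - c 0 + 1).toNat
      rw [neg_add_cancel] at this
      show p < c (-((p - c 0 + 1).toNat : ℤ))
      have h2 : p - c 0 + 1 ≤ ((p - c 0 + 1).toNat : ℤ) := Int.self_le_toNat _
      omega⟩
  refine ⟨i, ?_, hi⟩
  by_contra hc
  push Not at hc
  have := hmax (i + 1) hc
  omega

theorem dn_unique {α : Type} {ρ : α → List α} (ne : ∀ a, ρ a ≠ []) {x : ℤ → α} {c c' : ℤ → ℤ}
    (h : Dn ρ x c) (h' : Dn ρ x c') (hap : ∀ m : ℤ, (∀ i, x (i + m) = x i) → m = 0) : c = c' := by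
  have hconst : ∀ i, c i - c' i = c 0 - c' 0 := by
    intro i
    induction i using Int.induction_on with
    | zero => rfl
    | succ n ih =>
      have h1 := h.1 n
      have h2 := h'.1 n
      omega
    | pred n ih =>
      have h1 := h.1 (-(n : ℤ) - 1)
      have h2 := h'.1 (-(n : ℤ) - 1)
      rw [sub_add_cancel] at h1 h2
      omega
  have hper : ∀ p, x (p + -(c 0 - c' 0)) = x p := by
    intro p
    obtain ⟨i, hi1, hi2⟩ := dn_cover ne h p
    have h1 := h.1 i
    have hk : (p - c (i + 1)).toNat < (ρ (x i)).length := by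
      have : ((p - c (i + 1)).toNat : ℤ) = p - c (i + 1) := Int.toNat_of_nonneg (by omega)
      omega
    have e1 := h.2 i _ hk
    have e2 := h'.2 i _ hk
    rw [e1, Option.some.injEq] at e2
    have h3 := hconst (i + 1)
    rw [Int.toNat_of_nonneg (by omega)] at e2
    have h4 : c (i + 1) + (p - c (i + 1)) = p := by ring
    have h5 : c' (i + 1) + (p - c (i + 1)) = p + -(c 0 - c' 0) := by omega
    rw [h4, h5] at e2
    exact e2.symm
  have h0 := hap _ hper
  funext i
  have := hconst i
  omega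

end Pool.H868.Pal
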