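import Pool.Agent.Helper868.Pal.Defs
import Pool.Agent.Helper868.Pal.P_bl_sh
import Pool.Agent.Helper868.Pal.P_bl_aper
import Pool.Agent.Helper868.Pal.P_dn_iff
import Pool.Agent.Helper868.Pal.P_dn_unique
import Pool.Agent.Helper868.Pal.P_dn_fixed
import Pool.Agent.Helper868.Pal.P_dn_shift
import Pool.Agent.Helper868.Pal.P_dn_uniqT
import Pool.Agent.Helper868.Pal.P_dn_uniqV
import Pool.Agent.Helper868.Pal.P_dn_existT
import Pool.Agent.Helper868.Pal.P_dn_existV

set_option autoImplicit false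

namespace Pool.H868.Pal



/-- codes -/
abbrev fcCode {α : Type} (ρ : α → List α) (L : Set (List α)) (f g : α → α) : Type :=
  {p : α × ℕ // (ρ p.1)[p.2]? = some p.1} ⊕ {l : α // [l, f l] ∈ L ∧ g (f l) = l}

/-- the pair `(x, c)` has code `e` -/
def fcCd {α : Type} {ρ : α → List α} {L : Set (List α)} {f g : α → α} :
    fcCode ρ L f g → (ℤ → α) → (ℤ → ℤ) → Prop
  | Sum.inl p, x, c => x 0 = p.1.1 ∧ c 1 = -(p.1.2 : ℤ) ∧ 0 < c 0
  | Sum.inr l, x, c => c 0 = 0 ∧ x (-1) = l.1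

theorem fc_norm {α : Type} {ρ : α → List α} {L : Set (List α)} {f g : α → α}
    (e : fcCode ρ L f g) (x : ℤ → α) (c : ℤ → ℤ) (h : fcCd e x c) :
    c 0 = 0 ∨ (c (0 + 1) ≤ 0 ∧ 0 < c 0) := by
  rcases e with p | l
  · obtain ⟨h1, h2, h3⟩ := h
    right
    refine ⟨?_, h3⟩
    rw [zero_add, h2]; omega
  · exact Or.inl h.1

theorem fc_exists {α : Type} [Fintype α] {ρ : α → List α} {L : Set (List α)} (H : Sys ρ L)
    (hR : RC L) (h2 : ∀ a, 2 ≤ (ρ a).length) (f g : α → α)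
    (hf : ∀ a, (ρ a).head? = some (f a)) (hg : ∀ a, (ρ a).getLast? = some (g a))
    (e : fcCode ρ L f g) : ∃ x c, BL L x ∧ Dn ρ x c ∧ fcCd e x c := by
  rcases e with ⟨⟨a, k⟩, hk⟩ | ⟨l, hl1, hl2⟩
  · obtain ⟨x, c, h1, h3, h4, h5⟩ := dn_existT H hR h2 a k hk
    refine ⟨x, c, h1, h3, h4, h5, ?_⟩
    have h6 := h3.1 0
    rw [zero_add, h4, h5] at h6
    have h7 : k < (ρ a).length := by
      by_contra hcon
      have : (ρ a)[k]? = none := List.getElem?_eq_none (not_lt.1 hcon)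
      simp only at hk
      rw [this] at hk
      exact absurd hk (by simp)
    omega
  · obtain ⟨x, c, h1, h3, h4, h5⟩ := dn_existV H hR h2 l (f l) hl1 (hf l) (by rw [hg, hl2])
    exact ⟨x, c, h1, h3, h4, h5⟩

theorem fc_uniq {α : Type} {ρ : α → List α} {L : Set (List α)}
    (h2 : ∀ a, 2 ≤ (ρ a).length) (f g : α → α)
    (e : fcCode ρ L f g) {x x' : ℤ → α} {c c' : ℤ → ℤ} (hd : Dn ρ x c) (hd' : Dn ρ x' c')
    (h : fcCd e x c) (h' : fcCd e x' c') : x = x' := by
  rcases e with p | l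
  · obtain ⟨h3, h4, h5⟩ := h
    obtain ⟨h3', h4', h5'⟩ := h'
    exact dn_uniqT h2 hd hd' (by rw [h4]; omega) h5 (by rw [h3, h3']) (by rw [h4, h4'])
  · exact dn_uniqV h2 hd hd' h.1 h'.1 (by rw [h.2, h'.2])

theorem fc_code_uniq {α : Type} {ρ : α → List α} {L : Set (List α)} {f g : α → α}
    (e e' : fcCode ρ L f g) {x : ℤ → α} {c : ℤ → ℤ}
    (h : fcCd e x c) (h' : fcCd e' x c) : e = e' := by
  rcases e with ⟨⟨a, k⟩, hk⟩ | ⟨l, hl⟩
  · rcases e' with ⟨⟨a', k'⟩, hk'⟩ | ⟨l', hl'⟩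
    · obtain ⟨h3, h4, h5⟩ := h
      obtain ⟨h3', h4', h5'⟩ := h'
      simp only at h3 h4 h3' h4'
      congr 1
      apply Subtype.ext
      apply Prod.ext
      · simp only; rw [← h3, ← h3']
      · simp only
        rw [h4] at h4'
        omega
    · obtain ⟨h3, h4, h5⟩ := h
      have h6 := h'.1
      omega
  · rcases e' with ⟨⟨a', k'⟩, hk'⟩ | ⟨l', hl'⟩
    · obtain ⟨h3, h4, h5⟩ := h'
      have h6 := h.1
      omega
    · have h6 : x (-1) = l := h.2
      have h7 : x (-1) = l' := h'.2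
      congr 1
      apply Subtype.ext
      simp only; rw [← h6, ← h7]

theorem fc_surj {α : Type} {ρ : α → List α} {L : Set (List α)}
    (h2 : ∀ a, 2 ≤ (ρ a).length) (f g : α → α)
    (hf : ∀ a, (ρ a).head? = some (f a)) (hg : ∀ a, (ρ a).getLast? = some (g a))
    {x : ℤ → α} {c : ℤ → ℤ} (hB : BL L x) (hd : Dn ρ x c)
    (hn : c 0 = 0 ∨ (c (0 + 1) ≤ 0 ∧ 0 < c 0)) : ∃ e : fcCode ρ L f g, fcCd e x c := by
  rcases hn with h0 | ⟨h0, h1⟩
  · -- case c 0 = 0
    have hA := hd.2 (-1) 0 (by have := h2 (x (-1)); omega)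
    have e1 : (-1 + 1 : ℤ) = 0 := by norm_num
    rw [e1, h0] at hA
    simp only [Nat.cast_zero, add_zero] at hA
    rw [← List.head?_eq_getElem?, hf] at hA
    have hfx : f (x (-1)) = x 0 := Option.some.inj hA
    have hB1 := hd.1 0
    rw [h0, zero_add] at hB1
    have hC := hd.2 0 ((ρ (x 0)).length - 1) (by have := h2 (x 0); omega)
    rw [← List.getLast?_eq_getElem?, hg, zero_add, hB1] at hC
    have e2 : (0 - ((ρ (x 0)).length : ℤ) + (((ρ (x 0)).length - 1 : ℕ) : ℤ)) = -1 := by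
      have := h2 (x 0); omega
    rw [e2] at hC
    have hgx : g (x 0) = x (-1) := Option.some.inj hC
    refine ⟨Sum.inr ⟨x (-1), ?_, ?_⟩, h0, rfl⟩
    · have := hB (-1) 2
      have e3 : winz x (-1) 2 = [x (-1), f (x (-1))] := by
        rw [hfx]
        simp [winz, List.range_succ]
      rw [← e3]; exact this
    · rw [hfx, hgx]
  · rw [zero_add] at h0
    have hB1 := hd.1 0
    rw [zero_add] at hB1
    have hk : (-(c 1)).toNat < (ρ (x 0)).length := by omega
    have hA := hd.2 0 (-(c 1)).toNat hk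
    rw [zero_add] at hA
    have e1 : c 1 + (((-(c 1)).toNat : ℕ) : ℤ) = 0 := by omega
    rw [e1] at hA
    refine ⟨Sum.inl ⟨(x 0, (-(c 1)).toNat), hA⟩, rfl, ?_, h1⟩
    simp only
    omega

theorem fix_card {α : Type} [Fintype α] {ρ : α → List α} {L : Set (List α)} (H : Sys ρ L)
    (hR : RC L) (h2 : ∀ a, 2 ≤ (ρ a).length) (f g : α → α)
    (hf : ∀ a, (ρ a).head? = some (f a)) (hg : ∀ a, (ρ a).getLast? = some (g a)) :
    Nonempty (Fix ρ L ≃
      {p : α × ℕ // (ρ p.1)[p.2]? = some p.1} ⊕ {l : α // [l, f l] ∈ L ∧ g (f l) = l}) := by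
  choose X C hXB hXD hXC using fc_exists H hR h2 f g hf hg
  let Φ : fcCode ρ L f g → Fix ρ L := fun e =>
    Quotient.mk (solS ρ L) ⟨X e, hXB e, (dn_iff (X e)).2 ⟨C e, hXD e⟩⟩
  have hinj : Function.Injective Φ := by
    intro e e' hee
    have hsh : Sh (X e) (X e') := Quotient.exact hee
    obtain ⟨m, hm⟩ := hsh
    have hx : X e' = fun i => X e (i + m) := funext hm
    have hD := dn_shift (hXD e) m
    rw [← hx] at hD
    have hc : C e' = fun i => C e (i + m) - m :=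
      dn_unique H.ne (hXD e') hD (fun k hk => bl_aper H (hXB e') k hk)
    have hn := fc_norm e (X e) (C e) (hXC e)
    have hn' := fc_norm e' (X e') (C e') (hXC e')
    rw [hc] at hn'
    simp only [zero_add] at hn'
    have hm1 : C e m = m ∨ (C e (m + 1) ≤ m ∧ m < C e m) := by
      rw [add_comm m 1]
      rcases hn' with h | ⟨h, h'⟩
      · left; omega
      · right; omega
    have hm0 := (dn_fixed H.ne (hXD e)).unique hm1 hn
    subst hm0
    have hx' : X e' = X e := by rw [hx]; funext i; rw [add_zero]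
    have hc' : C e' = C e := by rw [hc]; funext i; rw [add_zero, sub_zero]
    have h3 := hXC e'
    rw [hx', hc'] at h3
    exact fc_code_uniq e e' (hXC e) h3
  have hsurj : Function.Surjective Φ := by
    intro q
    obtain ⟨⟨x, hB, hI⟩, rfl⟩ := Quotient.exists_rep q
    obtain ⟨c, hd⟩ := (dn_iff x).1 hI
    obtain ⟨i0, hi0, _⟩ := dn_fixed H.ne hd
    have hD := dn_shift hd i0
    have hsh : Sh x (fun i => x (i + i0)) := ⟨i0, fun i => rfl⟩
    have hB' := bl_sh hB hsh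
    have hn : (fun i => c (i + i0) - i0) 0 = 0 ∨
        ((fun i => c (i + i0) - i0) (0 + 1) ≤ 0 ∧ 0 < (fun i => c (i + i0) - i0) 0) := by
      simp only [zero_add]
      rw [add_comm 1 i0]
      rcases hi0 with h | ⟨h, h'⟩
      · left; omega
      · right; omega
    obtain ⟨e, he⟩ := fc_surj h2 f g hf hg hB' hD hn
    refine ⟨e, Quotient.sound ?_⟩
    show Sh (X e) x
    rw [fc_uniq h2 f g e (hXD e) hD (hXC e) he]
    exact hsh.symm
  exact ⟨(Equiv.ofBijective Φ ⟨hinj, hsurj⟩).symm⟩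

end Pool.H868.Pal
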