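import Pool.Agent.Helper868.Pal.Defs

set_option autoImplicit false

namespace Pool.H868.Pal



theorem perm_lemma {S : Type} [Finite S] (σ : S → S) (m : ℕ)
    (h1 : ∀ s, σ^[2 ^ (m + 1)] s = s) (h2 : ∀ s, σ^[2 ^ m] s ≠ s) :
    2 ^ (m + 1) ∣ Nat.card S := by
  classical
  cases isEmpty_or_nonempty S with
  | inl hS => simp
  | inr hS =>
  have hpos : 1 ≤ 2 ^ (m + 1) := Nat.one_le_two_pow
  have hl : ∀ s, σ^[2 ^ (m + 1) - 1] (σ s) = s := by
    intro s
    rw [← Function.iterate_succ_apply, Nat.succ_eq_add_one, Nat.sub_add_cancel hpos]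
    exact h1 s
  have hr : ∀ s, σ (σ^[2 ^ (m + 1) - 1] s) = s := by
    intro s
    rw [← Function.iterate_succ_apply' σ (2 ^ (m + 1) - 1) s, Nat.succ_eq_add_one,
      Nat.sub_add_cancel hpos]
    exact h1 s
  let τ : Equiv.Perm S := ⟨σ, σ^[2 ^ (m + 1) - 1], hl, hr⟩
  have hτ : ∀ k : ℕ, ∀ s, (τ ^ k) s = σ^[k] s := by
    intro k s
    rw [Equiv.Perm.coe_pow]
    rfl
  have hord : orderOf τ = 2 ^ (m + 1) := by
    apply orderOf_eq_prime_pow
    · intro h
      obtain ⟨s⟩ := hS
      apply h2 s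
      rw [← hτ, h]
      rfl
    · ext s
      rw [hτ, h1]
      rfl
  have hmin : ∀ s, Function.minimalPeriod σ s = 2 ^ (m + 1) := by
    intro s
    have hd : Function.minimalPeriod σ s ∣ 2 ^ (m + 1) :=
      Function.IsPeriodicPt.minimalPeriod_dvd (h1 s)
    obtain ⟨j, hj, hje⟩ := (Nat.dvd_prime_pow Nat.prime_two).mp hd
    rcases Nat.lt_or_ge j (m + 1) with hlt | hge
    · exfalso
      apply h2 s
      have : Function.minimalPeriod σ s ∣ 2 ^ m := by
        rw [hje]
        exact pow_dvd_pow 2 (by omega)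
      exact (Function.isPeriodicPt_iff_minimalPeriod_dvd).mpr this
    · have : j = m + 1 := le_antisymm hj hge
      rw [hje, this]
  let G := Subgroup.zpowers τ
  have hfree : ∀ s : S, MulAction.stabilizer G s = ⊥ := by
    intro s
    rw [eq_bot_iff]
    rintro ⟨g, hg⟩ hgs
    rw [Subgroup.mem_bot]
    apply Subtype.ext
    have hg' : g ∈ Submonoid.powers τ := by
      rw [← mem_powers_iff_mem_zpowers] at hg
      exact hg
    obtain ⟨k, hk⟩ := Submonoid.mem_powers_iff _ _ |>.mp hg'
    have hgs' : g s = s := hgs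
    rw [← hk, hτ] at hgs'
    have hdk : 2 ^ (m + 1) ∣ k := by
      rw [← hmin s]
      exact Function.IsPeriodicPt.minimalPeriod_dvd hgs'
    show g = 1
    rw [← hk]
    rw [← hord] at hdk
    exact orderOf_dvd_iff_pow_eq_one.mp hdk
  have : Fintype S := Fintype.ofFinite S
  have : Fintype G := Fintype.ofFinite G
  have : Fintype (MulAction.orbitRel.Quotient G S) := Fintype.ofFinite _
  have : ∀ b : S, Fintype (MulAction.stabilizer G b) := fun b => Fintype.ofFinite _
  rw [Nat.card_eq_fintype_card, MulAction.card_eq_sum_card_group_div_card_stabilizer G S]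
  apply Finset.dvd_sum
  intro ω _
  have hc : Fintype.card (MulAction.stabilizer G (Quotient.out ω)) = 1 := by
    rw [← Nat.card_eq_fintype_card, hfree]
    simp
  rw [hc, Nat.div_one, ← Nat.card_eq_fintype_card, Nat.card_zpowers, hord]

end Pool.H868.Pal
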