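import Pool.Agent.Helper868.Pal.Defs
import Pool.Agent.Helper868.Pal.P_perm_lemma
import Pool.Agent.Helper868.Pal.P_bim_exists
import Pool.Agent.Helper868.Pal.P_bim_unique
import Pool.Agent.Helper868.Pal.P_bim_shift
import Pool.Agent.Helper868.Pal.P_bim_comp
import Pool.Agent.Helper868.Pal.P_bim_rev
import Pool.Agent.Helper868.Pal.P_bim_BL
import Pool.Agent.Helper868.Pal.P_bim_fa
import Pool.Agent.Helper868.Pal.P_bl_rvz
import Pool.Agent.Helper868.Pal.P_bl_sh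
import Pool.Agent.Helper868.Pal.P_bl_pal

set_option autoImplicit false

namespace Pool.H868.Pal



theorem fd_rvz_rvz {α : Type} (x : ℤ → α) : rvz (rvz x) = x := by
  funext i; simp [rvz]

theorem fd_sh_rvz {α : Type} {x y : ℤ → α} (h : Sh x y) : Sh (rvz x) (rvz y) := by
  obtain ⟨m, hm⟩ := h
  refine ⟨-m, fun i => ?_⟩
  show y (-i) = x (-(i + -m))
  rw [hm]
  congr 1
  ring

theorem fd_rv_ne {α : Type} {ψ : α → List α} (ne : ∀ a, ψ a ≠ []) : ∀ a, rv ψ a ≠ [] := by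
  intro a h
  unfold rv at h
  exact ne a (List.reverse_eq_nil_iff.mp h)

theorem fd_f1 {α : Type} {ψ : α → List α} {L : Set (List α)} (ne : ∀ a, ψ a ≠ [])
    (hR : RC L) {n : ℤ} (hFA : FA ψ L n) {x y : ℤ → α} (hx : BL L x) (h : IsIm ψ x y) :
    IsIm ψ (rvz x) (rvz y) := by
  obtain ⟨y1, h1⟩ := bim_exists ne (rvz x)
  have h2 : IsIm (rv ψ) (rvz x) y1 := bim_fa ne hFA (bl_rvz hR hx) h1
  have h3 : Sh y1 (rvz y) := bim_unique (fd_rv_ne ne) h2 (bim_rev h) (Sh.refl _)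
  exact bim_shift h1 (Sh.refl _) h3

theorem fd_pw_zero {α : Type} (ψ : α → List α) (x : ℤ → α) : IsIm (pw ψ 0) x x := by
  refine ⟨fun i => i, fun i => by simp, fun i k hk => ?_⟩
  have : k = 0 := by simpa using hk
  subst this
  simp

theorem fd_comp {α : Type} {ψ : α → List α} (j : ℕ) {x y z : ℤ → α}
    (h : IsIm (pw ψ j) x y) (h' : IsIm ψ y z) : IsIm (pw ψ (j + 1)) x z := by
  have e : pw ψ (j + 1) = fun a => app ψ (pw ψ j a) := by
    funext a; exact pw_succ ψ j a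
  rw [e]
  exact bim_comp h h'

theorem fd_comp' {α : Type} {ψ : α → List α} (j : ℕ) {x y z : ℤ → α}
    (h : IsIm ψ x y) (h' : IsIm (pw ψ j) y z) : IsIm (pw ψ (j + 1)) x z := by
  have e : pw ψ (j + 1) = fun a => app (pw ψ j) (ψ a) := by
    funext a; exact pw_succ' ψ j a
  rw [e]
  exact bim_comp h h'

theorem fd_sub {α : Type} {ψ : α → List α} {L : Set (List α)} (sub : ∀ w ∈ L, app ψ w ∈ L)
    (j : ℕ) : ∀ w ∈ L, app (pw ψ j) w ∈ L := by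
  induction j with
  | zero => intro w hw; rw [app_pw_zero]; exact hw
  | succ j ih => intro w hw; rw [app_pw_succ]; exact sub _ (ih w hw)

theorem fd_BL {α : Type} {ψ : α → List α} {L : Set (List α)} (H : Sys ψ L) (j : ℕ)
    {x y : ℤ → α} (hx : BL L x) (h : IsIm (pw ψ j) x y) : BL L y :=
  bim_BL (pw_ne_nil ψ H.ne j) H.fact (fd_sub H.sub j) hx h

theorem fd_f1j {α : Type} {ψ : α → List α} {L : Set (List α)} (H : Sys ψ L)
    (hR : RC L) {n : ℤ} (hFA : FA ψ L n) (j : ℕ) : ∀ {x y : ℤ → α}, BL L x →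
    IsIm (pw ψ j) x y → IsIm (pw ψ j) (rvz x) (rvz y) := by
  induction j with
  | zero =>
    intro x y hx h
    have h1 : Sh x y := bim_unique (pw_ne_nil ψ H.ne 0) (fd_pw_zero ψ x) h (Sh.refl _)
    exact bim_shift (fd_pw_zero ψ (rvz x)) (Sh.refl _) (fd_sh_rvz h1)
  | succ j ih =>
    intro x y hx h
    obtain ⟨z, hz⟩ := bim_exists (pw_ne_nil ψ H.ne j) x
    obtain ⟨y', hy'⟩ := bim_exists H.ne z
    have h1 : Sh y' y := bim_unique (pw_ne_nil ψ H.ne (j + 1)) (fd_comp j hz hy') h (Sh.refl _)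
    have h2 : IsIm ψ (rvz z) (rvz y') := fd_f1 H.ne hR hFA (fd_BL H j hx hz) hy'
    exact bim_shift (fd_comp j (ih hx hz) h2) (Sh.refl _) (fd_sh_rvz h1)

theorem fd_f2 {α : Type} {ψ : α → List α} (ne : ∀ a, ψ a ≠ []) (j : ℕ)
    {x y x' y' : ℤ → α} (h : IsIm (pw ψ j) x y) (hx : IsIm ψ x x') (hy : IsIm ψ y y') :
    IsIm (pw ψ j) x' y' := by
  obtain ⟨z, hz⟩ := bim_exists (pw_ne_nil ψ ne j) x'
  have h1 : Sh z y' := bim_unique (pw_ne_nil ψ ne (j + 1)) (fd_comp' j hx hz) (fd_comp j h hy)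
    (Sh.refl _)
  exact bim_shift hz (Sh.refl _) h1

theorem fix_dvd {α : Type} [Fintype α] {ψ : α → List α} {L : Set (List α)} (H : Sys ψ L)
    (hR : RC L) {n : ℤ} (hFA : FA ψ L n)
    (hpal : ∃ B : ℕ, ∀ w ∈ L, w.reverse = w → w.length < B) (m : ℕ)
    (hfin : Finite (Fix (pw ψ (2 ^ m)) L)) :
    2 ^ (m + 1) ∣ Nat.card (Fix (pw ψ (2 ^ m)) L) := by
  classical
  have hg : ∀ x : Sol (pw ψ (2 ^ m)) L, ∃ y : Sol (pw ψ (2 ^ m)) L, IsIm ψ x.1 y.1 := by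
    intro x
    obtain ⟨y, hy⟩ := bim_exists H.ne x.1
    have h1 : BL L y := bim_BL H.ne H.fact H.sub x.2.1 hy
    have h2 : IsIm ψ (rvz x.1) (rvz y) := fd_f1 H.ne hR hFA x.2.1 hy
    exact ⟨⟨y, h1, fd_f2 H.ne (2 ^ m) x.2.2 h2 hy⟩, hy⟩
  choose g hgi using hg
  let σ : Fix (pw ψ (2 ^ m)) L → Fix (pw ψ (2 ^ m)) L :=
    Quotient.map (sa := solS (pw ψ (2 ^ m)) L) (sb := solS (pw ψ (2 ^ m)) L) g
      (fun x y h => bim_unique H.ne (hgi x) (hgi y) h)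
  let mk : Sol (pw ψ (2 ^ m)) L → Fix (pw ψ (2 ^ m)) L :=
    fun x => Quotient.mk (solS (pw ψ (2 ^ m)) L) x
  have hσ : ∀ x, σ (mk x) = mk (g x) := fun x => rfl
  have hF3 : ∀ (j : ℕ) (x : Sol (pw ψ (2 ^ m)) L), ∃ y : Sol (pw ψ (2 ^ m)) L,
      σ^[j] (mk x) = mk y ∧ IsIm (pw ψ j) x.1 y.1 := by
    intro j x
    induction j with
    | zero => exact ⟨x, rfl, fd_pw_zero ψ x.1⟩
    | succ j ih =>
      obtain ⟨y, hy, hy2⟩ := ih
      refine ⟨g y, ?_, fd_comp j hy2 (hgi y)⟩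
      rw [Function.iterate_succ_apply', hy, hσ]
  have hrs : ∀ x : Sol (pw ψ (2 ^ m)) L, IsIm (pw ψ (2 ^ m)) (rvz (rvz x.1)) (rvz x.1) :=
    fun x => fd_f1j H hR hFA (2 ^ m) (bl_rvz hR x.2.1) x.2.2
  let rs : Sol (pw ψ (2 ^ m)) L → Sol (pw ψ (2 ^ m)) L :=
    fun x => ⟨rvz x.1, bl_rvz hR x.2.1, hrs x⟩
  have hkey : ∀ x : Sol (pw ψ (2 ^ m)) L, σ^[2 ^ m] (mk x) = mk (rs x) := by
    intro x
    obtain ⟨y, hy, hy2⟩ := hF3 (2 ^ m) x
    rw [hy]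
    have h1 : IsIm (pw ψ (2 ^ m)) x.1 (rvz x.1) := by
      have := hrs x
      rwa [fd_rvz_rvz] at this
    have h2 : Sh y.1 (rvz x.1) := bim_unique (pw_ne_nil ψ H.ne (2 ^ m)) hy2 h1 (Sh.refl _)
    exact Quotient.sound (s := solS (pw ψ (2 ^ m)) L) h2
  have hsurj : ∀ s : Fix (pw ψ (2 ^ m)) L, ∃ x, mk x = s := by
    intro s
    exact Quotient.exists_rep s
  apply perm_lemma σ m
  · intro s
    obtain ⟨x, rfl⟩ := hsurj s
    have e : 2 ^ (m + 1) = 2 ^ m + 2 ^ m := by rw [pow_succ]; ring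
    rw [e, Function.iterate_add_apply, hkey, hkey]
    apply Quotient.sound (s := solS (pw ψ (2 ^ m)) L)
    show Sh (rvz (rvz x.1)) x.1
    rw [fd_rvz_rvz]
    exact Sh.refl _
  · intro s hs
    obtain ⟨x, rfl⟩ := hsurj s
    rw [hkey] at hs
    have h1 : Sh (rvz x.1) x.1 := Quotient.exact (s := solS (pw ψ (2 ^ m)) L) hs
    obtain ⟨B, hB⟩ := hpal
    obtain ⟨w, hw, hw2, hw3⟩ := bl_pal x.2.1 h1.symm B
    exact absurd (hB w hw hw3) (not_lt.mpr hw2)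

end Pool.H868.Pal
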