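import Pool.Agent.Helper868.Pal.Defs

set_option autoImplicit false

namespace Pool.H868.Pal



theorem hpw_app {α : Type} {φ : α → List α} (ne : ∀ a, φ a ≠ []) (f g : α → α)
    (hf : ∀ a, (φ a).head? = some (f a)) (hg : ∀ a, (φ a).getLast? = some (g a)) (v : List α)
    (c d : α) (hc : v.head? = some c) (hd : v.getLast? = some d) :
    (app φ v).head? = some (f c) ∧ (app φ v).getLast? = some (g d) := by
  constructor
  · cases v with
    | nil => simp at hc
    | cons x w =>
      have : x = c := by simpa using hc
      subst this
      rw [app_cons, List.head?_append, hf]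
      rfl
  · have hv : v ≠ [] := by
      rintro rfl
      simp at hd
    obtain ⟨w, x, rfl⟩ : ∃ w x, v = w ++ [x] := ⟨v.dropLast, v.getLast hv,
      (List.dropLast_append_getLast hv).symm⟩
    have : x = d := by simpa using hd
    subst this
    rw [app_append, app_singleton, List.getLast?_append, hg]
    rfl

theorem head_pw {α : Type} {φ : α → List α} (ne : ∀ a, φ a ≠ []) (f g : α → α)
    (hf : ∀ a, (φ a).head? = some (f a)) (hg : ∀ a, (φ a).getLast? = some (g a)) (n : ℕ) (a : α) :
    (pw φ n a).head? = some (f^[n] a) ∧ (pw φ n a).getLast? = some (g^[n] a) := by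
  induction n with
  | zero => simp
  | succ n ih =>
    rw [pw_succ, Function.iterate_succ_apply', Function.iterate_succ_apply']
    exact hpw_app ne f g hf hg _ _ _ ih.1 ih.2

end Pool.H868.Pal
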