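import Pool.Agent.Helper868.Pal.Defs

set_option autoImplicit false

namespace Pool.H868.Pal



section la
open Filter Topology

theorem la_pow {n : Type} [Fintype n] [DecidableEq n] (B : Matrix n n ℤ)
    (hid : ∀ i j, (2 : ℤ) ∣ (B * B - B) i j) (m : ℕ) :
    ∃ C : Matrix n n ℤ, B ^ (2 ^ m) * B ^ (2 ^ m) - B ^ (2 ^ m) = ((2 : ℤ) ^ (m + 1)) • C := by
  induction m with
  | zero =>
    choose C hC using hid
    refine ⟨Matrix.of C, ?_⟩
    ext i j
    simp only [pow_zero, pow_one, zero_add, Matrix.smul_apply, Matrix.of_apply, smul_eq_mul]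
    exact hC i j
  | succ m ih =>
    obtain ⟨C, hC⟩ := ih
    refine ⟨C * ((2 : ℤ) ^ m • C + B ^ (2 ^ m)), ?_⟩
    have e1 : B ^ (2 ^ (m + 1)) = B ^ (2 ^ m) * B ^ (2 ^ m) := by
      rw [pow_succ, mul_two, pow_add]
    rw [e1]
    set E := B ^ (2 ^ m)
    have e2 : E * E * (E * E) - E * E = (E * E - E) * (E * E + E) := by noncomm_ring
    have e3 : E * E + E = (2 : ℤ) • ((2 : ℤ) ^ m • C + E) := by
      have : E * E + E = (E * E - E) + (2 : ℤ) • E := by
        rw [two_smul]; abel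
      rw [this, hC, smul_add, smul_smul, pow_succ, mul_comm]
    rw [e2, e3, hC, Matrix.smul_mul, Matrix.mul_smul, smul_smul]
    congr 1

theorem la_cong {n : Type} [Fintype n] [DecidableEq n] (B : Matrix n n ℤ)
    (hid : ∀ i j, (2 : ℤ) ∣ (B * B - B) i j) (m : ℕ) :
    ∃ C : Matrix n n ℤ, B ^ (2 ^ m) - B = (2 : ℤ) • C := by
  induction m with
  | zero => exact ⟨0, by simp⟩
  | succ m ih =>
    obtain ⟨C, hC⟩ := ih
    obtain ⟨D, hD⟩ := la_pow B hid m
    refine ⟨C + (2 : ℤ) ^ m • D, ?_⟩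
    have e1 : B ^ (2 ^ (m + 1)) = B ^ (2 ^ m) * B ^ (2 ^ m) := by
      rw [pow_succ, mul_two, pow_add]
    rw [smul_add, ← hC, smul_smul]
    have : (2 : ℤ) * 2 ^ m = 2 ^ (m + 1) := by rw [pow_succ, mul_comm]
    rw [this, ← hD, e1]
    abel

theorem la_tendsto (x : ℕ → ℤ) (hx : ∀ m, (2 : ℤ) ^ (m + 1) ∣ x m) :
    Tendsto (fun m => ((x m : ℤ) : ℤ_[2])) atTop (𝓝 0) := by
  apply squeeze_zero_norm (a := fun m : ℕ => ((1 : ℝ) / 2) ^ m)
  · intro m
    obtain ⟨c, hc⟩ := hx m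
    rw [hc]
    push_cast
    rw [norm_mul, norm_pow]
    have h2 : ‖(2 : ℤ_[2])‖ = 1 / 2 := by
      have := PadicInt.norm_p (p := 2)
      simpa using this
    rw [h2, pow_succ]
    have h3 : ‖(c : ℤ_[2])‖ ≤ 1 := PadicInt.norm_le_one _
    have h4 : (0 : ℝ) ≤ (1 / 2) ^ m := by positivity
    nlinarith [norm_nonneg (c : ℤ_[2])]
  · exact tendsto_pow_atTop_nhds_zero_of_lt_one (by norm_num) (by norm_num)

theorem la_lemma {n : Type} [Fintype n] [DecidableEq n] (B : Matrix n n ℤ) (v : ℕ)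
    (hid : ∀ i j, (2 : ℤ) ∣ (B * B - B) i j)
    (h : ∀ m : ℕ, (2 : ℤ) ^ (m + 1) ∣ (B ^ (2 ^ m)).trace + (v : ℤ)) :
    v = 0 ∧ ∀ i j, (2 : ℤ) ∣ B i j := by
  let A : ℕ → (n → n → ℤ_[2]) := fun m i j => (((B ^ (2 ^ m)) i j : ℤ) : ℤ_[2])
  obtain ⟨E, φ, hφ, hE⟩ := CompactSpace.tendsto_subseq A
  have hEij : ∀ i j, Tendsto (fun k => A (φ k) i j) atTop (𝓝 (E i j)) := by
    intro i j
    have h1 := (tendsto_pi_nhds.1 hE) i
    exact (tendsto_pi_nhds.1 h1) j
  let EM : Matrix n n ℤ_[2] := Matrix.of E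
  -- idempotent
  have hidem : EM * EM = EM := by
    ext i j
    have h1 : Tendsto (fun k => ∑ l, A (φ k) i l * A (φ k) l j) atTop
        (𝓝 (∑ l, E i l * E l j)) :=
      tendsto_finsetSum _ fun l _ => (hEij i l).mul (hEij l j)
    have h2 : Tendsto (fun k => ∑ l, A (φ k) i l * A (φ k) l j - A (φ k) i j) atTop
        (𝓝 (∑ l, E i l * E l j - E i j)) := h1.sub (hEij i j)
    have h3 : Tendsto (fun k => ∑ l, A (φ k) i l * A (φ k) l j - A (φ k) i j) atTop (𝓝 0) := by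
      have h4 := (la_tendsto (fun m => (B ^ (2 ^ m) * B ^ (2 ^ m) - B ^ (2 ^ m)) i j) (fun m => by
        obtain ⟨C, hC⟩ := la_pow B hid m
        exact ⟨C i j, by rw [hC]; simp [Matrix.smul_apply]⟩)).comp hφ.tendsto_atTop
      refine h4.congr fun k => ?_
      simp only [Function.comp, A, Matrix.sub_apply, Matrix.mul_apply]
      push_cast
      rfl
    have h5 := tendsto_nhds_unique h2 h3
    simp only [EM, Matrix.mul_apply, Matrix.of_apply]
    exact sub_eq_zero.1 h5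
  have htr : EM.trace = -(v : ℤ_[2]) := by
    have h1 : Tendsto (fun k => ∑ i, A (φ k) i i + (v : ℤ_[2])) atTop
        (𝓝 (∑ i, E i i + (v : ℤ_[2]))) :=
      (tendsto_finsetSum _ fun i _ => hEij i i).add tendsto_const_nhds
    have h3 : Tendsto (fun k => ∑ i, A (φ k) i i + (v : ℤ_[2])) atTop (𝓝 0) := by
      have h4 := (la_tendsto (fun m => (B ^ (2 ^ m)).trace + (v : ℤ)) h).comp hφ.tendsto_atTop
      refine h4.congr fun k => ?_
      simp only [Function.comp, A, Matrix.trace, Matrix.diag_apply]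
      push_cast
      rfl
    have h5 := tendsto_nhds_unique h1 h3
    exact eq_neg_of_add_eq_zero_left h5
  have hf : IsIdempotentElem (Matrix.toLin' EM) := by
    show Matrix.toLin' EM * Matrix.toLin' EM = _
    rw [Module.End.mul_eq_comp, ← Matrix.toLin'_mul, hidem]
  have htr2 : LinearMap.trace ℤ_[2] (n → ℤ_[2]) (Matrix.toLin' EM) = -(v : ℤ_[2]) := by
    rw [Matrix.trace_toLin'_eq, htr]
  rw [(LinearMap.IsIdempotentElem.isProj_range _ hf).trace] at htr2
  have hsum : ((Module.finrank ℤ_[2] (LinearMap.range (Matrix.toLin' EM)) + v : ℕ) : ℤ_[2]) = 0 := by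
    push_cast
    rw [htr2]; ring
  have hz : Module.finrank ℤ_[2] (LinearMap.range (Matrix.toLin' EM)) + v = 0 := by
    exact_mod_cast hsum
  have hv : v = 0 := by omega
  refine ⟨hv, ?_⟩
  have hE0 : EM = 0 := by
    have h0 : LinearMap.trace ℤ_[2] (n → ℤ_[2]) (Matrix.toLin' EM) = 0 := by
      rw [Matrix.trace_toLin'_eq, htr, hv]; simp
    have := LinearMap.IsIdempotentElem.eq_zero_of_trace_eq_zero hf h0
    exact (LinearEquiv.map_eq_zero_iff _).1 this
  intro i j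
  have hlim : Tendsto (fun k => A (φ k) i j) atTop (𝓝 0) := by
    have := hEij i j
    have hz : E i j = 0 := congrFun (congrFun hE0 i) j
    rwa [hz] at this
  have hev : ∀ᶠ k in atTop, ‖A (φ k) i j‖ < 1 := by
    have := (tendsto_zero_iff_norm_tendsto_zero.1 hlim)
    exact this.eventually (gt_mem_nhds one_pos)
  obtain ⟨k, hk⟩ := hev.exists
  have hd : ((2 : ℕ) : ℤ) ∣ (B ^ (2 ^ (φ k))) i j := (PadicInt.norm_int_lt_one_iff_dvd _).1 hk
  obtain ⟨C, hC⟩ := la_cong B hid (φ k)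
  have hC' : (B ^ (2 ^ (φ k))) i j - B i j = 2 * C i j := by
    have := congrFun (congrFun hC i) j
    simpa [Matrix.sub_apply, Matrix.smul_apply] using this
  obtain ⟨c, hc⟩ := hd
  refine ⟨c - C i j, ?_⟩
  push_cast at hc
  linarith

end la

end Pool.H868.Pal
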