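import Pool.Agent.Helper868.Pal.Defs

set_option autoImplicit false

namespace Pool.H868.Pal



theorem last_det {α : Type} [Fintype α] {ψ : α → List α} {L : Set (List α)} (H : Sys ψ L)
    {d : ℕ} (hd : 1 ≤ d) (hFA : FA ψ L (-(d : ℤ))) {w : List α} {a b : α}
    (ha : a :: w ∈ L) (hb : b :: w ∈ L) (hlen : d ≤ (app ψ w).length) :
    (ψ a).getLast? = (ψ b).getLast? := by
  have key : ∀ c : α, c :: w ∈ L → (ψ c).getLast? = (app (rv ψ) w)[d - 1]? := by
    intro c hc
    have hpos : 1 ≤ (ψ c).length := List.length_pos_iff.mpr (H.ne c)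
    have hl : (app ψ (c :: w)).length = (ψ c).length + (app ψ w).length := by simp
    have hrl : (rv ψ c).length = (ψ c).length := by simp [rv]
    have h := hFA (c :: w) hc ((ψ c).length - 1 + d) ((ψ c).length - 1) (by push_cast; ring)
      (by rw [hl]; omega) (by rw [hl]; omega)
    rw [app_cons, app_cons, List.getElem?_append_right (by omega),
      List.getElem?_append_left (by omega)] at h
    rw [List.getLast?_eq_getElem?, ← h]
    congr 1
    omega
  rw [key a ha, key b hb]

end Pool.H868.Pal
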