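import Pool.Agent.Helper868.Pal.Defs

set_option autoImplicit false

namespace Pool.H868.Pal



theorem h16899_count {α : Type} [Fintype α] [DecidableEq α] (φ : α → List α) (b : α)
    (w : List α) : (app φ w).count b = ∑ c, (φ c).count b * w.count c := by
  induction w with
  | nil => simp
  | cons a w ih =>
    rw [app_cons, List.count_append, ih]
    have h1 : ∀ c, (φ c).count b * (a :: w).count c =
        (φ c).count b * w.count c + if a = c then (φ c).count b else 0 := by
      intro c
      rw [List.count_cons]
      by_cases h : a = c
      · subst h
        simp [Nat.mul_add]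
      · simp [h]
    simp only [h1]
    rw [Finset.sum_add_distrib, Finset.sum_ite_eq]
    simp only [Finset.mem_univ, if_true]
    rw [Nat.add_comm]

theorem mx_pw {α : Type} [Fintype α] [DecidableEq α] (φ : α → List α) (n : ℕ) :
    Mx (pw φ n) = Mx φ ^ n := by
  induction n with
  | zero =>
    ext b a
    rw [pow_zero]
    simp only [Mx, pw_zero, Matrix.one_apply]
    by_cases h : b = a
    · subst h
      simp
    · rw [if_neg h]
      have : List.count b [a] = 0 := by
        rw [List.count_eq_zero]
        simp [h]
      rw [this]
      rfl
  | succ n ih =>
    rw [pow_succ', ← ih]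
    ext b a
    rw [Matrix.mul_apply]
    simp only [Mx]
    rw [pw_succ, h16899_count]
    push_cast
    rfl

end Pool.H868.Pal
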