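import Pool.Agent.Helper868.Pal.Defs

set_option autoImplicit false

namespace Pool.H868.Pal



theorem oc_sum {α : Type} [DecidableEq α] (a : α) (l : List α) (N : ℕ) (hN : l.length ≤ N) :
    ∑ k ∈ Finset.range N, (if l[k]? = some a then 1 else 0) = l.count a := by
  induction l generalizing N with
  | nil => simp
  | cons b l ih =>
    obtain ⟨N', rfl⟩ : ∃ N', N = N' + 1 := ⟨N - 1, by simp at hN; omega⟩
    rw [Finset.sum_range_succ']
    have e1 := ih N' (by simp at hN; omega)
    simp only [List.getElem?_cons_succ, List.getElem?_cons_zero, Option.some.injEq]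
    rw [e1, List.count_cons]
    simp only [beq_iff_eq]

theorem occ_card {α : Type} [Fintype α] [DecidableEq α] (ρ : α → List α) :
    Finite {p : α × ℕ // (ρ p.1)[p.2]? = some p.1} ∧
    Nat.card {p : α × ℕ // (ρ p.1)[p.2]? = some p.1} = ∑ a, (ρ a).count a := by
  set N := ∑ a, (ρ a).length with hN
  have hb : ∀ a, (ρ a).length ≤ N := fun a =>
    Finset.single_le_sum (f := fun a => (ρ a).length) (fun _ _ => Nat.zero_le _)
      (Finset.mem_univ a)
  set F : Finset (α × ℕ) := (Finset.univ ×ˢ Finset.range N).filter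
    (fun p => (ρ p.1)[p.2]? = some p.1) with hF
  have hS : {p : α × ℕ | (ρ p.1)[p.2]? = some p.1} = (F : Set (α × ℕ)) := by
    ext p
    simp only [hF, Finset.coe_filter, Finset.mem_product, Finset.mem_univ, Finset.mem_range,
      true_and, Set.mem_setOf_eq]
    constructor
    · intro h
      refine ⟨?_, h⟩
      have h1 : p.2 < (ρ p.1).length := by
        by_contra hc
        rw [List.getElem?_eq_none (by omega)] at h
        simp at h
      exact lt_of_lt_of_le h1 (hb _)
    · exact fun h => h.2
  have hfin : Set.Finite {p : α × ℕ | (ρ p.1)[p.2]? = some p.1} := by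
    rw [hS]; exact F.finite_toSet
  refine ⟨hfin.to_subtype, ?_⟩
  have h1 : Nat.card {p : α × ℕ // (ρ p.1)[p.2]? = some p.1}
      = Set.ncard {p : α × ℕ | (ρ p.1)[p.2]? = some p.1} := rfl
  rw [h1, hS, Set.ncard_coe_finset, hF, Finset.card_filter, Finset.sum_product]
  refine Finset.sum_congr rfl fun a _ => ?_
  exact oc_sum a (ρ a) N (hb a)

end Pool.H868.Pal
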