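import Pool.Agent.Helper868.Pal.Defs

set_option autoImplicit false

namespace Pool.H868.Pal



theorem sys_pw {α : Type} [Fintype α] {φ : α → List α} {L : Set (List α)} (H : Sys φ L)
    {k : ℕ} (hk : 1 ≤ k) : Sys (pw φ k) L := by
  refine ⟨fun a => pw_ne_nil φ H.ne k a, H.letter, H.fact, ?_, ?_, H.extl, H.extr, H.unif, H.pow,
    ?_, ?_, H.lin, H.spec⟩
  · intro w hw
    rw [app_iter]
    clear hk
    induction k with
    | zero => exact hw
    | succ k ih =>
      rw [Function.iterate_succ_apply']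
      exact H.sub _ ih
  · clear hk
    induction k with
    | zero =>
      intro w hw
      exact ⟨w, hw, by rw [app_pw_zero]⟩
    | succ k ih =>
      intro w hw
      obtain ⟨v1, hv1, h1⟩ := H.desub w hw
      obtain ⟨v, hv, h2⟩ := ih v1 hv1
      refine ⟨v, hv, ?_⟩
      rw [app_pw_succ]
      exact h1.trans (app_infix φ h2)
  · obtain ⟨D, hD, h⟩ := H.ratio
    refine ⟨D, hD, fun n a b => ?_⟩
    rw [pw_pw]
    exact h _ a b
  · intro B
    obtain ⟨t, ht⟩ := H.growth B
    refine ⟨t, fun s hs a => ?_⟩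
    rw [pw_pw]
    exact ht _ (hs.trans (Nat.le_mul_of_pos_left s hk)) a

end Pool.H868.Pal
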