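import Pool.Agent.Helper868.Pal.Defs
import Pool.Agent.Helper868.Pal.P_sys_pw
import Pool.Agent.Helper868.Pal.P_last_det
import Pool.Agent.Helper868.Pal.P_core_types
import Pool.Agent.Helper868.Pal.P_la_lemma
import Pool.Agent.Helper868.Pal.P_mx_pw
import Pool.Agent.Helper868.Pal.P_head_pw
import Pool.Agent.Helper868.Pal.P_occ_card
import Pool.Agent.Helper868.Pal.P_fix_card
import Pool.Agent.Helper868.Pal.P_fix_dvd

set_option autoImplicit false

namespace Pool.H868.Pal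



theorem core {α : Type} [Fintype α] [DecidableEq α] {ψ : α → List α} {L : Set (List α)}
    (H : Sys ψ L) (hR : RC L) (h2 : ∀ a, 2 ≤ (ψ a).length) (f g : α → α)
    (hf : ∀ a, (ψ a).head? = some (f a)) (hg : ∀ a, (ψ a).getLast? = some (g a))
    (hff : ∀ a, f (f a) = f a) (hgg : ∀ a, g (g a) = g a)
    (hid : ∀ i i', (2 : ℤ) ∣ (Mx ψ * Mx ψ - Mx ψ) i i')
    {d : ℕ} (hd : 1 ≤ d) (hFA : FA ψ L (-(d : ℤ))) :
    ∀ N : ℕ, ∃ w ∈ L, N ≤ w.length ∧ w.reverse = w := by
  intro N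
  by_contra hcon
  have hpal : ∃ B : ℕ, ∀ w ∈ L, w.reverse = w → w.length < B := by
    refine ⟨N, fun w hw hr => ?_⟩
    by_contra h
    exact hcon ⟨w, hw, not_lt.mp h, hr⟩
  have hiter : ∀ (F : α → α), (∀ a, F (F a) = F a) → ∀ k, 1 ≤ k → ∀ a, F^[k] a = F a := by
    intro F hF k hk
    induction k, hk using Nat.le_induction with
    | base => intro a; rfl
    | succ k hk ih => intro a; rw [Function.iterate_succ_apply', ih, hF]
  have hlen : ∀ k, 1 ≤ k → ∀ a, 2 ≤ (pw ψ k a).length := by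
    intro k hk a
    obtain ⟨j, rfl⟩ : ∃ j, k = j + 1 := ⟨k - 1, by omega⟩
    rw [pw_succ']
    exact (h2 a).trans (length_le_app (pw ψ j) (pw_ne_nil ψ H.ne j) (ψ a))
  have hmain : ∀ m : ℕ, (2 : ℤ) ^ (m + 1) ∣ (Mx ψ ^ (2 ^ m)).trace +
      ((Nat.card {l : α // [l, f l] ∈ L ∧ g (f l) = l} : ℕ) : ℤ) := by
    intro m
    have h1 : 1 ≤ 2 ^ m := Nat.one_le_two_pow
    obtain ⟨e⟩ := fix_card (sys_pw H h1) hR (hlen _ h1) f g
      (fun a => by
        have := (head_pw H.ne f g hf hg (2 ^ m) a).1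
        rw [hiter f hff _ h1] at this
        exact this)
      (fun a => by
        have := (head_pw H.ne f g hf hg (2 ^ m) a).2
        rw [hiter g hgg _ h1] at this
        exact this)
    obtain ⟨hfin, hcard⟩ := occ_card (pw ψ (2 ^ m))
    have hfin2 : Finite (Fix (pw ψ (2 ^ m)) L) := Finite.of_equiv _ e.symm
    have hd := fix_dvd H hR hFA hpal m hfin2
    have hc : Nat.card (Fix (pw ψ (2 ^ m)) L) = ∑ a, (pw ψ (2 ^ m) a).count a +
        Nat.card {l : α // [l, f l] ∈ L ∧ g (f l) = l} := by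
      rw [Nat.card_congr e, Nat.card_sum, hcard]
    rw [hc] at hd
    have ht : (Mx ψ ^ (2 ^ m)).trace = ((∑ a, (pw ψ (2 ^ m) a).count a : ℕ) : ℤ) := by
      rw [← mx_pw]
      simp [Matrix.trace, Mx]
    rw [ht]
    exact_mod_cast hd
  obtain ⟨hv, hev⟩ := la_lemma (Mx ψ) _ hid hmain
  obtain ⟨l, hl1, hl2⟩ := core_types H f g hf hg hff hgg
    ⟨d, fun w a b hlenw ha hb => by
      have := last_det H hd hFA ha hb (hlenw.trans (length_le_app ψ H.ne w))
      rw [hg, hg] at this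
      exact Option.some_injective _ this⟩
    (fun a b => by
      have := hev b a
      have h3 : (2 : ℤ) ∣ (((ψ a).count b : ℕ) : ℤ) := this
      rw [even_iff_two_dvd]
      exact_mod_cast h3)
  have hpos : 0 < Nat.card {l : α // [l, f l] ∈ L ∧ g (f l) = l} := by
    have : Nonempty {l : α // [l, f l] ∈ L ∧ g (f l) = l} := ⟨⟨l, hl1, hl2⟩⟩
    exact Nat.card_pos
  omega

end Pool.H868.Pal
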