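import Pool.Agent.Helper868.Pal.Defs

set_option autoImplicit false

namespace Pool.H868.Pal



theorem pw_mem352 {α : Type} {ψ : α → List α} {L : Set (List α)}
    (H : Sys ψ L) (a : α) (n : ℕ) : pw ψ n a ∈ L := by
  induction n with
  | zero => rw [pw_zero]; exact H.letter a
  | succ n ih => rw [pw_succ]; exact H.sub _ ih

theorem core0 {α : Type} [Fintype α] {ψ : α → List α} {L : Set (List α)}
    (H : Sys ψ L) (hFA : FA ψ L 0) :
    ∀ N : ℕ, ∃ w ∈ L, N ≤ w.length ∧ w.reverse = w := by
  intro N
  have hrv : rv ψ = ψ := by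
    funext a
    apply List.ext_getElem?
    intro t
    have hlen : (rv ψ a).length = (ψ a).length := by simp [rv]
    rcases Nat.lt_or_ge t (ψ a).length with h | h
    · have := hFA [a] (H.letter a) t t (by simp)
        (by rw [app_singleton]; exact h) (by rw [app_singleton]; exact h)
      rw [app_singleton, app_singleton] at this
      exact this
    · rw [List.getElem?_eq_none (by rw [hlen]; exact h), List.getElem?_eq_none h]
  obtain ⟨_, _, _, a, _, _⟩ := H.spec 0
  obtain ⟨t, ht⟩ := H.growth N
  refine ⟨pw ψ t a, pw_mem352 H a t, ht t le_rfl a, ?_⟩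
  have h1 : pw (rv ψ) t a = rv (pw ψ t) a := by rw [pw_rv]
  rw [hrv] at h1
  exact h1.symm

end Pool.H868.Pal
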