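import Pool.Agent.Helper868.Pal.Defs

set_option autoImplicit false

namespace Pool.H868.Pal



theorem im_exists {α : Type} {φ : α → List α} (ne : ∀ a, φ a ≠ []) (w : ℕ → α) :
    ∃ z, Im φ w z := by
  have hex : ∀ n, ∃ a, (app φ (win w 0 (n + 1)))[n]? = some a := by
    intro n
    have h1 : n < (app φ (win w 0 (n + 1))).length := by
      have := length_le_app φ ne (win w 0 (n + 1))
      rw [length_win] at this
      omega
    exact ⟨_, List.getElem?_eq_getElem h1⟩
  choose z hz using hex
  have hpre : ∀ a b : ℕ, a ≤ b → ∃ t, app φ (win w 0 b) = app φ (win w 0 a) ++ t := by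
    intro a b hab
    obtain ⟨k, rfl⟩ := Nat.exists_eq_add_of_le hab
    exact ⟨_, by rw [win_add, app_append]⟩
  refine ⟨z, fun n => ?_⟩
  apply List.ext_getElem?
  intro k
  by_cases hk : k < (app φ (win w 0 n)).length
  · rw [getElem?_win z 0 _ k hk, Nat.zero_add, ← hz k]
    obtain ⟨t, ht⟩ := hpre n (max n (k + 1)) (le_max_left _ _)
    obtain ⟨t', ht'⟩ := hpre (k + 1) (max n (k + 1)) (le_max_right _ _)
    have h1 : k < (app φ (win w 0 (k + 1))).length := by
      have := length_le_app φ ne (win w 0 (k + 1))
      rw [length_win] at this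
      omega
    rw [← List.getElem?_append_left (l₂ := t) hk, ← ht, ht', List.getElem?_append_left h1]
  · rw [List.getElem?_eq_none (by omega), List.getElem?_eq_none (by rw [length_win]; omega)]

end Pool.H868.Pal
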