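import Pool.Agent.Helper868.Pal.Defs

set_option autoImplicit false

namespace Pool.H868.Pal



theorem win_zero_eq_ofFn {α : Type} (w : ℕ → α) (m : ℕ) :
    win w 0 m = List.ofFn (fun i : Fin m => w i) := by
  apply List.ext_getElem
  · simp
  · intro k h1 h2
    simp [win]

theorem lsp_exists {α : Type} [Fintype α] {φ : α → List α} {L : Set (List α)} (H : Sys φ L) :
    ∃ w : ℕ → α, LSp L w := by
  classical
  choose v hvL hvlen a b hab hav hbv using H.spec
  obtain ⟨⟨a0, b0⟩, hinf⟩ := Finite.exists_infinite_fiber (fun n : ℕ => (a n, b n))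
  have hinf' : (((fun n : ℕ => (a n, b n)) ⁻¹' {(a0, b0)}) : Set ℕ).Infinite :=
    Set.infinite_coe_iff.1 hinf
  have hT : ∀ m : ℕ, ∃ v0 : List α, v0.length = m ∧ a0 :: v0 ∈ L ∧ b0 :: v0 ∈ L := by
    intro m
    obtain ⟨n, hn, hmn⟩ := hinf'.exists_gt m
    have hab' : (a n, b n) = (a0, b0) := hn
    rw [Prod.mk.injEq] at hab'
    refine ⟨(v n).take m, ?_, ?_, ?_⟩
    · rw [List.length_take, hvlen]
      omega
    · rw [← hab'.1]
      refine H.fact _ _ ⟨[], (v n).drop m, ?_⟩ (hav n)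
      simp
    · rw [← hab'.2]
      refine H.fact _ _ ⟨[], (v n).drop m, ?_⟩ (hbv n)
      simp
  have hab0 : a0 ≠ b0 := by
    obtain ⟨n, hn, -⟩ := hinf'.exists_gt 0
    have hab' : (a n, b n) = (a0, b0) := hn
    rw [Prod.mk.injEq] at hab'
    rw [← hab'.1, ← hab'.2]
    exact hab n
  letI : TopologicalSpace α := ⊥
  haveI : DiscreteTopology α := ⟨rfl⟩
  haveI : CompactSpace (ℕ → α) := Function.compactSpace
  let K : ℕ → Set (ℕ → α) := fun m => {w | a0 :: win w 0 m ∈ L ∧ b0 :: win w 0 m ∈ L}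
  have hcl : ∀ m, IsClosed (K m) := by
    intro m
    have hr : Continuous (fun (w : ℕ → α) (i : Fin m) => w (i : ℕ)) := by
      fun_prop
    have hK : K m = (fun (w : ℕ → α) (i : Fin m) => w (i : ℕ)) ⁻¹'
        {x | a0 :: List.ofFn x ∈ L ∧ b0 :: List.ofFn x ∈ L} := by
      ext w
      show (a0 :: win w 0 m ∈ L ∧ b0 :: win w 0 m ∈ L) ↔ _
      rw [win_zero_eq_ofFn]
      rfl
    rw [hK]
    exact (isClosed_discrete _).preimage hr
  have hsub : ∀ m, K (m + 1) ⊆ K m := by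
    intro m w hw
    obtain ⟨h1, h2⟩ := hw
    have e : win w 0 (m + 1) = win w 0 m ++ win w (0 + m) 1 := win_add w 0 m 1
    rw [e] at h1 h2
    exact ⟨H.fact _ _ ⟨[], win w (0 + m) 1, by simp⟩ h1,
      H.fact _ _ ⟨[], win w (0 + m) 1, by simp⟩ h2⟩
  have hne : ∀ m, (K m).Nonempty := by
    intro m
    obtain ⟨v0, hl, h1, h2⟩ := hT m
    refine ⟨fun i => v0.getD i a0, ?_⟩
    have e : win (fun i => v0.getD i a0) 0 m = v0 := by
      apply List.ext_getElem
      · simp [hl]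
      · intro k hk1 hk2
        simp [win, hk2]
    show a0 :: win (fun i => v0.getD i a0) 0 m ∈ L ∧ b0 :: win (fun i => v0.getD i a0) 0 m ∈ L
    rw [e]
    exact ⟨h1, h2⟩
  obtain ⟨w, hw⟩ := IsCompact.nonempty_iInter_of_sequence_nonempty_isCompact_isClosed K hsub hne
    (hcl 0).isCompact hcl
  rw [Set.mem_iInter] at hw
  exact ⟨w, a0, b0, hab0, hw⟩

end Pool.H868.Pal
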