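import Pool.Agent.Helper868.Pal.Defs

set_option autoImplicit false

namespace Pool.H868.Pal

theorem lsp_infL {α : Type} [Fintype α] {φ : α → List α} {L : Set (List α)} (H : Sys φ L)
    {w : ℕ → α} (hw : LSp L w) : InfL L w := by
  obtain ⟨a, b, _, h⟩ := hw
  intro i n
  refine H.fact _ _ ?_ (h (i + n)).1
  rw [win_add]
  exact ⟨a :: win w 0 i, [], by simp⟩

end Pool.H868.Pal
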