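import Pool.Agent.Helper868.Pal.Defs

set_option autoImplicit false

namespace Pool.H868.Pal

theorem im_comp {α : Type} {φ : α → List α} {m : ℕ} {w z z' : ℕ → α}
    (hz : Im (pw φ m) w z) (hz' : Im φ z z') : Im (pw φ (m + 1)) w z' := by
  intro n
  have h1 := hz n
  have h2 := hz' (app (pw φ m) (win w 0 n)).length
  rw [← h1] at h2
  rw [app_pw_succ]
  exact h2

end Pool.H868.Pal
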