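import Pool.Agent.Helper868.Pal.Defs

set_option autoImplicit false

namespace Pool.H868.Pal



theorem j16884_get {α : Type} {φ : α → List α} {w z : ℕ → α} (hz : Im φ w z) (i n k : ℕ)
    (hk : k < (app φ (win w i n)).length) :
    (app φ (win w i n))[k]? = some (z ((app φ (win w 0 i)).length + k)) := by
  have h1 := hz (i + n)
  rw [win_add, app_append, Nat.zero_add, List.length_append] at h1
  have h2 := congrArg (fun l => l[(app φ (win w 0 i)).length + k]?) h1
  rw [List.getElem?_append_right (Nat.le_add_right _ _), Nat.add_sub_cancel_left,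
    getElem?_win _ _ _ _ (by omega), Nat.zero_add] at h2
  exact h2

theorem im_tl {α : Type} {φ : α → List α} (ne : ∀ a, φ a ≠ []) {w w' z z' : ℕ → α}
    (h : Tl w w') (hz : Im φ w z) (hz' : Im φ w' z') : Tl z z' := by
  obtain ⟨i, j, hij⟩ := h
  refine ⟨(app φ (win w 0 i)).length, (app φ (win w' 0 j)).length, fun k => ?_⟩
  have hw : win w i (k + 1) = win w' j (k + 1) := by
    unfold win
    exact List.map_congr_left fun a _ => hij a
  have hlen : k < (app φ (win w i (k + 1))).length := by
    have := length_le_app φ ne (win w i (k + 1))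
    rw [length_win] at this
    omega
  have h1 := j16884_get hz i (k + 1) k hlen
  have h2 := j16884_get hz' j (k + 1) k (by rw [← hw]; exact hlen)
  rw [← hw, h1] at h2
  exact Option.some.inj h2

end Pool.H868.Pal
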