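import Pool.Agent.Helper868.Pal.Defs

set_option autoImplicit false

namespace Pool.H868.Pal



/-- finite left special words of length `n` -/
def LSn {α : Type} (L : Set (List α)) (n : ℕ) : Set (List α) :=
  {v | v.length = n ∧ ∃ a b, a ≠ b ∧ a :: v ∈ L ∧ b :: v ∈ L}

theorem lsf_step {α : Type} [Fintype α] {φ : α → List α} {L : Set (List α)} (H : Sys φ L) (n : ℕ) :
    {w : List α | w ∈ L ∧ w.length = n}.ncard + (LSn L n).ncard ≤
      {w : List α | w ∈ L ∧ w.length = n + 1}.ncard := by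
  classical
  obtain ⟨-, -, -, a0, -, -, -⟩ := H.spec 0
  have hfin : ∀ m, {w : List α | w ∈ L ∧ w.length = m}.Finite := fun m =>
    (List.finite_length_eq α m).subset (fun w hw => hw.2)
  have hc : ∀ w : List α, ∃ a, w ∈ L → a :: w ∈ L := by
    intro w
    by_cases h : w ∈ L
    · obtain ⟨a, ha⟩ := H.extl w h
      exact ⟨a, fun _ => ha⟩
    · exact ⟨a0, fun h' => absurd h' h⟩
  choose c hc using hc
  have hd : ∀ v : List α, ∃ d, v ∈ LSn L n → d ≠ c v ∧ d :: v ∈ L := by
    intro v
    by_cases h : v ∈ LSn L n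
    · obtain ⟨-, a, b, hab, ha, hb⟩ := h
      by_cases hac : a = c v
      · exact ⟨b, fun _ => ⟨fun hbc => hab (hac.trans hbc.symm), hb⟩⟩
      · exact ⟨a, fun _ => ⟨hac, ha⟩⟩
    · exact ⟨a0, fun h' => absurd h' h⟩
  choose d hd using hd
  have hLSfin : (LSn L n).Finite := (List.finite_length_eq α n).subset (fun w hw => hw.1)
  have hi1 : Function.Injective (fun w : List α => c w :: w) := fun w w' h => (List.cons.inj h).2
  have hi2 : Function.Injective (fun w : List α => d w :: w) := fun w w' h => (List.cons.inj h).2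
  have h1 := Set.ncard_image_of_injective {w : List α | w ∈ L ∧ w.length = n} hi1
  have h2 := Set.ncard_image_of_injective (LSn L n) hi2
  have hdisj : Disjoint ((fun w : List α => c w :: w) '' {w : List α | w ∈ L ∧ w.length = n})
      ((fun w : List α => d w :: w) '' (LSn L n)) := by
    rw [Set.disjoint_left]
    rintro _ ⟨w, _, rfl⟩ ⟨v, hv, hvw⟩
    have h3 := List.cons.inj hvw
    have h4 := (hd v hv).1
    apply h4
    rw [h3.1, h3.2]
  have h3 := Set.ncard_union_eq hdisj ((hfin n).image _) (hLSfin.image _)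
  rw [h1, h2] at h3
  rw [← h3]
  apply Set.ncard_le_ncard _ (hfin (n + 1))
  rintro _ (⟨w, hw, rfl⟩ | ⟨v, hv, rfl⟩)
  · exact ⟨hc w hw.1, by simp [hw.2]⟩
  · exact ⟨(hd v hv).2, by simp [hv.1]⟩

theorem lsf_sep {α : Type} (T : Finset (ℕ → α)) :
    ∃ n0 : ℕ, ∀ w ∈ T, ∀ w' ∈ T, w ≠ w' → ∃ k < n0, w k ≠ w' k := by
  classical
  have h : ∀ p : (ℕ → α) × (ℕ → α), ∃ k, p.1 ≠ p.2 → p.1 k ≠ p.2 k := by
    intro p
    by_cases hp : p.1 = p.2
    · exact ⟨0, fun h => absurd hp h⟩
    · obtain ⟨k, hk⟩ := Function.ne_iff.mp hp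
      exact ⟨k, fun _ => hk⟩
  choose k hk using h
  refine ⟨(T ×ˢ T).sup k + 1, fun w hw w' hw' hne => ⟨k (w, w'), ?_, hk (w, w') hne⟩⟩
  have : k (w, w') ≤ (T ×ˢ T).sup k :=
    Finset.le_sup (f := k) (Finset.mem_product.mpr ⟨hw, hw'⟩)
  omega

theorem lsp_finite {α : Type} [Fintype α] {φ : α → List α} {L : Set (List α)} (H : Sys φ L) :
    {w : ℕ → α | LSp L w}.Finite := by
  classical
  obtain ⟨K, hK⟩ := H.lin
  by_contra hinf
  have hinf' : {w : ℕ → α | LSp L w}.Infinite := hinf
  obtain ⟨T, hT, hTc⟩ := hinf'.exists_subset_card_eq (K + 1)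
  obtain ⟨n0, hn0⟩ := lsf_sep T
  have hLS : ∀ n, n0 ≤ n → K + 1 ≤ (LSn L n).ncard := by
    intro n hn
    have hLSfin : (LSn L n).Finite := (List.finite_length_eq α n).subset (fun w hw => hw.1)
    have himg : ((T.image (fun w => win w 0 n) : Finset (List α)) : Set (List α)) ⊆ LSn L n := by
      intro v hv
      rw [Finset.mem_coe, Finset.mem_image] at hv
      obtain ⟨w, hw, rfl⟩ := hv
      obtain ⟨a, b, hab, h⟩ := hT hw
      exact ⟨length_win w 0 n, a, b, hab, (h n).1, (h n).2⟩
    have hcard : (T.image (fun w => win w 0 n)).card = K + 1 := by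
      rw [Finset.card_image_of_injOn, hTc]
      intro w hw w' hw' hww
      by_contra hne
      obtain ⟨k, hk, hkne⟩ := hn0 w hw w' hw' hne
      apply hkne
      have h1 := getElem?_win w 0 n k (by omega)
      have h2 := getElem?_win w' 0 n k (by omega)
      have h3 : win w 0 n = win w' 0 n := hww
      rw [h3, h2, zero_add] at h1
      exact (Option.some.inj h1).symm
    have := Set.ncard_le_ncard himg hLSfin
    rw [Set.ncard_coe_finset, hcard] at this
    exact this
  have hgrow : ∀ r, (K + 1) * r ≤ {w : List α | w ∈ L ∧ w.length = n0 + r}.ncard := by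
    intro r
    induction r with
    | zero => simp
    | succ r ih =>
      have h1 := lsf_step H (n0 + r)
      have h2 := hLS (n0 + r) (by omega)
      have h3 : n0 + (r + 1) = n0 + r + 1 := by ring
      rw [h3, Nat.mul_succ]
      omega
  have h1 := hgrow (K * n0 + 1)
  have h2 := hK (n0 + (K * n0 + 1)) (by omega)
  nlinarith

end Pool.H868.Pal
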