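import Pool.Agent.Helper868.Pal.Defs

set_option autoImplicit false

namespace Pool.H868.Pal



theorem locate {α : Type} {φ : α → List α} (ne : ∀ a, φ a ≠ []) (w : List α) (j : ℕ)
    (h : j < (app φ w).length) :
    ∃ k, k < w.length ∧ (app φ (w.take k)).length ≤ j ∧ j < (app φ (w.take (k + 1))).length := by
  induction w generalizing j with
  | nil => simp [app] at h
  | cons a w ih =>
    rw [app_cons, List.length_append] at h
    by_cases hj : j < (φ a).length
    · refine ⟨0, by simp, by simp [app], ?_⟩
      rw [List.take_succ_cons, app_cons, List.length_append]
      omega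
    · obtain ⟨k, h1, h2, h3⟩ := ih (j - (φ a).length) (by omega)
      refine ⟨k + 1, by simp; omega, ?_, ?_⟩
      · rw [List.take_succ_cons, app_cons, List.length_append]
        omega
      · rw [List.take_succ_cons, app_cons, List.length_append]
        omega

end Pool.H868.Pal
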