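import Pool.Agent.Helper868.Pal.Defs
import Pool.Agent.Helper868.Pal.P_locate

set_option autoImplicit false

namespace Pool.H868.Pal



theorem ld_desub {α : Type} {φ : α → List α} {L : Set (List α)} (H : Sys φ L) (n : ℕ) :
    ∀ w ∈ L, ∃ v ∈ L, w <:+: app (pw φ n) v := by
  induction n with
  | zero => intro w hw; exact ⟨w, hw, by rw [app_pw_zero]⟩
  | succ n ih =>
    intro w hw
    obtain ⟨v1, hv1, h1⟩ := H.desub w hw
    obtain ⟨v2, hv2, h2⟩ := ih v1 hv1
    refine ⟨v2, hv2, h1.trans ?_⟩
    rw [app_pw_succ]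
    exact app_infix φ h2

theorem ld_pos {α : Type} {φ : α → List α} (ne : ∀ a, φ a ≠ []) {w : List α} (h : w ≠ []) :
    0 < (app φ w).length :=
  lt_of_lt_of_le (List.length_pos_iff.mpr h) (length_le_app φ ne w)

theorem ld_cut {α : Type} {φ : α → List α} (ne : ∀ a, φ a ≠ []) (p q u C v : List α) (e : α)
    (h : p ++ e :: q = u ++ C ++ v) (h1 : (app φ u).length ≤ (app φ p).length)
    (h2 : (app φ p).length < (app φ u).length + (app φ C).length) :
    ∃ p' q', C = p' ++ e :: q' ∧ p = u ++ p' := by
  rw [List.append_assoc, List.append_eq_append_iff] at h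
  have key : ∃ c', p = u ++ c' ∧ C ++ v = c' ++ e :: q := by
    rcases h with ⟨a', h3, h4⟩ | ⟨c', h3, h4⟩
    · by_cases ha : a' = []
      · subst ha
        refine ⟨[], by simpa using h3.symm, ?_⟩
        simpa using h4.symm
      · exfalso
        have h5 := ld_pos ne ha
        rw [h3, app_append, List.length_append] at h1
        omega
    · exact ⟨c', h3, h4⟩
  obtain ⟨c', h3, h4⟩ := key
  rw [List.append_eq_append_iff] at h4
  rw [h3, app_append, List.length_append] at h2
  rcases h4 with ⟨a', h5, h6⟩ | ⟨d', h5, h6⟩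
  · exfalso
    rw [h5, app_append, List.length_append] at h2
    omega
  · cases d' with
    | nil =>
      exfalso
      rw [h5, List.append_nil] at h2
      omega
    | cons d d'' =>
      rw [List.cons_append, List.cons.injEq] at h6
      refine ⟨c', d'', ?_, h3⟩
      rw [h5, h6.1]

theorem ld_mid {α : Type} (u v w : List α) (n : ℕ) (h : n < v.length) :
    (u ++ v ++ w)[u.length + n]? = v[n]? := by
  rw [List.append_assoc, List.getElem?_append_right (by omega), Nat.add_sub_cancel_left,
    List.getElem?_append_left h]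

theorem ld_split {α : Type} (w : List α) (k : ℕ) (c : α) (h : w[k]? = some c) :
    w = w.take k ++ c :: w.drop (k + 1) := by
  obtain ⟨hk, hc⟩ := List.getElem?_eq_some_iff.1 h
  rw [← hc, ← List.drop_eq_getElem_cons hk, List.take_append_drop]

theorem ld_sub {α : Type} (w v : List α) (s : ℕ) (hs : s + v.length ≤ w.length)
    (h : ∀ t, t < v.length → w[s + t]? = v[t]?) :
    w = w.take s ++ v ++ w.drop (s + v.length) := by
  have h1 : (w.drop s).take v.length = v := by
    apply List.ext_getElem?
    intro t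
    by_cases ht : t < v.length
    · rw [List.getElem?_take_of_lt ht, List.getElem?_drop, h t ht]
    · rw [List.getElem?_eq_none (by simp; omega), List.getElem?_eq_none (by omega)]
  have h2 : w.drop s = v ++ w.drop (s + v.length) := by
    conv_lhs => rw [← List.take_append_drop v.length (w.drop s)]
    rw [h1, List.drop_drop]
  rw [List.append_assoc, ← h2, List.take_append_drop]

theorem ld_len {α : Type} (ψ : α → List α) (M D : ℕ) (h : ∀ c, M ≤ D * (ψ c).length)
    (w : List α) : M * w.length ≤ D * (app ψ w).length := by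
  induction w with
  | nil => simp
  | cons a w ih =>
    rw [app_cons, List.length_append, List.length_cons, mul_add, mul_add]
    have := h a
    omega

theorem level_data {α : Type} [Fintype α] {φ : α → List α} {L : Set (List α)} (H : Sys φ L)
    (D : ℕ) (hD : 1 ≤ D) (hr : ∀ n a b, (pw φ n a).length ≤ D * (pw φ n b).length)
    (hbad : ∀ N : ℕ, ∃ a ∈ L, ∃ b ∈ L, ∃ m p' : ℕ, m < a.length ∧
      N ≤ (app φ (a.take m)).length ∧ (app φ (a.take m)).length + N ≤ (app φ a).length ∧
      N ≤ p' ∧ p' + N ≤ (app φ b).length ∧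
      (∀ t, t < 2 * N →
        (app φ a)[(app φ (a.take m)).length - N + t]? = (app φ b)[p' - N + t]?) ∧
      ¬ ∃ m', m' < b.length ∧ p' = (app φ (b.take m')).length ∧ a[m]? = b[m']?) :
    ∀ P : ℕ, 1 ≤ P → ∃ (A : List α) (β : α) (s ofs : ℕ), A ∈ L ∧ A.length ≤ 2 * D + 1 ∧
      (∃ a0 A', A = a0 :: A' ∧ s < (pw φ P a0).length) ∧ BadAt φ P A β s ofs := by
  intro P hP
  obtain ⟨Q, rfl⟩ : ∃ Q, P = Q + 1 := ⟨P - 1, by omega⟩
  obtain ⟨M, hM⟩ : ∃ M, M = Finset.univ.sup (fun c => (pw φ (Q + 1) c).length) := ⟨_, rfl⟩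
  have hM1 : ∀ c, (pw φ (Q + 1) c).length ≤ M := fun c => by
    rw [hM]
    exact Finset.le_sup (f := fun c => (pw φ (Q + 1) c).length) (Finset.mem_univ c)
  have hM2 : ∀ c, M ≤ D * (pw φ (Q + 1) c).length := fun c => by
    rw [hM]
    exact Finset.sup_le fun a _ => hr (Q + 1) a c
  obtain ⟨a, haL, b, hbL, m, p', hm, h1, h2, h3, h4, h5, h6⟩ := hbad M
  obtain ⟨a', ha'L, x, y, hA1⟩ := ld_desub H Q a haL
  obtain ⟨b', hb'L, x', y', hB1⟩ := ld_desub H Q b hbL
  have hΦa : app (pw φ (Q + 1)) a' = app φ x ++ app φ a ++ app φ y := by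
    rw [app_pw_succ, ← hA1, app_append, app_append]
  have hΦb : app (pw φ (Q + 1)) b' = app φ x' ++ app φ b ++ app φ y' := by
    rw [app_pw_succ, ← hB1, app_append, app_append]
  have hΦal : (app (pw φ (Q + 1)) a').length =
      (app φ x).length + (app φ a).length + (app φ y).length := by
    rw [hΦa, List.length_append, List.length_append]
  have hΦbl : (app (pw φ (Q + 1)) b').length =
      (app φ x').length + (app φ b).length + (app φ y').length := by
    rw [hΦb, List.length_append, List.length_append]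
  have hneP : ∀ c, pw φ (Q + 1) c ≠ [] := pw_ne_nil φ H.ne (Q + 1)
  obtain ⟨e, he⟩ : ∃ e, a[m]? = some e := ⟨a[m], List.getElem?_eq_getElem hm⟩
  have hMpos : 1 ≤ M := le_trans (List.length_pos_iff.mpr (hneP e)) (hM1 e)
  have hasp := ld_split a m e he
  -- the position in b'
  obtain ⟨k, hk, hk1, hk2⟩ := locate hneP b' ((app φ x').length + p') (by omega)
  obtain ⟨β, hβ⟩ : ∃ β, b'[k]? = some β := ⟨b'[k], List.getElem?_eq_getElem hk⟩
  have hbsp := ld_split b' k β hβ
  have htk1 : b'.take (k + 1) = b'.take k ++ [β] := by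
    rw [List.take_add_one, hβ]; rfl
  rw [htk1, app_append, app_singleton, List.length_append] at hk2
  obtain ⟨ofs, hofs⟩ : ∃ ofs, (app φ x').length + p' =
      (app (pw φ (Q + 1)) (b'.take k)).length + ofs := ⟨_, (Nat.add_sub_cancel' hk1).symm⟩
  have hofs1 : ofs < (pw φ (Q + 1) β).length := by omega
  have hβM := hM1 β
  obtain ⟨is, his⟩ : ∃ is, is + ofs = (app φ x).length + (app φ (a.take m)).length :=
    ⟨(app φ x).length + (app φ (a.take m)).length - ofs, by omega⟩
  obtain ⟨k', hk', hk'1, hk'2⟩ := locate hneP a' is (by omega)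
  obtain ⟨a0, ha0⟩ : ∃ a0, a'[k']? = some a0 := ⟨a'[k'], List.getElem?_eq_getElem hk'⟩
  have ha'sp := ld_split a' k' a0 ha0
  have htk2 : a'.take (k' + 1) = a'.take k' ++ [a0] := by
    rw [List.take_add_one, ha0]; rfl
  rw [htk2, app_append, app_singleton, List.length_append] at hk'2
  obtain ⟨s, hs⟩ : ∃ s, is = (app (pw φ (Q + 1)) (a'.take k')).length + s :=
    ⟨_, (Nat.add_sub_cancel' hk'1).symm⟩
  have hs0 : s < (pw φ (Q + 1) a0).length := by omega
  obtain ⟨W, hW⟩ : ∃ W, W = a'.drop (k' + 1) := ⟨_, rfl⟩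
  rw [← hW] at ha'sp
  obtain ⟨A, hA⟩ : ∃ A, A = a0 :: W.take (2 * D) := ⟨_, rfl⟩
  obtain ⟨R, hR⟩ : ∃ R, R = W.drop (2 * D) := ⟨_, rfl⟩
  have haAR : a' = a'.take k' ++ A ++ R := by
    conv_lhs => rw [ha'sp]
    rw [hA, hR, List.append_assoc, List.cons_append, List.take_append_drop]
  have hAlen : (app (pw φ (Q + 1)) a').length = (app (pw φ (Q + 1)) (a'.take k')).length +
      (app (pw φ (Q + 1)) A).length + (app (pw φ (Q + 1)) R).length := by
    conv_lhs => rw [haAR]
    rw [app_append, app_append, List.length_append, List.length_append]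
  have hsA : s + (pw φ (Q + 1) β).length ≤ (app (pw φ (Q + 1)) A).length := by
    by_cases hlong : 2 * D ≤ W.length
    · have h7 := ld_len (pw φ (Q + 1)) M D hM2 (W.take (2 * D))
      rw [List.length_take_of_le hlong] at h7
      have h8 : D * (2 * M) ≤ D * (app (pw φ (Q + 1)) (W.take (2 * D))).length := by
        calc D * (2 * M) = M * (2 * D) := by ring
          _ ≤ _ := h7
      have h9 := Nat.le_of_mul_le_mul_left h8 hD
      rw [hA, app_cons, List.length_append]
      omega
    · have h7 : R = [] := by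
        rw [hR]
        exact List.drop_eq_nil_of_le (by omega)
      rw [h7, app_nil, List.length_nil] at hAlen
      omega
  have hwin : ∀ t, t < (pw φ (Q + 1) β).length →
      (app (pw φ (Q + 1)) A)[s + t]? = (pw φ (Q + 1) β)[t]? := by
    intro t ht
    have e1 : (app (pw φ (Q + 1)) A)[s + t]? =
        (app (pw φ (Q + 1)) a')[(app (pw φ (Q + 1)) (a'.take k')).length + (s + t)]? := by
      conv_rhs => rw [haAR]
      rw [app_append, app_append]
      have := ld_mid (app (pw φ (Q + 1)) (a'.take k')) (app (pw φ (Q + 1)) A)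
        (app (pw φ (Q + 1)) R) (s + t) (by omega)
      rw [← this]
      congr 3
      rw [← haAR]
    have e2 : (app (pw φ (Q + 1)) a')[(app (pw φ (Q + 1)) (a'.take k')).length + (s + t)]? =
        (app φ a)[(app φ (a.take m)).length - M + (M - ofs + t)]? := by
      rw [hΦa, ← ld_mid (app φ x) (app φ a) (app φ y) _ (by omega)]
      congr 1
      omega
    have e3 := h5 (M - ofs + t) (by omega)
    have e4 : (app φ b)[p' - M + (M - ofs + t)]? =
        (app (pw φ (Q + 1)) b')[(app (pw φ (Q + 1)) (b'.take k)).length + t]? := by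
      rw [hΦb, ← ld_mid (app φ x') (app φ b) (app φ y') _ (by omega)]
      congr 1
      omega
    have e5 : (app (pw φ (Q + 1)) b')[(app (pw φ (Q + 1)) (b'.take k)).length + t]? =
        (pw φ (Q + 1) β)[t]? := by
      have h7 : app (pw φ (Q + 1)) b' = app (pw φ (Q + 1)) (b'.take k) ++ pw φ (Q + 1) β ++
          app (pw φ (Q + 1)) (b'.drop (k + 1)) := by
        conv_lhs => rw [hbsp]
        rw [app_append, app_cons, List.append_assoc]
      rw [h7]
      exact ld_mid _ _ _ t ht
    rw [e1, e2, e3, e4, e5]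
  have hAinf : A <:+: a' := ⟨a'.take k', R, haAR.symm⟩
  refine ⟨A, β, s, ofs, H.fact A a' hAinf ha'L, ?_, ⟨a0, _, hA, hs0⟩, ?_⟩
  · rw [hA, List.length_cons, List.length_take]
    omega
  · have hsub := ld_sub _ _ s hsA hwin
    -- the cut in A
    have hc1 : (x ++ a.take m) ++ e :: (a.drop (m + 1) ++ y) =
        app (pw φ Q) (a'.take k') ++ app (pw φ Q) A ++ app (pw φ Q) R := by
      rw [← app_append, ← app_append, ← haAR, ← hA1]
      conv_rhs => rw [hasp]
      simp [List.append_assoc]
    have hu : (app φ (app (pw φ Q) (a'.take k'))).length =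
        (app (pw φ (Q + 1)) (a'.take k')).length := by rw [app_pw_succ]
    have hC : (app φ (app (pw φ Q) A)).length = (app (pw φ (Q + 1)) A).length := by
      rw [app_pw_succ]
    have hp : (app φ (x ++ a.take m)).length = is + ofs := by
      rw [app_append, List.length_append, his]
    obtain ⟨p2, q2, hC2, hp2⟩ := ld_cut H.ne _ _ _ _ _ e hc1 (by omega) (by omega)
    have hp2l : is + ofs = (app (pw φ (Q + 1)) (a'.take k')).length + (app φ p2).length := by
      rw [← hp, hp2, app_append, List.length_append, hu]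
    refine ⟨⟨_, _, hsub, ?_⟩, hofs1, p2.length, e, ?_, ?_, ?_⟩
    · rw [List.length_take]
      omega
    · show (app (pw φ Q) A)[p2.length]? = some e
      rw [hC2, List.getElem?_append_right le_rfl, Nat.sub_self]
      rfl
    · show s + ofs = (app φ ((app (pw φ Q) A).take p2.length)).length
      rw [hC2, List.take_left']
      · omega
      · rfl
    · rintro ⟨μ, hμ1, hμ2⟩
      have hμ1' : (pw φ Q β)[μ]? = some e := hμ1
      have hμ2' : ofs = (app φ ((pw φ Q β).take μ)).length := hμ2
      have hsp := ld_split _ μ e hμ1'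
      have hc2 : (app (pw φ Q) (b'.take k) ++ (pw φ Q β).take μ) ++
          e :: ((pw φ Q β).drop (μ + 1) ++ app (pw φ Q) (b'.drop (k + 1))) = x' ++ b ++ y' := by
        rw [hB1]
        conv_rhs => rw [hbsp]
        rw [app_append, app_cons]
        conv_rhs => rw [hsp]
        simp [List.append_assoc]
      have hpl : (app φ (app (pw φ Q) (b'.take k) ++ (pw φ Q β).take μ)).length =
          (app φ x').length + p' := by
        rw [app_append, List.length_append, ← app_pw_succ, ← hμ2', hofs]
      obtain ⟨p3, q3, hb3, hp3⟩ := ld_cut H.ne _ _ _ _ _ e hc2 (by omega) (by omega)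
      apply h6
      refine ⟨p3.length, ?_, ?_, ?_⟩
      · rw [hb3, List.length_append, List.length_cons]
        omega
      · have h7 : (app φ x').length + p' = (app φ x').length + (app φ p3).length := by
          rw [← hpl, hp3, app_append, List.length_append]
        have h8 : b.take p3.length = p3 := by
          rw [hb3]
          exact List.take_left' rfl
        rw [h8]
        omega
      · rw [he, hb3, List.getElem?_append_right le_rfl, Nat.sub_self]
        rfl

end Pool.H868.Pal
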