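import Pool.Agent.Helper868.Pal.Defs
import Pool.Agent.Helper868.Pal.P_close_occ
import Pool.Agent.Helper868.Pal.P_locate

set_option autoImplicit false

namespace Pool.H868.Pal



theorem nb_pre {α : Type} {ψ : α → List α} {v w : List α} (h : v <+: w) :
    app ψ v <+: app ψ w := by
  obtain ⟨r, rfl⟩ := h
  exact ⟨app ψ r, by simp⟩

theorem nb_len {α : Type} {ψ : α → List α} (D M : ℕ) (h : ∀ b, M ≤ D * (ψ b).length)
    (x : List α) : x.length * M ≤ D * (app ψ x).length := by
  induction x with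
  | nil => simp
  | cons b x ih =>
    have h1 := h b
    rw [List.length_cons, app_cons, List.length_append, Nat.mul_add, Nat.add_mul, Nat.one_mul]
    omega

theorem nb_strict {α : Type} {φ : α → List α} (ne : ∀ a, φ a ≠ []) (Z : List α) (j k : ℕ)
    (hjk : j < k) (hk : k ≤ Z.length) :
    (app φ (Z.take j)).length < (app φ (Z.take k)).length := by
  have h1 : Z.take k = Z.take j ++ (Z.take k).drop j := by
    have h2 := (List.take_append_drop j (Z.take k)).symm
    rwa [List.take_take, min_eq_left hjk.le] at h2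
  rw [h1, app_append, List.length_append]
  have h3 := length_le_app φ ne ((Z.take k).drop j)
  rw [List.length_drop, List.length_take] at h3
  omega

theorem nb_final {α : Type} {φ : α → List α} {L : Set (List α)} (H : Sys φ L)
    (C : ℕ) (hC : ∀ w ∈ L, ∀ (v : List α) (s δ : ℕ), 0 < δ → C * δ ≤ v.length →
      (w.drop s).take v.length = v → (w.drop (s + δ)).take v.length = v → False)
    (D : ℕ) (hD1 : 1 ≤ D) (hD : ∀ n a b, (pw φ n a).length ≤ D * (pw φ n b).length)
    (t : ℕ) (ht : ∀ s, t ≤ s → ∀ a, C * D + 1 ≤ (pw φ s a).length)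
    (m r : ℕ) (A : List α) (β : α) (κ : ℕ) (a0 : α) (A' : List α) (hA : A ∈ L)
    (hAc : A = a0 :: A') (hκ : κ < (pw φ t a0).length)
    (s ofs : ℕ) (hbad : BadAt φ ((m + 1) + t) A β s ofs)
    (h1 : (app (pw φ (m + 1)) ((pw φ t a0).take κ)).length ≤ s)
    (h2 : s < (app (pw φ (m + 1)) ((pw φ t a0).take (κ + 1))).length)
    (s' ofs' : ℕ) (hbad' : BadAt φ ((m + r + 1 + 1) + t) A β s' ofs')
    (h1' : (app (pw φ (m + r + 1 + 1)) ((pw φ t a0).take κ)).length ≤ s')
    (h2' : s' < (app (pw φ (m + r + 1 + 1)) ((pw φ t a0).take (κ + 1))).length) : False := by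
  have hsub : ∀ n, ∀ w ∈ L, app (pw φ n) w ∈ L := by
    intro n
    induction n with
    | zero => intro w hw; rw [app_pw_zero]; exact hw
    | succ n ih => intro w hw; rw [app_pw_succ]; exact H.sub _ (ih w hw)
  obtain ⟨⟨S, T, hST, hS⟩, hofs, -⟩ := hbad
  obtain ⟨⟨S', T', hST', hS'⟩, hofs', ν, e, hν, hνs, hno⟩ := hbad'
  -- lift level P to level Q
  have eQ : (m + r + 1 + 1) + t = (r + 1) + ((m + 1) + t) := by ring
  have eQ1 : (m + r + 1 + 1) + t - 1 = r + ((m + 1) + t) := by omega
  have hlift : app (pw φ ((m + r + 1 + 1) + t)) A =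
      app (pw φ (r + 1)) S ++ pw φ ((m + r + 1 + 1) + t) β ++ app (pw φ (r + 1)) T := by
    rw [eQ, app_pw_add, hST, app_append, app_append, pw_add φ (r + 1) (m + 1 + t)]
  have hlift1 : app (pw φ ((m + r + 1 + 1) + t - 1)) A =
      app (pw φ r) S ++ pw φ ((m + r + 1 + 1) + t - 1) β ++ app (pw φ r) T := by
    rw [eQ1, app_pw_add, hST, app_append, app_append, pw_add φ r (m + 1 + t)]
  set σ := (app (pw φ (r + 1)) S).length with hσ
  -- prefixes at level P
  have hWA : ∀ k, (pw φ t a0).take k <+: app (pw φ t) A := by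
    intro k
    rw [hAc, app_cons]
    exact (List.take_prefix k _).trans (List.prefix_append _ _)
  have hpre : ∀ k, app (pw φ (m + 1)) ((pw φ t a0).take k) <+: app (pw φ ((m + 1) + t)) A := by
    intro k
    rw [app_pw_add φ (m + 1) t]
    exact nb_pre (hWA k)
  have hSpre : S <+: app (pw φ ((m + 1) + t)) A := by
    rw [hST, List.append_assoc]
    exact List.prefix_append _ _
  have hb1 : app (pw φ (m + 1)) ((pw φ t a0).take κ) <+: S :=
    List.prefix_of_prefix_length_le (hpre κ) hSpre (by rw [hS]; exact h1)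
  have hb2 : S <+: app (pw φ (m + 1)) ((pw φ t a0).take (κ + 1)) :=
    List.prefix_of_prefix_length_le hSpre (hpre (κ + 1)) (by rw [hS]; exact h2.le)
  have eR : m + r + 1 + 1 = (r + 1) + (m + 1) := by ring
  have hc1 : (app (pw φ (m + r + 1 + 1)) ((pw φ t a0).take κ)).length ≤ σ := by
    rw [eR, app_pw_add φ (r + 1) (m + 1)]
    exact (nb_pre hb1).length_le
  have hc2 : σ ≤ (app (pw φ (m + r + 1 + 1)) ((pw φ t a0).take (κ + 1))).length := by
    rw [eR, app_pw_add φ (r + 1) (m + 1)]
    exact (nb_pre hb2).length_le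
  -- the difference
  have hdiff : (app (pw φ (m + r + 1 + 1)) ((pw φ t a0).take (κ + 1))).length =
      (app (pw φ (m + r + 1 + 1)) ((pw φ t a0).take κ)).length +
      (pw φ (m + r + 1 + 1) ((pw φ t a0)[κ])).length := by
    rw [← List.take_append_getElem hκ, app_append, List.length_append, app_singleton]
  set c := (pw φ t a0)[κ] with hc
  have hv : C * (pw φ (m + r + 1 + 1) c).length ≤ (pw φ ((m + r + 1 + 1) + t) β).length := by
    rw [pw_add φ (m + r + 1 + 1) t]
    have h3 := nb_len (ψ := pw φ (m + r + 1 + 1)) D (pw φ (m + r + 1 + 1) c).length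
      (fun b => hD _ c b) (pw φ t β)
    have h4 := ht t le_rfl β
    have h5 : C * D * (pw φ (m + r + 1 + 1) c).length ≤
        D * (app (pw φ (m + r + 1 + 1)) (pw φ t β)).length :=
      (Nat.mul_le_mul_right _ (by omega : C * D ≤ (pw φ t β).length)).trans h3
    have h6 : D * (C * (pw φ (m + r + 1 + 1) c).length) ≤
        D * (app (pw φ (m + r + 1 + 1)) (pw φ t β)).length := by
      refine le_trans (le_of_eq ?_) h5
      ring
    exact Nat.le_of_mul_le_mul_left h6 hD1
  have hocc1 : ((app (pw φ ((m + r + 1 + 1) + t)) A).drop σ).take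
      (pw φ ((m + r + 1 + 1) + t) β).length = pw φ ((m + r + 1 + 1) + t) β := by
    rw [hlift, List.append_assoc, hσ, List.drop_left, List.take_left]
  have hocc2 : ((app (pw φ ((m + r + 1 + 1) + t)) A).drop s').take
      (pw φ ((m + r + 1 + 1) + t) β).length = pw φ ((m + r + 1 + 1) + t) β := by
    rw [hST', List.append_assoc, ← hS', List.drop_left, List.take_left]
  have hσs : σ = s' := by
    rcases lt_trichotomy σ s' with h | h | h
    · exfalso
      refine hC _ (hsub ((m + r + 1 + 1) + t) A hA) (pw φ ((m + r + 1 + 1) + t) β) σ (s' - σ)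
        (by omega) ?_ hocc1 ?_
      · exact (Nat.mul_le_mul_left C (by omega)).trans hv
      · rw [Nat.add_sub_cancel' h.le]
        exact hocc2
    · exact h
    · exfalso
      refine hC _ (hsub ((m + r + 1 + 1) + t) A hA) (pw φ ((m + r + 1 + 1) + t) β) s' (σ - s')
        (by omega) ?_ hocc2 ?_
      · exact (Nat.mul_le_mul_left C (by omega)).trans hv
      · rw [Nat.add_sub_cancel' h.le]
        exact hocc1
  -- conclusion
  set Y := pw φ ((m + r + 1 + 1) + t - 1) β with hY
  set S1 := app (pw φ r) S with hS1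
  set T1 := app (pw φ r) T with hT1
  have hφS1 : (app φ S1).length = s' := by
    rw [hS1, ← app_pw_succ, ← hσs]
  have hφY : app φ Y = pw φ ((m + r + 1 + 1) + t) β := by
    rw [hY, ← pw_succ]
    congr 1
    omega
  rw [hlift1] at hν hνs
  have hν1 : S1.length ≤ ν := by
    by_contra hcon
    push Not at hcon
    have h7 := nb_strict H.ne (S1 ++ Y ++ T1) ν S1.length hcon (by
      rw [List.length_append, List.length_append]; omega)
    rw [List.append_assoc, List.take_left, ← List.append_assoc, hφS1] at h7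
    omega
  obtain ⟨μ, rfl⟩ : ∃ μ, ν = S1.length + μ := ⟨ν - S1.length, by omega⟩
  have h8 : (S1 ++ Y ++ T1).take (S1.length + μ) = S1 ++ (Y ++ T1).take μ := by
    rw [List.append_assoc, List.take_length_add_append]
  rw [h8, app_append, List.length_append, hφS1] at hνs
  have hofs1 : ofs' = (app φ ((Y ++ T1).take μ)).length := by omega
  have hμ : μ < Y.length := by
    by_contra hcon
    push Not at hcon
    rw [List.take_append, List.take_of_length_le hcon, app_append, List.length_append, hφY]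
      at hofs1
    omega
  rw [List.take_append_of_le_length hμ.le] at hofs1
  refine hno ⟨μ, ?_, hofs1⟩
  rw [List.append_assoc, List.getElem?_append_right (Nat.le_add_right _ _),
    Nat.add_sub_cancel_left, List.getElem?_append_left hμ] at hν
  exact hν

theorem no_bad {α : Type} [Fintype α] {φ : α → List α} {L : Set (List α)} (H : Sys φ L) (l : ℕ)
    (hdata : ∀ P : ℕ, 1 ≤ P → ∃ (A : List α) (β : α) (s ofs : ℕ), A ∈ L ∧ A.length ≤ l ∧
      (∃ a0 A', A = a0 :: A' ∧ s < (pw φ P a0).length) ∧ BadAt φ P A β s ofs) : False := by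
  classical
  obtain ⟨C, hC1, hC⟩ := close_occ H
  obtain ⟨D, hD1, hD⟩ := H.ratio
  obtain ⟨t, ht⟩ := H.growth (C * D + 1)
  have key : ∀ m : ℕ, ∃ (A : List α) (β : α) (s ofs κ : ℕ) (a0 : α) (A' : List α), A ∈ L ∧
      A.length ≤ l ∧ A = a0 :: A' ∧ BadAt φ ((m + 1) + t) A β s ofs ∧
      κ < (pw φ t a0).length ∧
      (app (pw φ (m + 1)) ((pw φ t a0).take κ)).length ≤ s ∧
      s < (app (pw φ (m + 1)) ((pw φ t a0).take (κ + 1))).length := by
    intro m
    obtain ⟨A, β, s, ofs, hA, hAl, ⟨a0, A', hAc, hs⟩, hbad⟩ := hdata ((m + 1) + t) (by omega)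
    rw [pw_add φ (m + 1) t] at hs
    obtain ⟨κ, hκ, h1, h2⟩ := locate (pw_ne_nil φ H.ne (m + 1)) (pw φ t a0) s hs
    exact ⟨A, β, s, ofs, κ, a0, A', hA, hAl, hAc, hbad, hκ, h1, h2⟩
  choose A β s ofs κ a0 A' hA hAl hAc hbad hκ h1 h2 using key
  have hN : ∀ m, κ m < ∑ a, (pw φ t a).length := fun m =>
    lt_of_lt_of_le (hκ m) (Finset.single_le_sum (f := fun a => (pw φ t a).length)
      (fun _ _ => Nat.zero_le _) (Finset.mem_univ (a0 m)))
  haveI : Finite {w : List α // w.length ≤ l} := (List.finite_length_le α l).to_subtype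
  let f : ℕ → {w : List α // w.length ≤ l} × α × Fin (∑ a, (pw φ t a).length) :=
    fun m => (⟨A m, hAl m⟩, β m, ⟨κ m, hN m⟩)
  obtain ⟨m, m', hne, heq⟩ := Finite.exists_ne_map_eq_of_infinite f
  have fin : ∀ m m', m < m' → f m = f m' → False := by
    intro m m' hlt heq
    obtain ⟨r, rfl⟩ := Nat.exists_eq_add_of_lt hlt
    have e1 : A (m + r + 1) = A m := (congrArg (fun x => x.1.1) heq).symm
    have e2 : β (m + r + 1) = β m := (congrArg (fun x => x.2.1) heq).symm
    have e3 : κ (m + r + 1) = κ m := (congrArg (fun x => x.2.2.1) heq).symm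
    have e4 : a0 (m + r + 1) = a0 m := by
      have h3 := hAc (m + r + 1)
      rw [e1, hAc m] at h3
      exact (List.cons.inj h3).1.symm
    have b := hbad (m + r + 1)
    have g1 := h1 (m + r + 1)
    have g2 := h2 (m + r + 1)
    rw [e1, e2] at b
    rw [e3, e4] at g1 g2
    exact nb_final H C hC D hD1 hD t ht m r (A m) (β m) (κ m) (a0 m) (A' m) (hA m) (hAc m) (hκ m)
      (s m) (ofs m) (hbad m) (h1 m) (h2 m) (s (m + r + 1)) (ofs (m + r + 1)) b g1 g2
  rcases lt_or_gt_of_ne hne with h | h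
  · exact fin m m' h heq
  · exact fin m' m h heq.symm

end Pool.H868.Pal
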