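import Pool.Agent.Helper868.Pal.Defs
import Pool.Agent.Helper868.Pal.P_level_data
import Pool.Agent.Helper868.Pal.P_no_bad

set_option autoImplicit false

namespace Pool.H868.Pal

theorem rec_cut {α : Type} [Fintype α] {φ : α → List α} {L : Set (List α)} (H : Sys φ L) :
    ∃ N : ℕ, ∀ a ∈ L, ∀ b ∈ L, ∀ m p' : ℕ, m < a.length →
      N ≤ (app φ (a.take m)).length → (app φ (a.take m)).length + N ≤ (app φ a).length →
      N ≤ p' → p' + N ≤ (app φ b).length →
      (∀ t, t < 2 * N →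
        (app φ a)[(app φ (a.take m)).length - N + t]? = (app φ b)[p' - N + t]?) →
      ∃ m', m' < b.length ∧ p' = (app φ (b.take m')).length ∧ a[m]? = b[m']? := by
  by_contra hc
  push Not at hc
  obtain ⟨D, hD, hr⟩ := H.ratio
  refine no_bad H (2 * D + 1) (level_data H D hD hr ?_)
  intro N
  obtain ⟨a, ha, b, hb, m, p', h1, h2, h3, h4, h5, h6, h7⟩ := hc N
  refine ⟨a, ha, b, hb, m, p', h1, h2, h3, h4, h5, h6, ?_⟩
  rintro ⟨m', h8, h9, h10⟩
  exact h7 m' h8 h9 h10

end Pool.H868.Pal
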