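import Pool.Agent.Helper868.Pal.Defs
import Pool.Agent.Helper868.Pal.P_rec_cut

set_option autoImplicit false

namespace Pool.H868.Pal



theorem lsi_win_prefix {α : Type} (u : ℕ → α) {n m : ℕ} (h : n ≤ m) :
    win u 0 n <+: win u 0 m := by
  obtain ⟨k, rfl⟩ := Nat.exists_eq_add_of_le h
  rw [win_add]
  exact List.prefix_append _ _

theorem lsi_left {α : Type} [Fintype α] {φ : α → List α} {L : Set (List α)} (H : Sys φ L)
    (v : ℕ → List α) (hv : ∀ n, v n ∈ L) (hp : ∀ n m, n ≤ m → v n <+: v m) (K : ℕ) :
    ∃ s : List α, s.length = K ∧ ∀ n, s ++ v n ∈ L := by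
  have hex : ∀ n, ∃ s : List α, s.length = K ∧ s ++ v n ∈ L := by
    intro n
    induction K with
    | zero => exact ⟨[], rfl, hv n⟩
    | succ K ih =>
      obtain ⟨s, hs, hsL⟩ := ih
      obtain ⟨c, hc⟩ := H.extl _ hsL
      exact ⟨c :: s, by rw [List.length_cons, hs], hc⟩
  by_contra hcon
  push Not at hcon
  have h2 : ∀ s : List α, ∃ n, s.length = K → s ++ v n ∉ L := by
    intro s
    by_cases h : s.length = K
    · obtain ⟨n, hn⟩ := hcon s h
      exact ⟨n, fun _ => hn⟩
    · exact ⟨0, fun h' => absurd h' h⟩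
  choose nf hnf using h2
  obtain ⟨s, hs, hsL⟩ := hex ((List.finite_length_eq α K).toFinset.sup nf)
  have h3 : nf s ≤ (List.finite_length_eq α K).toFinset.sup nf :=
    Finset.le_sup (f := nf) ((List.finite_length_eq α K).mem_toFinset.mpr hs)
  apply hnf s hs
  apply H.fact _ _ _ hsL
  exact ((List.prefix_append_right_inj s).mpr (hp _ _ h3)).isInfix

theorem lsi_suffix {α : Type} (X Y : List α) (K : ℕ) (hX : K ≤ X.length) (hY : K ≤ Y.length)
    (h : ¬ ∃ X1 Y1 S : List α, X = X1 ++ S ∧ Y = Y1 ++ S ∧ S.length = K) :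
    ∃ (X' Y' : List α) (e e' : α) (p : List α), X = X' ++ e :: p ∧ Y = Y' ++ e' :: p ∧ e ≠ e' := by
  induction K with
  | zero => exact absurd ⟨X, Y, [], by simp, by simp, rfl⟩ h
  | succ K ih =>
    by_cases h2 : ∃ X1 Y1 S : List α, X = X1 ++ S ∧ Y = Y1 ++ S ∧ S.length = K
    · obtain ⟨X1, Y1, S, hX1, hY1, hS⟩ := h2
      have hX1n : X1 ≠ [] := by
        rintro rfl
        rw [hX1] at hX
        simp at hX
        omega
      have hY1n : Y1 ≠ [] := by
        rintro rfl
        rw [hY1] at hY
        simp at hY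
        omega
      obtain ⟨X2, e, rfl⟩ : ∃ X2 e, X1 = X2 ++ [e] :=
        ⟨X1.dropLast, X1.getLast hX1n, (List.dropLast_append_getLast hX1n).symm⟩
      obtain ⟨Y2, e', rfl⟩ : ∃ Y2 e', Y1 = Y2 ++ [e'] :=
        ⟨Y1.dropLast, Y1.getLast hY1n, (List.dropLast_append_getLast hY1n).symm⟩
      refine ⟨X2, Y2, e, e', S, by rw [hX1]; simp, by rw [hY1]; simp, ?_⟩
      rintro rfl
      exact h ⟨X2, Y2, e :: S, by rw [hX1]; simp, by rw [hY1]; simp, by rw [List.length_cons, hS]⟩
    · exact ih (by omega) (by omega) h2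

theorem lsi_mono {α : Type} {φ : α → List α} (hne : ∀ a, φ a ≠ []) (B : List α) {k k' : ℕ}
    (h : k < k') (hk : k' ≤ B.length) :
    (app φ (B.take k)).length < (app φ (B.take k')).length := by
  obtain ⟨d, rfl⟩ := Nat.exists_eq_add_of_lt h
  have e1 : B.take (k + d + 1) = B.take k ++ (B.drop k).take (d + 1) := by
    rw [add_assoc, List.take_add]
  rw [e1, app_append, List.length_append]
  have h2 := length_le_app φ hne ((B.drop k).take (d + 1))
  rw [List.length_take, List.length_drop] at h2
  omega

theorem lsi_inj {α : Type} {φ : α → List α} (hne : ∀ a, φ a ≠ []) (B : List α) {k k' : ℕ}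
    (hk : k ≤ B.length) (hk' : k' ≤ B.length)
    (h : (app φ (B.take k)).length = (app φ (B.take k')).length) : k = k' := by
  rcases lt_trichotomy k k' with h1 | h1 | h1
  · have := lsi_mono hne B h1 hk'
    omega
  · exact h1
  · have := lsi_mono hne B h1 hk
    omega

theorem lsi_get {α : Type} (X S : List α) (i : ℕ) : (X ++ S)[X.length + i]? = S[i]? := by
  rw [List.getElem?_append_right (by omega), Nat.add_sub_cancel_left]

theorem lsi_nosuffix {α : Type} [Fintype α] {φ : α → List α} {L : Set (List α)} (H : Sys φ L)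
    {w : ℕ → α} {a b : α} (hab : a ≠ b) (M N : ℕ) (hM : ∀ c, (φ c).length ≤ M)
    (hN : ∀ a ∈ L, ∀ b ∈ L, ∀ m p' : ℕ, m < a.length →
      N ≤ (app φ (a.take m)).length → (app φ (a.take m)).length + N ≤ (app φ a).length →
      N ≤ p' → p' + N ≤ (app φ b).length →
      (∀ t, t < 2 * N →
        (app φ a)[(app φ (a.take m)).length - N + t]? = (app φ b)[p' - N + t]?) →
      ∃ m', m' < b.length ∧ p' = (app φ (b.take m')).length ∧ a[m]? = b[m']?)
    (s s' : List α) (hs : s.length = N + M) (hs' : s'.length = N + M)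
    (hA : s ++ a :: win w 0 (N + 1) ∈ L) (hB : s' ++ b :: win w 0 (N + 1) ∈ L) :
    ¬ ∃ X1 Y1 S : List α, app φ (s ++ [a]) = X1 ++ S ∧ app φ (s' ++ [b]) = Y1 ++ S ∧
      S.length = N + M := by
  rintro ⟨X1, Y1, S, hX, hY, hS⟩
  have hMa := hM a
  obtain ⟨Z, hZ⟩ : ∃ Z, Z = app φ (win w 0 (N + 1)) := ⟨_, rfl⟩
  have hZl : N + 1 ≤ Z.length := by
    have := length_le_app φ H.ne (win w 0 (N + 1))
    rw [length_win] at this
    rw [hZ]; exact this
  have hXl : X1.length + (N + M) = (app φ s).length + (φ a).length := by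
    have := congrArg List.length hX
    rw [app_append, app_singleton, List.length_append, List.length_append, hS] at this
    omega
  have hYl : Y1.length + (N + M) = (app φ s').length + (φ b).length := by
    have := congrArg List.length hY
    rw [app_append, app_singleton, List.length_append, List.length_append, hS] at this
    omega
  have hsl : N + M ≤ (app φ s).length := by
    have := length_le_app φ H.ne s
    omega
  have hsl' : N + M ≤ (app φ s').length := by
    have := length_le_app φ H.ne s'
    omega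
  have hAe : app φ (s ++ a :: win w 0 (N + 1)) = X1 ++ (S ++ Z) := by
    have e : s ++ a :: win w 0 (N + 1) = (s ++ [a]) ++ win w 0 (N + 1) := by simp
    rw [e, app_append, hX, hZ, List.append_assoc]
  have hBe : app φ (s' ++ b :: win w 0 (N + 1)) = Y1 ++ (S ++ Z) := by
    have e : s' ++ b :: win w 0 (N + 1) = (s' ++ [b]) ++ win w 0 (N + 1) := by simp
    rw [e, app_append, hY, hZ, List.append_assoc]
  have htA : (s ++ a :: win w 0 (N + 1)).take s.length = s := List.take_left' rfl
  have hφb : 1 ≤ (φ b).length := List.length_pos_iff.mpr (H.ne b)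
  have hφa : 1 ≤ (φ a).length := List.length_pos_iff.mpr (H.ne a)
  obtain ⟨m', hm', hp', hlet⟩ := hN _ hA _ hB s.length (Y1.length + (N + M) - (φ a).length)
    (by rw [List.length_append, List.length_cons]; omega)
    (by rw [htA]; omega)
    (by rw [htA, hAe, List.length_append, List.length_append, hS]; omega)
    (by omega)
    (by rw [hBe, List.length_append, List.length_append, hS]; omega)
    (by
      intro t ht
      rw [htA, hAe, hBe]
      have e1 : (app φ s).length - N + t = X1.length + (M - (φ a).length + t) := by omega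
      have e2 : Y1.length + (N + M) - (φ a).length - N + t =
          Y1.length + (M - (φ a).length + t) := by omega
      rw [e1, e2, lsi_get, lsi_get])
  have hlet1 : (s ++ a :: win w 0 (N + 1))[s.length]? = some a := by
    rw [List.getElem?_append_right le_rfl]; simp
  rw [hlet1] at hlet
  have htake : (s' ++ b :: win w 0 (N + 1)).take (m' + 1) =
      (s' ++ b :: win w 0 (N + 1)).take m' ++ [a] := by
    rw [List.take_add_one, ← hlet]; rfl
  have htB : (s' ++ b :: win w 0 (N + 1)).take (s'.length + 1) = s' ++ [b] := by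
    have e : s' ++ b :: win w 0 (N + 1) = (s' ++ [b]) ++ win w 0 (N + 1) := by simp
    rw [e]
    exact List.take_left' (by simp)
  have hlen : (app φ ((s' ++ b :: win w 0 (N + 1)).take (m' + 1))).length =
      (app φ ((s' ++ b :: win w 0 (N + 1)).take (s'.length + 1))).length := by
    rw [htake, htB, app_append, app_singleton, List.length_append, ← hp', hY, List.length_append,
      hS]
    omega
  have hmm := lsi_inj H.ne _ (by omega)
    (by rw [List.length_append, List.length_cons]; omega) hlen
  have hm2 : m' = s'.length := by omega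
  rw [hm2, List.getElem?_append_right le_rfl] at hlet
  simp at hlet
  exact hab hlet

theorem lsi_mem {α : Type} {φ : α → List α} {L : Set (List α)} (H : Sys φ L)
    {w z : ℕ → α} (hz : Im φ w z) (s X' p : List α) (a e : α) (hs : ∀ n, s ++ a :: win w 0 n ∈ L)
    (hX : app φ (s ++ [a]) = X' ++ e :: p) (w' : ℕ → α)
    (hw' : ∀ k, win w' 0 (p.length + k) = p ++ win z 0 k) (n : ℕ) : e :: win w' 0 n ∈ L := by
  have h1 : e :: win w' 0 (p.length + n) ∈ L := by
    rw [hw']
    have h2 := H.sub _ (hs n)
    have e1 : s ++ a :: win w 0 n = (s ++ [a]) ++ win w 0 n := by simp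
    rw [e1, app_append, hX, hz n] at h2
    apply H.fact _ _ _ h2
    have h3 : n ≤ (app φ (win w 0 n)).length := by
      have := length_le_app φ H.ne (win w 0 n)
      rwa [length_win] at this
    obtain ⟨r, hr⟩ := lsi_win_prefix z h3
    refine ⟨X', r, ?_⟩
    rw [← hr]
    simp
  apply H.fact _ _ _ h1
  have h4 : win w' 0 n <+: win w' 0 (p.length + n) := lsi_win_prefix w' (by omega)
  exact ((List.prefix_cons_inj e).mpr h4).isInfix

theorem lsp_image {α : Type} [Fintype α] {φ : α → List α} {L : Set (List α)} (H : Sys φ L)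
    {w z : ℕ → α} (hw : LSp L w) (hz : Im φ w z) : ∃ w', LSp L w' ∧ Tl w' z := by
  obtain ⟨a, b, hab, hL⟩ := hw
  obtain ⟨N, hN⟩ := rec_cut H
  obtain ⟨M, hM⟩ : ∃ M, ∀ c, (φ c).length ≤ M :=
    ⟨Finset.univ.sup (fun c => (φ c).length),
      fun c => Finset.le_sup (f := fun c => (φ c).length) (Finset.mem_univ c)⟩
  obtain ⟨s, hs, hsL⟩ := lsi_left H (fun n => a :: win w 0 n) (fun n => (hL n).1)
    (fun n m h => (List.prefix_cons_inj a).mpr (lsi_win_prefix w h)) (N + M)
  obtain ⟨s', hs', hsL'⟩ := lsi_left H (fun n => b :: win w 0 n) (fun n => (hL n).2)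
    (fun n m h => (List.prefix_cons_inj b).mpr (lsi_win_prefix w h)) (N + M)
  have hno := lsi_nosuffix H (w := w) hab M N hM hN s s' hs hs' (hsL (N + 1)) (hsL' (N + 1))
  have hXl : N + M ≤ (app φ (s ++ [a])).length := by
    have := length_le_app φ H.ne (s ++ [a])
    rw [List.length_append, hs] at this
    omega
  have hYl : N + M ≤ (app φ (s' ++ [b])).length := by
    have := length_le_app φ H.ne (s' ++ [b])
    rw [List.length_append, hs'] at this
    omega
  obtain ⟨X', Y', e, e', p, hX, hY, hee⟩ := lsi_suffix _ _ _ hXl hYl hno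
  obtain ⟨w', hw'⟩ : ∃ w' : ℕ → α, w' = fun i =>
      if h : i < p.length then p[i] else z (i - p.length) := ⟨_, rfl⟩
  have hwin : ∀ k, win w' 0 (p.length + k) = p ++ win z 0 k := by
    intro k
    rw [win_add]
    congr 1
    · apply List.ext_getElem
      · simp
      · intro i h1 h2
        simp only [win, List.getElem_map, List.getElem_range, zero_add, hw', dif_pos h2]
    · unfold win
      apply List.map_congr_left
      intro i _
      rw [hw']
      simp
  refine ⟨w', ⟨e, e', hee, fun n => ⟨?_, ?_⟩⟩, p.length, 0, ?_⟩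
  · exact lsi_mem H hz s X' p a e hsL hX w' hwin n
  · exact lsi_mem H hz s' Y' p b e' hsL' hY w' hwin n
  · intro k
    rw [hw']
    simp

end Pool.H868.Pal
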