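import Pool.Agent.Helper868.Pal.Defs
import Pool.Agent.Helper868.Pal.P_rec_cut

set_option autoImplicit false

namespace Pool.H868.Pal



theorem tl_inj_cs {α : Type} (φ : α → List α) (w : ℕ → α) (m : ℕ) :
    (app φ (win w 0 (m + 1))).length = (app φ (win w 0 m)).length + (φ (w m)).length := by
  rw [win_add, app_append, List.length_append]
  have : win w (0 + m) 1 = [w m] := by simp [win]
  rw [this, app_singleton]

theorem tl_inj_cm {α : Type} {φ : α → List α} (h : ∀ a, φ a ≠ []) (w : ℕ → α) (m k : ℕ) :
    (app φ (win w 0 m)).length + k ≤ (app φ (win w 0 (m + k))).length := by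
  induction k with
  | zero => simp
  | succ k ih =>
    have h1 := tl_inj_cs φ w (m + k)
    have h2 : 1 ≤ (φ (w (m + k))).length := List.length_pos_iff.mpr (h _)
    have h3 : m + (k + 1) = m + k + 1 := by omega
    rw [h3, h1]
    omega

theorem tl_inj_take {α : Type} (w : ℕ → α) (m n : ℕ) (h : m ≤ n) :
    (win w 0 n).take m = win w 0 m := by
  obtain ⟨k, rfl⟩ := Nat.exists_eq_add_of_le h
  rw [win_add]
  exact List.take_left' (by simp)

theorem tl_inj_lt {α : Type} {φ : α → List α} (h : ∀ a, φ a ≠ []) (w : ℕ → α) (m n : ℕ)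
    (he : (app φ (win w 0 m)).length = (app φ (win w 0 n)).length) : m = n := by
  rcases lt_trichotomy m n with h1 | h1 | h1
  · obtain ⟨k, rfl⟩ := Nat.exists_eq_add_of_lt h1
    have := tl_inj_cm h w m (k + 1)
    have h3 : m + (k + 1) = m + k + 1 := by omega
    rw [h3] at this
    omega
  · exact h1
  · obtain ⟨k, rfl⟩ := Nat.exists_eq_add_of_lt h1
    have := tl_inj_cm h w n (k + 1)
    have h3 : n + (k + 1) = n + k + 1 := by omega
    rw [h3] at this
    omega

theorem tl_inj {α : Type} [Fintype α] {φ : α → List α} {L : Set (List α)} (H : Sys φ L)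
    {w w' z z' : ℕ → α} (hw : InfL L w) (hw' : InfL L w') (hz : Im φ w z) (hz' : Im φ w' z')
    (h : Tl z z') : Tl w w' :=  by
  obtain ⟨i, j, hij⟩ := h
  obtain ⟨N, hN⟩ := rec_cut H
  have key : ∀ k : ℕ, ∃ m' : ℕ,
      (app φ (win w 0 (i + N + k))).length - i + j = (app φ (win w' 0 m')).length ∧
      w (i + N + k) = w' m' := by
    intro k
    have hcm : i + N + k ≤ (app φ (win w 0 (i + N + k))).length := by
      have := length_le_app φ H.ne (win w 0 (i + N + k))
      simpa using this
    obtain ⟨c, hc⟩ : ∃ c, c = (app φ (win w 0 (i + N + k))).length := ⟨_, rfl⟩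
    rw [← hc] at hcm ⊢
    have htake : (win w 0 (i + N + k + N + 1)).take (i + N + k) = win w 0 (i + N + k) :=
      tl_inj_take w _ _ (by omega)
    have hlen : c + N + 1 ≤ (app φ (win w 0 (i + N + k + N + 1))).length := by
      have := tl_inj_cm H.ne w (i + N + k) (N + 1)
      rw [← hc] at this
      have h3 : i + N + k + (N + 1) = i + N + k + N + 1 := by omega
      rw [h3] at this
      omega
    have hlen' : c - i + j + N ≤ (app φ (win w' 0 (c - i + j + N))).length := by
      have := length_le_app φ H.ne (win w' 0 (c - i + j + N))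
      simpa using this
    obtain ⟨m', hm1, hm2, hm3⟩ := hN (win w 0 (i + N + k + N + 1)) (hw _ _)
      (win w' 0 (c - i + j + N)) (hw' _ _) (i + N + k) (c - i + j)
      (by rw [length_win]; omega)
      (by rw [htake, ← hc]; omega)
      (by rw [htake, ← hc]; omega)
      (by omega)
      hlen'
      (by
        intro t ht
        rw [htake, ← hc, hz, hz']
        rw [getElem?_win _ _ _ _ (by omega), getElem?_win _ _ _ _ (by omega)]
        have h1 := hij (c - N + t - i)
        congr 1
        have e1 : 0 + (c - N + t) = i + (c - N + t - i) := by omega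
        have e2 : 0 + (c - i + j - N + t) = j + (c - N + t - i) := by omega
        rw [e1, e2, h1])
    rw [length_win] at hm1
    refine ⟨m', ?_, ?_⟩
    · rw [hm2, tl_inj_take w' _ _ hm1.le]
    · rw [getElem?_win _ _ _ _ (by omega), getElem?_win _ _ _ _ (by omega)] at hm3
      simpa using hm3
  choose g hg1 hg2 using key
  have hstep : ∀ k, g (k + 1) = g k + 1 := by
    intro k
    apply tl_inj_lt H.ne w'
    rw [tl_inj_cs, ← hg1 k, ← hg1 (k + 1), ← add_assoc, tl_inj_cs, hg2 k]
    have hcm : i + N + k ≤ (app φ (win w 0 (i + N + k))).length := by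
      have := length_le_app φ H.ne (win w 0 (i + N + k))
      simpa using this
    omega
  have hg : ∀ k, g k = g 0 + k := by
    intro k
    induction k with
    | zero => rfl
    | succ k ih => rw [hstep, ih]; rfl
  refine ⟨i + N, g 0, fun k => ?_⟩
  rw [hg2 k, hg k]

end Pool.H868.Pal
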