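import Pool.Agent.Helper868.Pal.Defs

set_option autoImplicit false

namespace Pool.H868.Pal

theorem tl_trans {α : Type} {x y z : ℕ → α} (h : Tl x y) (h' : Tl y z) : Tl x z := by
  obtain ⟨i, j, h⟩ := h
  obtain ⟨i', j', h'⟩ := h'
  refine ⟨i + i', j' + j, fun k => ?_⟩
  have h1 := h (i' + k)
  have h2 := h' (j + k)
  rw [show i + i' + k = i + (i' + k) by ring, h1,
    show j + (i' + k) = i' + (j + k) by ring, h2]
  congr 1; ring

end Pool.H868.Pal
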