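import Pool.Agent.Helper868.Pal.Defs
import Pool.Agent.Helper868.Pal.P_im_exists
import Pool.Agent.Helper868.Pal.P_tl_trans
import Pool.Agent.Helper868.Pal.P_im_tl
import Pool.Agent.Helper868.Pal.P_im_comp
import Pool.Agent.Helper868.Pal.P_tl_inj
import Pool.Agent.Helper868.Pal.P_lsp_infL
import Pool.Agent.Helper868.Pal.P_lsp_image
import Pool.Agent.Helper868.Pal.P_lsp_finite

set_option autoImplicit false

namespace Pool.H868.Pal



theorem tl_refl' {α : Type} (x : ℕ → α) : Tl x x := ⟨0, 0, fun _ => rfl⟩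

theorem tl_symm' {α : Type} {x y : ℕ → α} (h : Tl x y) : Tl y x := by
  obtain ⟨i, j, h⟩ := h
  exact ⟨j, i, fun k => (h k).symm⟩

theorem im_pw_zero' {α : Type} {φ : α → List α} {w z : ℕ → α} (h : Im (pw φ 0) w z) : z = w := by
  funext k
  have h1 := h (k + 1)
  rw [app_pw_zero, length_win] at h1
  have h2 := congrArg (fun l => l[k]?) h1
  simp only [getElem?_win _ _ _ _ (Nat.lt_succ_self k)] at h2
  simpa using (Option.some.inj h2).symm

theorem lsp_period {α : Type} [Fintype α] {φ : α → List α} {L : Set (List α)} (H : Sys φ L) :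
    ∃ n : ℕ, 1 ≤ n ∧ ∀ (m : ℕ) (w z : ℕ → α), LSp L w → Im (pw φ (n * m)) w z → Tl z w := by
  classical
  let S : Type := {w : ℕ → α // LSp L w}
  haveI hfin : Finite S := (lsp_finite H).to_subtype
  have hex : ∀ w : S, ∃ w' : S, ∃ z, Im φ w.1 z ∧ Tl w'.1 z := by
    intro w
    obtain ⟨z, hz⟩ := im_exists H.ne w.1
    obtain ⟨w', hw', ht⟩ := lsp_image H w.2 hz
    exact ⟨⟨w', hw'⟩, z, hz, ht⟩
  choose F hF using hex
  let st : Setoid S :=
    { r := fun a b => Tl a.1 b.1
      iseqv := ⟨fun a => tl_refl' a.1, fun h => tl_symm' h, fun h h' => tl_trans h h'⟩ }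
  let Q := Quotient st
  haveI : Finite Q := Quotient.finite st
  have hresp : ∀ a b : S, Tl a.1 b.1 → Tl (F a).1 (F b).1 := by
    intro a b hab
    obtain ⟨z, hz, hz1⟩ := hF a
    obtain ⟨z', hz', hz1'⟩ := hF b
    exact tl_trans hz1 (tl_trans (im_tl H.ne hab hz hz') (tl_symm' hz1'))
  let FQ : Q → Q := Quotient.map' F (fun a b hab => hresp a b hab)
  have hinj : Function.Injective FQ := by
    intro x y
    induction x using Quotient.inductionOn'
    induction y using Quotient.inductionOn'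
    rename_i a b
    intro h
    have h1 : Tl (F a).1 (F b).1 := Quotient.exact' h
    obtain ⟨z, hz, hz1⟩ := hF a
    obtain ⟨z', hz', hz1'⟩ := hF b
    have h2 : Tl z z' := tl_trans (tl_symm' hz1) (tl_trans h1 hz1')
    exact Quotient.sound' (tl_inj H (lsp_infL H a.2) (lsp_infL H b.2) hz hz' h2)
  let e : Equiv.Perm Q := Equiv.ofBijective FQ (Finite.injective_iff_bijective.1 hinj)
  have hfo : IsOfFinOrder e := isOfFinOrder_of_finite e
  have hpos : 0 < orderOf e := orderOf_pos_iff.2 hfo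
  have hiter : ∀ (j : ℕ) (a : S), (e ^ j) (Quotient.mk'' a) = Quotient.mk'' (F^[j] a) := by
    intro j
    induction j with
    | zero => intro a; rfl
    | succ j ih =>
      intro a
      rw [pow_succ', Equiv.Perm.mul_apply, ih, Function.iterate_succ_apply']
      rfl
  have hper : ∀ (m : ℕ) (a : S), Tl (F^[orderOf e * m] a).1 a.1 := by
    intro m a
    have h1 := hiter (orderOf e * m) a
    rw [pow_mul, pow_orderOf_eq_one, one_pow] at h1
    exact Quotient.exact' h1.symm
  have hind : ∀ (j : ℕ) (a : S) (z : ℕ → α), Im (pw φ j) a.1 z → Tl z (F^[j] a).1 := by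
    intro j
    induction j with
    | zero =>
      intro a z hz
      rw [im_pw_zero' hz]
      exact tl_refl' _
    | succ j ih =>
      intro a z hz
      obtain ⟨z1, hz1⟩ := im_exists (φ := pw φ j) (pw_ne_nil φ H.ne j) a.1
      obtain ⟨z2, hz2⟩ := im_exists H.ne z1
      have hz3 := im_comp hz1 hz2
      have h1 : Tl z z2 := im_tl (pw_ne_nil φ H.ne (j + 1)) (tl_refl' a.1) hz hz3
      obtain ⟨z4, hz4, hz5⟩ := hF (F^[j] a)
      have h2 : Tl z2 z4 := im_tl H.ne (ih a z1 hz1) hz2 hz4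
      rw [Function.iterate_succ_apply']
      exact tl_trans h1 (tl_trans h2 (tl_symm' hz5))
  refine ⟨orderOf e, hpos, fun m w z hw hz => ?_⟩
  exact tl_trans (hind _ ⟨w, hw⟩ z hz) (hper m ⟨w, hw⟩)

end Pool.H868.Pal
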