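import Pool.Agent.Helper868.Pal.Defs

set_option autoImplicit false

namespace Pool.H868.Pal



theorem sys_rv {α : Type} [Fintype α] {φ : α → List α} {L : Set (List α)} (H : Sys φ L)
    (hR : RC L) : Sys (rv φ) L := by
  have hlen : ∀ n a, (pw (rv φ) n a).length = (pw φ n a).length := fun n a => by
    rw [pw_rv]; simp [rv]
  refine { ne := fun a h => H.ne a (by simpa [rv] using h), letter := H.letter, fact := H.fact,
           sub := ?_, desub := ?_, extl := H.extl, extr := H.extr, unif := H.unif, pow := H.pow,
           ratio := ?_, growth := ?_, lin := H.lin, spec := H.spec }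
  · intro w hw
    rw [app_rv]
    exact hR _ (H.sub _ (hR _ hw))
  · intro w hw
    obtain ⟨v, hv, hvw⟩ := H.desub w.reverse (hR w hw)
    refine ⟨v.reverse, hR v hv, ?_⟩
    rw [app_rv_reverse]
    have h1 := List.reverse_infix.mpr hvw
    simpa using h1
  · obtain ⟨D, hD, h⟩ := H.ratio
    exact ⟨D, hD, fun n a b => by rw [hlen, hlen]; exact h n a b⟩
  · intro B
    obtain ⟨t, ht⟩ := H.growth B
    exact ⟨t, fun s hs a => by rw [hlen]; exact ht s hs a⟩

end Pool.H868.Pal
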