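import Pool.Agent.Helper868.Pal.Defs
import Pool.Agent.Helper868.Pal.P_sys_rv
import Pool.Agent.Helper868.Pal.P_im_exists
import Pool.Agent.Helper868.Pal.P_lsp_infL
import Pool.Agent.Helper868.Pal.P_lsp_exists
import Pool.Agent.Helper868.Pal.P_lsp_period

set_option autoImplicit false

namespace Pool.H868.Pal



theorem im_window {α : Type} {ρ : α → List α} {w z : ℕ → α} (h : Im ρ w z) (m : ℕ) (v : List α)
    (hv : win w m v.length = v) (q : ℕ) (hq : q < (app ρ v).length) :
    (app ρ v)[q]? = some (z ((app ρ (win w 0 m)).length + q)) := by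
  have h1 := h (m + v.length)
  rw [win_add, Nat.zero_add, hv, app_append] at h1
  have h2 := congrArg (fun l : List α => l[(app ρ (win w 0 m)).length + q]?) h1
  rw [List.getElem?_append_right (by omega), Nat.add_sub_cancel_left] at h2
  rw [h2, getElem?_win _ _ _ _ (by rw [List.length_append]; omega), Nat.zero_add]

theorem occ_far {α : Type} {φ : α → List α} {L : Set (List α)} (H : Sys φ L)
    {w : ℕ → α} (hw : InfL L w) (v : List α) (hv : v ∈ L) (B : ℕ) :
    ∃ m, B ≤ m ∧ win w m v.length = v := by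
  obtain ⟨n0, hn0⟩ := H.unif v hv
  obtain ⟨s, t, hst⟩ := hn0 (win w B n0) (hw B n0) (by rw [length_win])
  refine ⟨B + s.length, by omega, ?_⟩
  have hlen : n0 = s.length + (v.length + t.length) := by
    have := congrArg List.length hst
    rw [length_win, List.length_append, List.length_append] at this
    omega
  rw [hlen, win_add, win_add] at hst
  have h1 : s ++ (v ++ t) = win w B s.length ++
      (win w (B + s.length) v.length ++ win w (B + s.length + v.length) t.length) := by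
    rw [← List.append_assoc]; exact hst
  have h2 := List.append_inj_right h1 (by rw [length_win])
  have h3 := List.append_inj_left h2 (by rw [length_win])
  exact h3.symm

theorem fa_exists {α : Type} [Fintype α] {φ : α → List α} {L : Set (List α)} (H : Sys φ L)
    (hR : RC L) : ∃ M : ℕ, 1 ≤ M ∧ ∃ n : ℤ, FA (pw φ M) L n := by
  obtain ⟨w, hw⟩ := lsp_exists H
  have hwL : InfL L w := lsp_infL H hw
  obtain ⟨n1, hn1, h1⟩ := lsp_period H
  obtain ⟨n2, hn2, h2⟩ := lsp_period (sys_rv H hR)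
  have hne : ∀ a, pw φ (n1 * n2) a ≠ [] := pw_ne_nil φ H.ne (n1 * n2)
  obtain ⟨z1, hz1⟩ := im_exists (φ := pw φ (n1 * n2)) hne w
  obtain ⟨z2, hz2⟩ := im_exists (φ := pw (rv φ) (n2 * n1))
    (pw_ne_nil (rv φ) (sys_rv H hR).ne (n2 * n1)) w
  obtain ⟨i1, j1, hk1⟩ := h1 n2 w z1 hw hz1
  obtain ⟨i2, j2, hk2⟩ := h2 n1 w z2 hw hz2
  have htail : ∀ k, z1 ((i1 + j2) + k) = z2 ((i2 + j1) + k) := by
    intro k
    have e1 : z1 (i1 + (j2 + k)) = w (j1 + (j2 + k)) := hk1 (j2 + k)
    have e2 : z2 (i2 + (j1 + k)) = w (j2 + (j1 + k)) := hk2 (j1 + k)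
    rw [Nat.add_assoc, Nat.add_assoc, e1, e2]
    congr 1
    omega
  refine ⟨n1 * n2, Nat.mul_pos hn1 hn2, ((i1 + j2 : ℕ) : ℤ) - ((i2 + j1 : ℕ) : ℤ), ?_⟩
  rw [Nat.mul_comm n2 n1, pw_rv] at hz2
  intro v hv t t' htt' ht ht'
  obtain ⟨m, hm, hvm⟩ := occ_far H hwL v hv ((i1 + j2) + (i2 + j1) + (app (pw φ (n1 * n2)) v).length)
  have hc : m ≤ (app (pw φ (n1 * n2)) (win w 0 m)).length := by
    have := length_le_app (pw φ (n1 * n2)) hne (win w 0 m)
    rwa [length_win] at this
  have ht2 : t < (app (rv (pw φ (n1 * n2))) v).length := by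
    rw [length_app_rv]; exact ht
  rw [im_window hz2 m v hvm t ht2, im_window hz1 m v hvm t' ht', length_app_rv]
  congr 1
  obtain ⟨c, hcdef⟩ : ∃ c, c = (app (pw φ (n1 * n2)) (win w 0 m)).length := ⟨_, rfl⟩
  rw [← hcdef] at hc ⊢
  have e3 := htail (c + t - (i2 + j1))
  have e4 : (i1 + j2) + (c + t - (i2 + j1)) = c + t' := by omega
  have e5 : (i2 + j1) + (c + t - (i2 + j1)) = c + t := by omega
  rw [e4, e5] at e3
  exact e3.symm

end Pool.H868.Pal
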