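import Pool.Agent.Helper868.Pal.Defs

set_option autoImplicit false

namespace Pool.H868.Pal



theorem fa_swap {α : Type} {ψ : α → List α} {L : Set (List α)} {n : ℤ} (h : FA ψ L n) :
    FA (rv ψ) L (-n) := by
  intro v hv t t' htt ht ht'
  rw [length_app_rv] at ht ht'
  rw [rv_rv]
  exact (h v hv t' t (by omega) ht' ht).symm

end Pool.H868.Pal
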