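import Pool.Agent.Helper868.Pal.Defs

set_option autoImplicit false

namespace Pool.H868.Pal



theorem i_fix_pw {α : Type} {φ : α → List α} {u : ℕ → α} (hu : Im φ u u) (n : ℕ) :
    Im (pw φ n) u u := by
  induction n with
  | zero => intro l; rw [app_pw_zero, length_win]
  | succ n ih =>
    intro l
    have h1 := ih l
    have h2 := hu (app (pw φ n) (win u 0 l)).length
    rw [← h1] at h2
    rw [app_pw_succ]
    exact h2

end Pool.H868.Pal
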