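import Pool.Agent.Helper868.Pal.Defs

set_option autoImplicit false

namespace Pool.H868.Pal



theorem i_growth_len2 {α : Type} {l : List α} {x y : α} (hx : x ∈ l) (hy : y ∈ l) (hne : x ≠ y) :
    2 ≤ l.length := by
  match l, hx, hy with
  | [], hx, _ => exact absurd hx (by simp)
  | [z], hx, hy =>
    simp at hx hy
    exact absurd (hx.trans hy.symm) hne
  | _ :: _ :: _, _, _ => simp

theorem i_growth_app {α : Type} (ψ : α → List α) (h : ∀ a, 2 ≤ (ψ a).length) (w : List α) :
    2 * w.length ≤ (app ψ w).length := by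
  induction w with
  | nil => simp
  | cons a w ih =>
    have := h a
    simp; omega

theorem i_growth {α : Type} [Fintype α] {φ : α → List α} (h : Prim φ) (h2 : ∃ a b : α, a ≠ b) :
    ∀ B : ℕ, ∃ t, ∀ s, t ≤ s → ∀ a, B ≤ (pw φ s a).length := by
  obtain ⟨k, hk1, hk⟩ := h
  obtain ⟨x, y, hxy⟩ := h2
  have hne : ∀ a, φ a ≠ [] := by
    intro a ha
    obtain ⟨k', rfl⟩ : ∃ k', k = k' + 1 := ⟨k - 1, by omega⟩
    have := hk a a
    rw [pw_succ', ha, app_nil] at this
    exact absurd this (by simp)
  have hl2 : ∀ a, 2 ≤ (pw φ k a).length := fun a => i_growth_len2 (hk a x) (hk a y) hxy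
  have hg : ∀ n a, n + 1 ≤ (pw φ (k * n) a).length := by
    intro n a
    induction n with
    | zero => simp
    | succ n ih =>
      have h5 : pw φ (k * (n + 1)) a = app (pw φ k) (pw φ (k * n) a) := by
        rw [Nat.mul_succ, Nat.add_comm (k * n) k, pw_add]
      rw [h5]
      have := i_growth_app (pw φ k) hl2 (pw φ (k * n) a)
      omega
  intro B
  refine ⟨k * B, fun s hs a => ?_⟩
  have hmono : (pw φ (k * B) a).length ≤ (pw φ s a).length := by
    induction s, hs using Nat.le_induction with
    | base => exact le_rfl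
    | succ s hs ih =>
      rw [pw_succ]
      exact ih.trans (length_le_app φ hne _)
  have := hg B a
  omega

end Pool.H868.Pal
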