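import Pool.Agent.Helper868.Pal.Defs

set_option autoImplicit false

namespace Pool.H868.Pal



theorem i_ne {α : Type} {φ : α → List α} (h : Prim φ) : ∀ a, φ a ≠ [] := by
  obtain ⟨k, hk, hab⟩ := h
  intro a h0
  obtain ⟨m, rfl⟩ : ∃ m, k = m + 1 := ⟨k - 1, by omega⟩
  have := hab a a
  rw [pw_succ', h0] at this
  simp at this

end Pool.H868.Pal
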