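import Pool.Agent.Helper868.Pal.Defs
import Pool.Agent.Helper868.Pal.P_i_ne
import Pool.Agent.Helper868.Pal.P_i_growth
import Pool.Agent.Helper868.Pal.P_i_fix_pw

set_option autoImplicit false

namespace Pool.H868.Pal



theorem i_unif {α : Type} [Fintype α] {φ : α → List α} {u : ℕ → α} (h : Prim φ) (hu : Im φ u u)
    (h2 : ∃ a b : α, a ≠ b) : ∀ w ∈ Lu u, ∃ n, ∀ v ∈ Lu u, n ≤ v.length → w <:+: v := by
  rintro w ⟨i, l, rfl⟩
  obtain ⟨t, ht⟩ := i_growth h h2 (i + l)
  have hl : i + l ≤ (pw φ t (u 0)).length := ht t le_rfl (u 0)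
  have w1 : ∀ m, win u m 1 = [u m] := by
    intro m
    unfold win
    simp
  have hpre : win u i l <:+: pw φ t (u 0) := by
    have h3 := i_fix_pw hu t 1
    rw [w1, app_singleton] at h3
    obtain ⟨r, hr⟩ := Nat.exists_eq_add_of_le hl
    rw [h3]
    refine ⟨win u 0 i, win u (i + l) r, ?_⟩
    rw [hr, win_add, win_add]
    simp
  obtain ⟨k, hk1, hk⟩ := h
  have hψ : ∀ b, win u i l <:+: pw φ (t + k) b := by
    intro b
    rw [pw_add]
    have h4 : [u 0] <:+: pw φ k b := by
      obtain ⟨s1, s2, hs⟩ := List.append_of_mem (hk b (u 0))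
      exact ⟨s1, s2, by rw [hs]; simp⟩
    have h5 := app_infix (pw φ t) h4
    rw [app_singleton] at h5
    exact hpre.trans h5
  have hne : ∀ b, pw φ (t + k) b ≠ [] := pw_ne_nil φ (i_ne ⟨k, hk1, hk⟩) (t + k)
  obtain ⟨M, hM⟩ : ∃ M, ∀ b, (pw φ (t + k) b).length ≤ M :=
    ⟨Finset.univ.sup (fun b => (pw φ (t + k) b).length), fun b =>
      Finset.le_sup (f := fun b => (pw φ (t + k) b).length) (Finset.mem_univ b)⟩
  have him := i_fix_pw hu (t + k)
  obtain ⟨c, hc⟩ : ∃ c : ℕ → ℕ, ∀ m, c m = (app (pw φ (t + k)) (win u 0 m)).length :=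
    ⟨_, fun _ => rfl⟩
  have hc0 : c 0 = 0 := by
    rw [hc]
    rfl
  have hcs : ∀ m, c (m + 1) = c m + (pw φ (t + k) (u m)).length := by
    intro m
    rw [hc, hc, win_add, app_append, List.length_append, w1, app_singleton, Nat.zero_add]
  have hcm : ∀ m, m ≤ c m := by
    intro m
    rw [hc]
    have := length_le_app (pw φ (t + k)) hne (win u 0 m)
    rwa [length_win] at this
  have hblk : ∀ m, win u (c m) (pw φ (t + k) (u m)).length = pw φ (t + k) (u m) := by
    intro m
    have h6 := him (m + 1)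
    rw [← hc, hcs, win_add, win_add, app_append, him m, ← hc, w1, app_singleton,
      Nat.zero_add, Nat.zero_add] at h6
    exact (List.append_cancel_left h6).symm
  refine ⟨2 * M, ?_⟩
  rintro v ⟨i', l', rfl⟩ hlen
  rw [length_win] at hlen
  have hex : ∃ m, i' ≤ c m := ⟨i', hcm i'⟩
  classical
  obtain ⟨m, hm1, hm2⟩ : ∃ m, i' ≤ c m ∧ c m ≤ i' + M := by
    refine ⟨Nat.find hex, Nat.find_spec hex, ?_⟩
    rcases Nat.eq_zero_or_pos (Nat.find hex) with h0 | h0
    · rw [h0, hc0]
      exact Nat.zero_le _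
    · have h7 : ¬ i' ≤ c (Nat.find hex - 1) := Nat.find_min hex (by omega)
      have h8 := hcs (Nat.find hex - 1)
      have h9 : Nat.find hex - 1 + 1 = Nat.find hex := by omega
      rw [h9] at h8
      have h10 := hM (u (Nat.find hex - 1))
      omega
  have hMm := hM (u m)
  obtain ⟨r, hr⟩ : ∃ r, l' = (c m - i') + (pw φ (t + k) (u m)).length + r :=
    ⟨l' - ((c m - i') + (pw φ (t + k) (u m)).length), by omega⟩
  refine (hψ (u m)).trans ⟨win u i' (c m - i'), win u (c m + (pw φ (t + k) (u m)).length) r, ?_⟩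
  rw [hr, win_add, win_add]
  have e1 : i' + (c m - i') = c m := by omega
  have e2 : i' + (c m - i' + (pw φ (t + k) (u m)).length) = c m + (pw φ (t + k) (u m)).length := by
    omega
  rw [e1, e2, hblk]

end Pool.H868.Pal
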