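import Pool.Agent.Helper868.Pal.Defs
import Pool.Agent.Helper868.Pal.P_i_unif

set_option autoImplicit false

namespace Pool.H868.Pal



theorem i_backward_infix {α : Type} (u : ℕ → α) (i m : ℕ) (v : List α) (h : v <:+: win u i m) :
    v ∈ Lu u := by
  obtain ⟨s, t, hst⟩ := h
  have hlen : m = s.length + v.length + t.length := by
    have := congrArg List.length hst
    simp only [List.length_append, length_win] at this
    omega
  rw [hlen, win_add, win_add] at hst
  have h1 := List.append_inj_left hst (by simp)
  have h2 := List.append_inj_right h1 (by simp)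
  exact ⟨i + s.length, v.length, h2⟩

theorem i_backward {α : Type} [Fintype α] {φ : α → List α} {u : ℕ → α} (h : Prim φ)
    (hu : Im φ u u) (hpal : ∀ N : ℕ, ∃ w ∈ Lu u, N ≤ w.length ∧ w.reverse = w) : RC (Lu u) := by
  intro w hw
  by_cases h2 : ∃ a b : α, a ≠ b
  · obtain ⟨n, hn⟩ := i_unif h hu h2 w hw
    obtain ⟨P, hP, hPl, hPr⟩ := hpal n
    have h1 := hn P hP hPl
    have h3 : w.reverse <:+: P := by rw [← hPr]; exact List.reverse_infix.mpr h1
    obtain ⟨i, m, rfl⟩ := hP
    exact i_backward_infix u i m _ h3
  · have h3 : ∀ a b : α, a = b := by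
      intro a b
      by_contra hne
      exact h2 ⟨a, b, hne⟩
    have h4 : w.reverse = w := by
      apply List.ext_getElem (by simp)
      intro n _ _
      exact h3 _ _
    rw [h4]
    exact hw

end Pool.H868.Pal
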