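import Pool.Agent.Helper868.Pal.Defs

set_option autoImplicit false

namespace Pool.H868.Pal



theorem i_per {α : Type} [Fintype α] {u : ℕ → α} (hp : EvPer u)
    (hrec : ∀ w ∈ Lu u, ∀ N : ℕ, ∃ i, N ≤ i ∧ w = win u i w.length) (hR : RC (Lu u)) :
    ∀ N : ℕ, ∃ w ∈ Lu u, N ≤ w.length ∧ w.reverse = w := by
  intro N
  obtain ⟨p, N0, hp0, hper⟩ := hp
  have hq : ∀ q x, N0 ≤ x → u (x + p * q) = u x := by
    intro q
    induction q with
    | zero => intro x _; simp
    | succ q ih =>
      intro x hx
      have h1 : x + p * (q + 1) = (x + p * q) + p := by ring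
      rw [h1, hper _ (by omega), ih x hx]
  have hmod' : ∀ x y, N0 ≤ x → x ≤ y → x ≡ y [MOD p] → u x = u y := by
    intro x y hx hxy h
    obtain ⟨q, hq'⟩ := (Nat.modEq_iff_dvd' hxy).1 h
    have h1 : y = x + p * q := by omega
    rw [h1, hq q x hx]
  have hmod : ∀ x y, N0 ≤ x → N0 ≤ y → x ≡ y [MOD p] → u x = u y := by
    intro x y hx hy h
    rcases le_total x y with h1 | h1
    · exact hmod' x y hx h1 h
    · exact (hmod' y x hy h1 h.symm).symm
  have hw : (win u N0 p).reverse ∈ Lu u := hR _ ⟨N0, p, rfl⟩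
  obtain ⟨i, hi, hwi⟩ := hrec _ hw N0
  rw [List.length_reverse, length_win] at hwi
  have ht : ∀ t, t < p → u (i + t) = u (N0 + (p - 1 - t)) := by
    intro t ht
    have h1 : (win u N0 p).reverse[t]? = (win u i p)[t]? := by rw [hwi]
    rw [List.getElem?_reverse (by rw [length_win]; exact ht), length_win,
      getElem?_win _ _ _ _ (by omega), getElem?_win _ _ _ _ ht] at h1
    exact (Option.some.inj h1).symm
  have key : ∀ x y, N0 ≤ x → N0 ≤ y → x + y ≡ i + N0 + (p - 1) [MOD p] → u x = u y := by
    intro x y hx hy hxy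
    set t := (x + (p * i - i)) % p with htd
    have htp : t < p := Nat.mod_lt _ hp0
    have hpi : i ≤ p * i := Nat.le_mul_of_pos_left i hp0
    have h1 : i + t ≡ x [MOD p] := by
      have h2 : i + t ≡ i + (x + (p * i - i)) [MOD p] :=
        Nat.ModEq.add_left i (Nat.mod_modEq _ _)
      have h3 : i + (x + (p * i - i)) = x + p * i := by omega
      rw [h3] at h2
      refine h2.trans ?_
      have h4 : x + p * i ≡ x + 0 [MOD p] :=
        Nat.ModEq.add_left x ((Nat.modEq_zero_iff_dvd).2 (Dvd.intro _ rfl))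
      simpa using h4
    have h5 : u x = u (N0 + (p - 1 - t)) := by
      rw [← ht t htp]
      exact hmod _ _ hx (by omega) h1.symm
    rw [h5]
    apply hmod _ _ (by omega) hy
    have h6 : (N0 + (p - 1 - t)) + (i + t) ≡ y + (i + t) [MOD p] := by
      have h7 : (N0 + (p - 1 - t)) + (i + t) = i + N0 + (p - 1) := by omega
      rw [h7]
      refine hxy.symm.trans ?_
      rw [add_comm x y]
      exact Nat.ModEq.add_left y h1.symm
    exact Nat.ModEq.add_right_cancel' _ h6
  refine ⟨win u N0 ((i - N0) + p * (N + 1)), ⟨N0, _, rfl⟩, ?_, ?_⟩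
  · rw [length_win]
    have : N + 1 ≤ p * (N + 1) := Nat.le_mul_of_pos_left _ hp0
    omega
  · set len := (i - N0) + p * (N + 1) with hlen
    apply List.ext_getElem?
    intro j
    by_cases hj : j < len
    · rw [List.getElem?_reverse (by rw [length_win]; exact hj), length_win,
        getElem?_win _ _ _ _ (by omega), getElem?_win _ _ _ _ hj]
      congr 1
      apply key _ _ (by omega) (by omega)
      have h1 : N0 + (len - 1 - j) + (N0 + j) = (i + N0 + (p - 1)) + p * N := by
        have h2 : p * (N + 1) = p * N + p := by ring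
        omega
      rw [h1]
      have h4 : (i + N0 + (p - 1)) + p * N ≡ (i + N0 + (p - 1)) + 0 [MOD p] :=
        Nat.ModEq.add_left _ ((Nat.modEq_zero_iff_dvd).2 (Dvd.intro _ rfl))
      simpa using h4
    · rw [List.getElem?_eq_none (by rw [List.length_reverse, length_win]; omega),
        List.getElem?_eq_none (by rw [length_win]; omega)]

end Pool.H868.Pal
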