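import Pool.Agent.Helper868.Pal.Defs

set_option autoImplicit false

namespace Pool.H868.Pal



theorem i_lin {α : Type} [Fintype α] {u : ℕ → α} {K : ℕ} (hK : LinRec u K) :
    ∃ K' : ℕ, ∀ n, 1 ≤ n → {w : List α | w ∈ Lu u ∧ w.length = n}.ncard ≤ K' * n := by
  classical
  refine ⟨K + 1, fun n hn => ?_⟩
  have hsub : {w : List α | w ∈ Lu u ∧ w.length = n} ⊆
      (((Finset.range (K * n + 1)).image
        (fun p => ((win u 0 (K * n)).drop p).take n) : Finset (List α)) : Set (List α)) := by
    rintro w ⟨hw, hl⟩
    obtain ⟨s, t, hst⟩ := hK n hn w hw hl.le (win u 0 (K * n)) ⟨0, K * n, rfl⟩ (by simp)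
    rw [Finset.mem_coe, Finset.mem_image]
    refine ⟨s.length, ?_, ?_⟩
    · rw [Finset.mem_range]
      have h := congrArg List.length hst
      simp only [List.length_append, length_win] at h
      omega
    · show ((win u 0 (K * n)).drop s.length).take n = w
      rw [← hst, List.append_assoc, List.drop_left, ← hl, List.take_left]
  calc {w : List α | w ∈ Lu u ∧ w.length = n}.ncard
      ≤ (((Finset.range (K * n + 1)).image
        (fun p => ((win u 0 (K * n)).drop p).take n) : Finset (List α)) : Set (List α)).ncard :=
        Set.ncard_le_ncard hsub (Finset.finite_toSet _)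
    _ = ((Finset.range (K * n + 1)).image
        (fun p => ((win u 0 (K * n)).drop p).take n)).card := Set.ncard_coe_finset _
    _ ≤ (Finset.range (K * n + 1)).card := Finset.card_image_le
    _ = K * n + 1 := Finset.card_range _
    _ ≤ (K + 1) * n := by nlinarith

end Pool.H868.Pal
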