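import Pool.Agent.Helper868.Pal.Defs

set_option autoImplicit false

namespace Pool.H868.Pal



theorem len_app_le_aux {α : Type} (ρ : α → List α) (B : ℕ) (hB : ∀ c, (ρ c).length ≤ B)
    (w : List α) : (app ρ w).length ≤ w.length * B := by
  induction w with
  | nil => simp
  | cons a w ih =>
    rw [app_cons, List.length_append, List.length_cons, Nat.succ_mul]
    have := hB a
    omega

theorem len_mem_aux {α : Type} (ρ : α → List α) (c : α) (w : List α) (hc : c ∈ w) :
    (ρ c).length ≤ (app ρ w).length := by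
  induction w with
  | nil => simp at hc
  | cons a w ih =>
    rw [app_cons, List.length_append]
    rcases List.mem_cons.mp hc with h | h
    · rw [h]; omega
    · have := ih h
      omega

theorem i_ratio {α : Type} [Fintype α] {φ : α → List α} (h : Prim φ) :
    ∃ D : ℕ, 1 ≤ D ∧ ∀ n a b, (pw φ n a).length ≤ D * (pw φ n b).length := by
  obtain ⟨k, hk, hp⟩ := h
  have hne : ∀ a, φ a ≠ [] := by
    intro a h0
    have h1 := hp a a
    obtain ⟨j, rfl⟩ : ∃ j, k = j + 1 := ⟨k - 1, by omega⟩
    rw [pw_succ', h0] at h1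
    simp at h1
  refine ⟨(∑ a, (pw φ k a).length) + (∑ n ∈ Finset.range k, ∑ a, (pw φ n a).length) + 1,
    by omega, ?_⟩
  intro n a b
  have hb1 : 1 ≤ (pw φ n b).length := List.length_pos_iff.mpr (pw_ne_nil φ hne n b)
  by_cases hn : n < k
  · have h1 : (pw φ n a).length ≤ ∑ a, (pw φ n a).length :=
      Finset.single_le_sum (f := fun a => (pw φ n a).length) (fun _ _ => Nat.zero_le _)
        (Finset.mem_univ a)
    have h2 : ∑ a, (pw φ n a).length ≤ ∑ n ∈ Finset.range k, ∑ a, (pw φ n a).length :=
      Finset.single_le_sum (f := fun n => ∑ a, (pw φ n a).length) (fun _ _ => Nat.zero_le _)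
        (Finset.mem_range.mpr hn)
    calc (pw φ n a).length ≤ ((∑ a, (pw φ k a).length) +
          (∑ n ∈ Finset.range k, ∑ a, (pw φ n a).length) + 1) * 1 := by omega
      _ ≤ _ := Nat.mul_le_mul_left _ hb1
  · obtain ⟨m, rfl⟩ : ∃ m, n = m + k := ⟨n - k, by omega⟩
    have hB : ∀ c, (pw φ m c).length ≤ (pw φ (m + k) b).length := by
      intro c
      rw [pw_add]
      exact len_mem_aux _ c _ (hp b c)
    have h1 : (pw φ (m + k) a).length ≤ (pw φ k a).length * (pw φ (m + k) b).length := by
      conv_lhs => rw [pw_add]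
      exact len_app_le_aux _ _ hB _
    have h2 : (pw φ k a).length ≤ ∑ a, (pw φ k a).length :=
      Finset.single_le_sum (f := fun a => (pw φ k a).length) (fun _ _ => Nat.zero_le _)
        (Finset.mem_univ a)
    exact h1.trans (Nat.mul_le_mul_right _ (by omega))

end Pool.H868.Pal
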