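import Pool.Agent.Helper868.Pal.Defs
import Pool.Agent.Helper868.Pal.P_i_ne
import Pool.Agent.Helper868.Pal.P_i_growth
import Pool.Agent.Helper868.Pal.P_i_fix_pw
import Pool.Agent.Helper868.Pal.P_i_unif

set_option autoImplicit false

namespace Pool.H868.Pal



theorem i_two_occ {α : Type} {φ : α → List α} {u : ℕ → α} (h : Prim φ) (hu : Im φ u u) (e : α) :
    ∃ i, u i = e := by
  obtain ⟨k0, hk0, hp⟩ := h
  have h1 := i_fix_pw hu k0 1
  have h2 : win u 0 1 = [u 0] := by simp [win]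
  rw [h2, app_singleton] at h1
  have h3 := hp (u 0) e
  rw [h1] at h3
  unfold win at h3
  obtain ⟨j, -, hj⟩ := List.mem_map.mp h3
  exact ⟨0 + j, hj⟩

theorem i_two_mem {α : Type} {φ : α → List α} {u : ℕ → α} (h : Prim φ) (hu : Im φ u u) (t : ℕ)
    (e : α) : pw φ t e ∈ Lu u := by
  obtain ⟨i, rfl⟩ := i_two_occ h hu e
  have h1 := i_fix_pw hu t (i + 1)
  have h2 : win u 0 (i + 1) = win u 0 i ++ [u i] := by
    rw [win_add]
    congr 1
    simp [win]
  rw [h2, app_append, app_singleton, List.length_append, win_add] at h1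
  have h3 := (List.append_inj h1 (by simp)).2
  exact ⟨_, _, h3⟩

theorem i_two {α : Type} [Fintype α] {φ : α → List α} {u : ℕ → α} (h : Prim φ) (hu : Im φ u u)
    (h2 : ∃ a b : α, a ≠ b) : ∃ k : ℕ, ∀ e c d : α, [c, d] ∈ Lu u → [c, d] <:+: pw φ k e := by
  classical
  have h3 : ∀ p : α × α, ∃ n : ℕ, [p.1, p.2] ∈ Lu u →
      ∀ v ∈ Lu u, n ≤ v.length → [p.1, p.2] <:+: v := by
    intro p
    by_cases hp : [p.1, p.2] ∈ Lu u
    · obtain ⟨n, hn⟩ := i_unif h hu h2 _ hp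
      exact ⟨n, fun _ => hn⟩
    · exact ⟨0, fun hh => absurd hh hp⟩
  choose N hN using h3
  obtain ⟨t, ht⟩ := i_growth h h2 (Finset.univ.sup N)
  refine ⟨t, fun e c d hcd => ?_⟩
  refine hN (c, d) hcd _ (i_two_mem h hu t e) ?_
  exact (Finset.le_sup (f := N) (Finset.mem_univ (c, d))).trans (ht t le_rfl e)

end Pool.H868.Pal
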