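import Pool.Agent.Helper868.Pal.Defs
import Pool.Agent.Helper868.Pal.P_i_ne
import Pool.Agent.Helper868.Pal.P_i_ratio
import Pool.Agent.Helper868.Pal.P_i_growth
import Pool.Agent.Helper868.Pal.P_i_fix_pw
import Pool.Agent.Helper868.Pal.P_i_two

set_option autoImplicit false

namespace Pool.H868.Pal



theorem lr_loc (f : ℕ → ℕ) (h0 : f 0 = 0) (hf : ∀ j, f j < f (j + 1)) (i : ℕ) :
    ∃ j, f j ≤ i ∧ i < f (j + 1) := by
  induction i with
  | zero => exact ⟨0, by omega, by have := hf 0; omega⟩
  | succ i ih =>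
    obtain ⟨j, h1, h2⟩ := ih
    by_cases h : i + 1 < f (j + 1)
    · exact ⟨j, by omega, h⟩
    · exact ⟨j + 1, by omega, by have := hf (j + 1); omega⟩

theorem lr_win_infix {α : Type} (u : ℕ → α) (i n i' n' : ℕ) (h1 : i' ≤ i) (h2 : i + n ≤ i' + n') :
    win u i n <:+: win u i' n' := by
  obtain ⟨a, rfl⟩ := Nat.exists_eq_add_of_le h1
  obtain ⟨b, hb⟩ := Nat.exists_eq_add_of_le h2
  have hn' : n' = a + n + b := by omega
  subst hn'
  refine ⟨win u i' a, win u (i' + (a + n)) b, ?_⟩
  rw [win_add, win_add]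

theorem lr_block {α : Type} {φ : α → List α} {u : ℕ → α} (hu : Im φ u u) (m j : ℕ) :
    win u (app (pw φ m) (win u 0 j)).length (pw φ m (u j)).length = pw φ m (u j) := by
  have h1 := i_fix_pw hu m j
  have h2 := i_fix_pw hu m (j + 1)
  rw [win_add] at h2
  have h3 : win u (0 + j) 1 = [u j] := by simp [win]
  rw [h3, app_append, app_singleton, List.length_append, win_add, ← h1] at h2
  have := List.append_cancel_left h2
  simpa using this.symm

theorem lr_P_succ {α : Type} {φ : α → List α} {u : ℕ → α} (m j : ℕ) :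
    (app (pw φ m) (win u 0 (j + 1))).length =
      (app (pw φ m) (win u 0 j)).length + (pw φ m (u j)).length := by
  rw [win_add]
  have h3 : win u (0 + j) 1 = [u j] := by simp [win]
  rw [h3, app_append, app_singleton, List.length_append]

theorem lr_len_le {α : Type} (ψ : α → List α) (B : ℕ) (h : ∀ a, (ψ a).length ≤ B) (w : List α) :
    (app ψ w).length ≤ B * w.length := by
  induction w with
  | nil => simp
  | cons a w ih =>
    have := h a
    simp only [app_cons, List.length_append, List.length_cons]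
    nlinarith

theorem i_linrec {α : Type} [Fintype α] {φ : α → List α} {u : ℕ → α} (h : Prim φ) (hu : Im φ u u)
    (h2 : ∃ a b : α, a ≠ b) : ∃ K : ℕ, LinRec u K := by
  classical
  obtain ⟨D, hD1, hD⟩ := i_ratio h
  obtain ⟨k, hk⟩ := i_two h hu h2
  have hne := i_ne h
  obtain ⟨M, hM⟩ : ∃ M, ∀ e, (pw φ (k + 1) e).length ≤ M :=
    ⟨Finset.univ.sup (fun e => (pw φ (k + 1) e).length),
      fun e => Finset.le_sup (f := fun e => (pw φ (k + 1) e).length) (Finset.mem_univ e)⟩
  obtain ⟨M0, hM0⟩ : ∃ M0, ∀ e, (pw φ k e).length ≤ M0 :=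
    ⟨Finset.univ.sup (fun e => (pw φ k e).length),
      fun e => Finset.le_sup (f := fun e => (pw φ k e).length) (Finset.mem_univ e)⟩
  have hpos : ∀ m a, 1 ≤ (pw φ m a).length := fun m a =>
    List.length_pos_iff.mpr (pw_ne_nil φ hne m a)
  have hloc : ∀ m i, ∃ j, (app (pw φ m) (win u 0 j)).length ≤ i ∧
      i < (app (pw φ m) (win u 0 (j + 1))).length := by
    intro m i
    refine lr_loc (fun j => (app (pw φ m) (win u 0 j)).length) ?_ ?_ i
    · simp [win]
    · intro j
      show _ < _
      rw [lr_P_succ]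
      have := hpos m (u j)
      omega
  refine ⟨2 * (M * D + M0), ?_⟩
  intro n hn w hw hwn v hv hvn
  have hex : ∃ m, ∀ a, n ≤ (pw φ m a).length := by
    obtain ⟨t, ht⟩ := i_growth h h2 n
    exact ⟨t, ht t le_rfl⟩
  set m := Nat.find hex with hm
  have hms : ∀ a, n ≤ (pw φ m a).length := Nat.find_spec hex
  -- bound
  have hB : ∀ e, (pw φ (m + k) e).length ≤ (M * D + M0) * n := by
    intro e
    rcases Nat.eq_zero_or_pos m with h0 | h0
    · rw [h0, Nat.zero_add]
      have := hM0 e
      have h3 : M0 * 1 ≤ M0 * n := Nat.mul_le_mul_left _ hn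
      have h4 : 0 ≤ M * D * n := Nat.zero_le _
      nlinarith
    · have hlt : ¬ ∀ a, n ≤ (pw φ (m - 1) a).length := Nat.find_min hex (by omega)
      push Not at hlt
      obtain ⟨a, ha⟩ := hlt
      have hb : ∀ b, (pw φ (m - 1) b).length ≤ D * n := fun b =>
        (hD (m - 1) b a).trans (Nat.mul_le_mul_left _ ha.le)
      have he : m + k = (m - 1) + (k + 1) := by omega
      rw [he, pw_add]
      have h3 := lr_len_le _ _ hb (pw φ (k + 1) e)
      have h4 : D * n * (pw φ (k + 1) e).length ≤ D * n * M := Nat.mul_le_mul_left _ (hM e)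
      have h5 : 0 ≤ M0 * n := Nat.zero_le _
      nlinarith
  -- w inside two blocks
  obtain ⟨i, l, rfl⟩ := hw
  rw [length_win] at hwn
  have hw2 : ∀ e, win u i l <:+: pw φ (m + k) e := by
    intro e
    obtain ⟨j, hj1, hj2⟩ := hloc m i
    have h3 : win u i l <:+: app (pw φ m) [u j, u (j + 1)] := by
      have h4 : app (pw φ m) [u j, u (j + 1)] =
          win u (app (pw φ m) (win u 0 j)).length
            ((pw φ m (u j)).length + (pw φ m (u (j + 1))).length) := by
        rw [win_add, lr_block hu, ← lr_P_succ, lr_block hu]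
        simp
      rw [h4]
      apply lr_win_infix _ _ _ _ _ hj1
      rw [lr_P_succ] at hj2
      have := hms (u (j + 1))
      omega
    have h5 : [u j, u (j + 1)] <:+: pw φ k e := by
      apply hk
      exact ⟨j, 2, by simp [win, List.range_succ]⟩
    rw [pw_add]
    exact h3.trans (app_infix _ h5)
  obtain ⟨i', l', rfl⟩ := hv
  rw [length_win] at hvn
  obtain ⟨j, hj1, hj2⟩ := hloc (m + k) i'
  refine (hw2 (u (j + 1))).trans ?_
  rw [← lr_block hu (m + k) (j + 1)]
  apply lr_win_infix
  · omega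
  · rw [lr_P_succ]
    have h6 := hB (u j)
    have h7 := hB (u (j + 1))
    have h8 : 2 * (M * D + M0) * n = (M * D + M0) * n + (M * D + M0) * n := by ring
    omega

end Pool.H868.Pal
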