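import Pool.Agent.Helper868.Pal.Defs

set_option autoImplicit false

namespace Pool.H868.Pal



theorem i_mh_aux1 {α : Type} (u : ℕ → α) (i m : ℕ) :
    (win u i (m + 1)).take m = win u i m := by
  rw [win_add, List.take_append_of_le_length (by simp)]
  exact List.take_of_length_le (by simp)

theorem i_mh_aux2 {α : Type} (u : ℕ → α) (i m : ℕ) :
    (win u i (m + 1)).drop 1 = win u (i + 1) m := by
  rw [Nat.add_comm m 1, win_add]
  simp

theorem i_mh {α : Type} [Fintype α] {u : ℕ → α} (m : ℕ)
    (h : {w | w ∈ Lu u ∧ w.length = m + 1}.ncard ≤ {w | w ∈ Lu u ∧ w.length = m}.ncard) :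
    EvPer u := by
  have hfin : ∀ n : ℕ, {w : List α | w ∈ Lu u ∧ w.length = n}.Finite := fun n =>
    (List.finite_length_eq α n).subset (fun w hw => hw.2)
  have hmem : ∀ i n, win u i n ∈ {w : List α | w ∈ Lu u ∧ w.length = n} :=
    fun i n => ⟨⟨i, n, rfl⟩, by simp⟩
  have hinj := Set.inj_on_of_surj_on_of_ncard_le
    (s := {w : List α | w ∈ Lu u ∧ w.length = m + 1}) (t := {w : List α | w ∈ Lu u ∧ w.length = m})
    (fun w _ => w.take m)
    (by
      rintro w ⟨⟨i, n, rfl⟩, hn⟩
      rw [length_win] at hn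
      subst hn
      rw [i_mh_aux1]
      exact hmem i m)
    (by
      rintro w ⟨⟨i, n, rfl⟩, hn⟩
      rw [length_win] at hn
      subst hn
      exact ⟨win u i (n + 1), hmem i (n + 1), i_mh_aux1 u i n⟩)
    h
  have hD : ∀ i j, win u i m = win u j m → win u i (m + 1) = win u j (m + 1) := by
    intro i j hij
    refine hinj (hmem i (m + 1)) (hmem j (m + 1)) ?_ (hfin (m + 1))
    simp only [i_mh_aux1]
    exact hij
  have hstep : ∀ i j, win u i m = win u j m → win u (i + 1) m = win u (j + 1) m := by
    intro i j hij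
    rw [← i_mh_aux2, ← i_mh_aux2, hD i j hij]
  have hval : ∀ i j, win u i m = win u j m → u (i + m) = u (j + m) := by
    intro i j hij
    have h1 := hD i j hij
    have h2 := congrArg (fun l : List α => l[m]?) h1
    have h2 : (win u i (m + 1))[m]? = (win u j (m + 1))[m]? := h2
    rw [getElem?_win u i (m + 1) m (by omega), getElem?_win u j (m + 1) m (by omega)] at h2
    exact Option.some.inj h2
  obtain ⟨i, j, hij, hw⟩ := (hfin m).exists_lt_map_eq_of_forall_mem (f := fun i => win u i m)
    (fun i => hmem i m)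
  have hall : ∀ t, win u (i + t) m = win u (j + t) m := by
    intro t
    induction t with
    | zero => exact hw
    | succ t ih => exact hstep _ _ ih
  refine ⟨j - i, i + m, by omega, ?_⟩
  intro x hx
  obtain ⟨t, rfl⟩ : ∃ t, x = i + t + m := ⟨x - (i + m), by omega⟩
  have h3 := hval _ _ (hall t)
  rw [h3]
  congr 1
  omega

end Pool.H868.Pal
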