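import Pool.Agent.Helper868.Pal.Defs
import Pool.Agent.Helper868.Pal.P_i_mh

set_option autoImplicit false

namespace Pool.H868.Pal



theorem i_pow_flat {α : Type} (w : List α) (C j : ℕ) (hj : j < C * w.length) :
    ((List.replicate C w).flatten)[j]? = w[j % w.length]? := by
  induction C generalizing j with
  | zero => simp at hj
  | succ C ih =>
    rw [List.replicate_succ, List.flatten_cons]
    rcases lt_or_ge j w.length with h | h
    · rw [List.getElem?_append_left h, Nat.mod_eq_of_lt h]
    · rw [List.getElem?_append_right h, ih (j - w.length) (by rw [Nat.succ_mul] at hj; omega),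
        ← Nat.mod_eq_sub_mod h]

theorem i_pow_lower {α : Type} [Fintype α] {u : ℕ → α} (hp : ¬ EvPer u) (m : ℕ) :
    m + 1 ≤ {w | w ∈ Lu u ∧ w.length = m}.ncard := by
  induction m with
  | zero =>
    have h : {w : List α | w ∈ Lu u ∧ w.length = 0} = {[]} := by
      ext w
      constructor
      · rintro ⟨_, h⟩
        exact List.eq_nil_of_length_eq_zero h
      · rintro rfl
        exact ⟨⟨0, 0, rfl⟩, rfl⟩
    rw [h, Set.ncard_singleton]
  | succ m ih =>
    by_contra hcon
    apply hp
    apply i_mh m
    omega

theorem i_pow {α : Type} [Fintype α] {u : ℕ → α} {K : ℕ} (hK : LinRec u K) (hp : ¬ EvPer u) :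
    ∃ C : ℕ, 1 ≤ C ∧ ∀ w : List α, w ≠ [] → (List.replicate C w).flatten ∉ Lu u := by
  refine ⟨K + 1, by omega, fun w hw hW => ?_⟩
  obtain ⟨n, hn⟩ : ∃ n, n = w.length := ⟨_, rfl⟩
  have hn1 : 1 ≤ n := by rw [hn]; exact List.length_pos_iff.2 hw
  obtain ⟨i, N, hN⟩ := id hW
  have hlen : N = (K + 1) * n := by
    have := congrArg List.length hN
    rw [length_win, List.length_flatten, List.map_replicate, List.sum_replicate] at this
    rw [← this, hn]; rfl
  have hlet : ∀ j, j < (K + 1) * n → w[j % n]? = some (u (i + j)) := by
    intro j hj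
    have h1 := i_pow_flat w (K + 1) j (by rw [← hn]; exact hj)
    rw [hN, getElem?_win u i N j (by omega), ← hn] at h1
    exact h1.symm
  have hsub : {v | v ∈ Lu u ∧ v.length = n} ⊆ (fun r => win u (i + r) n) '' (Set.Iio n) := by
    rintro v ⟨hv, hvn⟩
    obtain ⟨s, t, hst⟩ := hK n hn1 v hv hvn.le _ hW (by
      rw [hN, length_win, hlen]; exact Nat.mul_le_mul_right _ (by omega))
    refine ⟨s.length % n, Nat.mod_lt _ (by omega), ?_⟩
    have htot : s.length + n + t.length = (K + 1) * n := by
      have := congrArg List.length hst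
      rw [hN, length_win, List.length_append, List.length_append, hvn, hlen] at this
      exact this
    beta_reduce
    apply List.ext_getElem?
    intro j
    rcases lt_or_ge j n with hj | hj
    · rw [getElem?_win _ _ _ _ hj]
      have hmod : s.length % n ≤ s.length := Nat.mod_le _ _
      have h1 := hlet (s.length % n + j) (by omega)
      have h2 := hlet (s.length + j) (by omega)
      have h3 : v[j]? = some (u (i + (s.length + j))) := by
        have h4 : ((List.replicate (K + 1) w).flatten)[s.length + j]? = v[j]? := by
          rw [← hst, List.append_assoc, List.getElem?_append_right (by omega),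
            Nat.add_sub_cancel_left, List.getElem?_append_left (by omega)]
        rw [← h4, hN, getElem?_win _ _ _ _ (by omega)]
      rw [h3, ← h2, add_assoc, ← h1]
      congr 1
      rw [Nat.mod_add_mod]
    · rw [List.getElem?_eq_none (by rw [length_win]; exact hj),
        List.getElem?_eq_none (by rw [hvn]; exact hj)]
  have h1 := i_pow_lower hp n
  have h2 : {v | v ∈ Lu u ∧ v.length = n}.ncard ≤ n := by
    calc {v | v ∈ Lu u ∧ v.length = n}.ncard
        ≤ ((fun r => win u (i + r) n) '' (Set.Iio n)).ncard :=
          Set.ncard_le_ncard hsub ((Set.finite_Iio n).image _)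
      _ ≤ (Set.Iio n).ncard := Set.ncard_image_le (Set.finite_Iio n)
      _ = n := by
        rw [Set.ncard_eq_toFinset_card', Set.toFinset_Iio, Nat.card_Iio]
  omega

end Pool.H868.Pal
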