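import Pool.Agent.Helper868.Pal.Defs
import Pool.Agent.Helper868.Pal.P_i_mh

set_option autoImplicit false

namespace Pool.H868.Pal



theorem i_spec {α : Type} [Fintype α] {u : ℕ → α} (hp : ¬ EvPer u)
    (hext : ∀ w ∈ Lu u, ∃ a, a :: w ∈ Lu u) :
    ∀ n : ℕ, ∃ w ∈ Lu u, w.length = n ∧ ∃ a b, a ≠ b ∧ a :: w ∈ Lu u ∧ b :: w ∈ Lu u := by
  intro n
  by_contra hcon
  push Not at hcon
  apply hp
  apply i_mh n
  have htail : ∀ w ∈ Lu u, w.length = n + 1 → w.tail ∈ Lu u ∧ w.tail.length = n := by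
    rintro w ⟨i, k, rfl⟩ hk
    rw [length_win] at hk
    subst hk
    refine ⟨⟨i + 1, n, ?_⟩, by simp⟩
    rw [show n + 1 = 1 + n by ring, win_add]
    simp [win]
  refine Set.ncard_le_ncard_of_injOn List.tail (fun w hw => htail w hw.1 hw.2) ?_
    ((List.finite_length_eq α n).subset fun w hw => hw.2)
  intro w1 h1 w2 h2 h12
  have ht := htail w1 h1.1 h1.2
  match w1, w2, h1, h2, h12, ht with
  | [], _, h1, _, _, _ => exact absurd h1.2 (by simp)
  | _ :: _, [], _, h2, _, _ => exact absurd h2.2 (by simp)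
  | a :: v, b :: v', h1, h2, h12, ht =>
    have e : v = v' := h12
    subst e
    by_contra hne
    exact hcon v ht.1 ht.2 a b (fun h => hne (by rw [h])) h1.1 h2.1

end Pool.H868.Pal
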