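import Pool.Agent.Helper868.Pal.Defs
import Pool.Agent.Helper868.Pal.P_i_ne
import Pool.Agent.Helper868.Pal.P_i_ratio
import Pool.Agent.Helper868.Pal.P_i_growth
import Pool.Agent.Helper868.Pal.P_i_fix_pw
import Pool.Agent.Helper868.Pal.P_i_unif
import Pool.Agent.Helper868.Pal.P_i_linrec
import Pool.Agent.Helper868.Pal.P_i_pow
import Pool.Agent.Helper868.Pal.P_i_lin
import Pool.Agent.Helper868.Pal.P_i_spec

set_option autoImplicit false

namespace Pool.H868.Pal



theorem sys_win_one {α : Type} (u : ℕ → α) (i : ℕ) : win u i 1 = [u i] := by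
  simp [win]

theorem sys_fact {α : Type} {u : ℕ → α} {v w : List α} (h : v <:+: w) (hw : w ∈ Lu u) :
    v ∈ Lu u := by
  obtain ⟨i, n, rfl⟩ := hw
  obtain ⟨s, t, hst⟩ := h
  refine ⟨i + s.length, v.length, ?_⟩
  have hlen : n = s.length + v.length + t.length := by
    have := congrArg List.length hst
    simp only [List.length_append, length_win] at this
    omega
  rw [hlen, win_add, win_add] at hst
  have h1 := (List.append_inj hst (by simp)).1
  exact (List.append_inj h1 (by simp)).2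

theorem sys_win_infix {α : Type} (u : ℕ → α) (i n m : ℕ) (h : i + n ≤ m) :
    win u i n <:+: win u 0 m := by
  obtain ⟨r, rfl⟩ := Nat.exists_eq_add_of_le h
  refine ⟨win u 0 i, win u (0 + (i + n)) r, ?_⟩
  rw [win_add, win_add]
  simp

theorem i_sys {α : Type} [Fintype α] {φ : α → List α} {u : ℕ → α} (h : Prim φ) (hu : Im φ u u)
    (hp : ¬ EvPer u) : Sys φ (Lu u) := by
  have hne := i_ne h
  have h2 : ∃ a b : α, a ≠ b := by
    by_contra hcon
    push Not at hcon
    exact hp ⟨1, 0, one_pos, fun i _ => hcon _ _⟩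
  have hsub : ∀ w ∈ Lu u, app φ w ∈ Lu u := by
    rintro w ⟨i, n, rfl⟩
    have h3 := hu (i + n)
    have h4 : app φ (win u i n) <:+: app φ (win u 0 (i + n)) :=
      app_infix φ (sys_win_infix u i n (i + n) le_rfl)
    rw [h3] at h4
    exact sys_fact h4 ⟨0, _, rfl⟩
  have hunif := i_unif h hu h2
  have hextl : ∀ w ∈ Lu u, ∃ a, a :: w ∈ Lu u := by
    intro w hw
    obtain ⟨n, hn⟩ := hunif w hw
    obtain ⟨s, t, hst⟩ := hn (win u 1 n) ⟨1, n, rfl⟩ (by simp)
    have h3 : win u 0 (1 + n) = u 0 :: win u 1 n := by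
      rw [win_add, sys_win_one]
      rfl
    have h4 : (u 0 :: s) ≠ [] := List.cons_ne_nil _ _
    refine ⟨(u 0 :: s).getLast h4, ?_⟩
    refine sys_fact (w := win u 0 (1 + n)) ?_ ⟨0, _, rfl⟩
    refine ⟨(u 0 :: s).dropLast, t, ?_⟩
    rw [h3, ← hst]
    have h5 := List.dropLast_append_getLast h4
    calc (u 0 :: s).dropLast ++ ((u 0 :: s).getLast h4 :: w) ++ t
        = ((u 0 :: s).dropLast ++ [(u 0 :: s).getLast h4]) ++ (w ++ t) := by simp
      _ = (u 0 :: s) ++ (w ++ t) := by rw [h5]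
      _ = u 0 :: (s ++ w ++ t) := by simp
  obtain ⟨K, hK⟩ := i_linrec h hu h2
  refine ⟨hne, ?_, fun v w => sys_fact, hsub, ?_, hextl, ?_, hunif, i_pow hK hp, i_ratio h,
    i_growth h h2, i_lin hK, i_spec hp hextl⟩
  · intro a
    obtain ⟨k, -, hk⟩ := h
    have h3 := i_fix_pw hu k 1
    rw [sys_win_one, app_singleton] at h3
    have h4 := hk (u 0) a
    rw [h3] at h4
    unfold win at h4
    rw [List.mem_map] at h4
    obtain ⟨j, -, hj⟩ := h4
    exact ⟨0 + j, 1, by rw [sys_win_one, hj]⟩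
  · rintro w ⟨i, n, rfl⟩
    refine ⟨win u 0 (i + n), ⟨0, _, rfl⟩, ?_⟩
    rw [hu (i + n)]
    refine sys_win_infix u i n _ ?_
    have := length_le_app φ hne (win u 0 (i + n))
    simpa using this
  · rintro w ⟨i, n, rfl⟩
    exact ⟨u (i + n), i, n + 1, by rw [win_add, sys_win_one]⟩

end Pool.H868.Pal
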