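import Pool.Agent.Helper868.Pal.Defs

set_option autoImplicit false

namespace Pool.H868.Pal



theorem idem_power {α : Type} [Fintype α] [DecidableEq α] (f g : α → α) (B : Matrix α α ℤ) :
    ∃ j : ℕ, 1 ≤ j ∧ ∀ m : ℕ, 1 ≤ m →
      (∀ a, f^[j * m] (f^[j * m] a) = f^[j * m] a) ∧
      (∀ a, g^[j * m] (g^[j * m] a) = g^[j * m] a) ∧
      ∀ i i', (2 : ℤ) ∣ (B ^ (j * m) * B ^ (j * m) - B ^ (j * m)) i i' := by
  classical
  let C : Matrix α α (ZMod 2) := (Int.castRingHom (ZMod 2)).mapMatrix B
  let s : ℕ → (α → α) × (α → α) × Matrix α α (ZMod 2) := fun n => (f^[n], g^[n], C ^ n)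
  have hfin : ∃ i j : ℕ, i < j ∧ s i = s j := by
    have hni : ¬ Function.Injective s := not_injective_infinite_finite s
    unfold Function.Injective at hni
    push Not at hni
    obtain ⟨a, b, hab, hne⟩ := hni
    rcases lt_or_gt_of_ne hne with h | h
    · exact ⟨a, b, h, hab⟩
    · exact ⟨b, a, h, hab.symm⟩
  obtain ⟨i, j, hij, hs⟩ := hfin
  have hshift : ∀ k, s (i + k) = s (j + k) := by
    intro k
    have h1 : f^[i] = f^[j] := congrArg Prod.fst hs
    have h2 : g^[i] = g^[j] := congrArg (fun t => t.2.1) hs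
    have h3 : C ^ i = C ^ j := congrArg (fun t => t.2.2) hs
    show (f^[i + k], g^[i + k], C ^ (i + k)) = (f^[j + k], g^[j + k], C ^ (j + k))
    rw [Function.iterate_add, Function.iterate_add, Function.iterate_add f j,
      Function.iterate_add g j, pow_add, pow_add, h1, h2, h3]
  obtain ⟨p, hp⟩ : ∃ p, j = i + p := ⟨j - i, by omega⟩
  have hp0 : 1 ≤ p := by omega
  have hper : ∀ n, i ≤ n → s (n + p) = s n := by
    intro n hn
    obtain ⟨k, rfl⟩ := Nat.exists_eq_add_of_le hn
    rw [hshift k, hp]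
    congr 1
    ring
  have hper2 : ∀ l n, i ≤ n → s (n + p * l) = s n := by
    intro l
    induction l with
    | zero => intro n _; rfl
    | succ l ih =>
      intro n hn
      rw [Nat.mul_succ, ← add_assoc, hper _ (by omega), ih n hn]
  refine ⟨p * (i + 1), Nat.mul_pos hp0 (Nat.succ_pos i), fun m hm => ?_⟩
  have hle : i ≤ p * (i + 1) * m := by
    calc i ≤ 1 * (i + 1) * 1 := by omega
      _ ≤ p * (i + 1) * m := Nat.mul_le_mul (Nat.mul_le_mul_right _ hp0) hm
  have key : s (p * (i + 1) * m + p * (i + 1) * m) = s (p * (i + 1) * m) := by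
    have h1 := hper2 ((i + 1) * m) _ hle
    rwa [← mul_assoc] at h1
  generalize p * (i + 1) * m = e at key
  have h1 : f^[e + e] = f^[e] := congrArg Prod.fst key
  have h2 : g^[e + e] = g^[e] := congrArg (fun t => t.2.1) key
  have h3 : C ^ (e + e) = C ^ e := congrArg (fun t => t.2.2) key
  refine ⟨fun a => ?_, fun a => ?_, fun a a' => ?_⟩
  · rw [← Function.iterate_add_apply, h1]
  · rw [← Function.iterate_add_apply, h2]
  · have h4 : (Int.castRingHom (ZMod 2)).mapMatrix (B ^ e * B ^ e - B ^ e) = 0 := by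
      rw [map_sub, map_mul, map_pow, ← pow_add]
      exact sub_eq_zero.2 h3
    have h5 := congrFun (congrFun h4 a) a'
    rw [RingHom.mapMatrix_apply, Matrix.map_apply, Matrix.zero_apply, eq_intCast] at h5
    have h6 := (CharP.intCast_eq_zero_iff (ZMod 2) 2 _).1 h5
    exact_mod_cast h6

end Pool.H868.Pal
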