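import Pool.Agent.Helper868.Pal.Defs
import Pool.Agent.Helper868.Pal.P_sys_rv
import Pool.Agent.Helper868.Pal.P_sys_pw
import Pool.Agent.Helper868.Pal.P_fa_exists
import Pool.Agent.Helper868.Pal.P_mx_pw
import Pool.Agent.Helper868.Pal.P_idem_power
import Pool.Agent.Helper868.Pal.P_head_pw
import Pool.Agent.Helper868.Pal.P_core
import Pool.Agent.Helper868.Pal.P_core0
import Pool.Agent.Helper868.Pal.P_fa_swap

set_option autoImplicit false

namespace Pool.H868.Pal



theorem main_sys {α : Type} [Fintype α] {φ : α → List α} {L : Set (List α)} (H : Sys φ L)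
    (hR : RC L) : ∀ N : ℕ, ∃ w ∈ L, N ≤ w.length ∧ w.reverse = w := by
  classical
  have hf0 : ∀ a, ∃ b, (φ a).head? = some b := fun a => ⟨_, List.head?_eq_some_head (H.ne a)⟩
  have hg0 : ∀ a, ∃ b, (φ a).getLast? = some b :=
    fun a => ⟨_, List.getLast?_eq_some_getLast (H.ne a)⟩
  choose f hf using hf0
  choose g hg using hg0
  obtain ⟨j0, hj0, hj⟩ := idem_power f g (Mx φ)
  obtain ⟨t, ht⟩ := H.growth 2
  have hk : 1 ≤ j0 * (t + 1) := Nat.mul_pos hj0 (Nat.succ_pos t)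
  obtain ⟨M, hM, n, hFA⟩ := fa_exists (sys_pw H hk) hR
  have hψ : pw (pw φ (j0 * (t + 1))) M = pw φ (j0 * ((t + 1) * M)) := by
    rw [pw_pw, mul_assoc]
  rw [hψ] at hFA
  have hm : 1 ≤ (t + 1) * M := Nat.mul_pos (Nat.succ_pos t) hM
  obtain ⟨h1, h2, h3⟩ := hj ((t + 1) * M) hm
  obtain ⟨J, hJ⟩ : ∃ J, J = j0 * ((t + 1) * M) := ⟨_, rfl⟩
  have hJ1 : 1 ≤ J := by
    rw [hJ]
    exact Nat.mul_pos hj0 hm
  have hJt : t ≤ J := by
    rw [hJ]
    calc t ≤ 1 * ((t + 1) * 1) := by omega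
      _ ≤ j0 * ((t + 1) * M) := Nat.mul_le_mul hj0 (Nat.mul_le_mul_left _ hM)
  rw [← hJ] at hFA h1 h2 h3
  have Hψ : Sys (pw φ J) L := sys_pw H hJ1
  have hlen : ∀ a, 2 ≤ (pw φ J a).length := fun a => ht J hJt a
  have hhd : ∀ a, (pw φ J a).head? = some (f^[J] a) := fun a => (head_pw H.ne f g hf hg J a).1
  have hlt : ∀ a, (pw φ J a).getLast? = some (g^[J] a) := fun a => (head_pw H.ne f g hf hg J a).2
  have hMx : ∀ i i', (2 : ℤ) ∣ (Mx (pw φ J) * Mx (pw φ J) - Mx (pw φ J)) i i' := by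
    rw [mx_pw]
    exact h3
  rcases lt_trichotomy n 0 with hn | hn | hn
  · have e : n = -(((-n).toNat : ℕ) : ℤ) := by
      rw [Int.toNat_of_nonneg (by omega)]
      ring
    rw [e] at hFA
    exact core Hψ hR hlen _ _ hhd hlt h1 h2 hMx (by omega) hFA
  · rw [hn] at hFA
    exact core0 Hψ hFA
  · have hFA' := fa_swap hFA
    have e : -n = -((n.toNat : ℕ) : ℤ) := by
      rw [Int.toNat_of_nonneg (by omega)]
    rw [e] at hFA'
    have hMr : Mx (rv (pw φ J)) = Mx (pw φ J) := by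
      funext b a
      unfold Mx rv
      rw [List.count_reverse]
    refine core (sys_rv Hψ hR) hR (fun a => ?_) (g^[J]) (f^[J]) (fun a => ?_) (fun a => ?_) h2 h1 ?_
      (by omega) hFA'
    · unfold rv
      rw [List.length_reverse]
      exact hlen a
    · unfold rv
      rw [List.head?_reverse]
      exact hlt a
    · unfold rv
      rw [List.getLast?_reverse]
      exact hhd a
    · rw [hMr]
      exact hMx

end Pool.H868.Pal
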