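import Pool.Agent.Helper868.Pal.Defs
import Pool.Agent.Helper868.Pal.P_main_sys
import Pool.Agent.Helper868.Pal.P_i_unif
import Pool.Agent.Helper868.Pal.P_i_sys
import Pool.Agent.Helper868.Pal.P_i_per

set_option autoImplicit false

namespace Pool.H868.Pal



theorem i_forward {α : Type} [Fintype α] {φ : α → List α} {u : ℕ → α} (h : Prim φ)
    (hu : Im φ u u) (hR : RC (Lu u)) : ∀ N : ℕ, ∃ w ∈ Lu u, N ≤ w.length ∧ w.reverse = w := by
  by_cases hp : EvPer u
  · refine i_per hp ?_ hR
    intro w hw N
    by_cases h2 : ∃ a b : α, a ≠ b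
    · obtain ⟨n, hn⟩ := i_unif h hu h2 w hw
      obtain ⟨s, t, hst⟩ := hn (win u N n) ⟨N, n, rfl⟩ (by simp)
      refine ⟨N + s.length, by omega, ?_⟩
      have hlen : n = s.length + (w.length + t.length) := by
        have := congrArg List.length hst
        simp at this
        omega
      rw [hlen, win_add, win_add, List.append_assoc] at hst
      have h3 := List.append_inj hst (by simp)
      exact (List.append_inj h3.2 (by simp)).1
    · refine ⟨N, le_rfl, ?_⟩
      apply List.ext_getElem (by simp)
      intro i h1 h3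
      by_contra hne
      exact h2 ⟨_, _, hne⟩
  · exact main_sys (i_sys h hu hp) hR

end Pool.H868.Pal
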