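import Pool.Agent.Helper868.Pal.Defs
import Pool.Agent.Helper868.Pal.P_i_forward
import Pool.Agent.Helper868.Pal.P_i_backward

set_option autoImplicit false

namespace Pool.H868.Pal



theorem final_aux_Im {α : Type} {φ : α → List α} {u : ℕ → α}
    (h : ∀ n : ℕ, ((List.range n).map u).flatMap φ =
          (List.range (((List.range n).map u).flatMap φ).length).map u) : Im φ u u := by
  have hw : ∀ n, win u 0 n = (List.range n).map u := by
    intro n; simp [win]
  intro n
  rw [hw, hw]
  exact h n

theorem final_aux_RC {α : Type} {u : ℕ → α} :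
    (∀ i n : ℕ, ∃ i' : ℕ,
          (List.range n).map (fun j => u (i' + j)) =
            ((List.range n).map (fun j => u (i + j))).reverse) ↔ RC (Lu u) := by
  constructor
  · rintro h w ⟨i, n, rfl⟩
    obtain ⟨i', hi'⟩ := h i n
    exact ⟨i', n, hi'.symm⟩
  · intro h i n
    obtain ⟨i', n', h'⟩ := h (win u i n) ⟨i, n, rfl⟩
    have hn : n = n' := by
      have := congrArg List.length h'
      simpa using this
    subst hn
    exact ⟨i', h'.symm⟩

theorem final_aux_inf {α : Type} [Fintype α] {u : ℕ → α} :
    (∀ N : ℕ, ∃ w ∈ Lu u, N ≤ w.length ∧ w.reverse = w) ↔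
      Set.Infinite {w : List α |
          (∃ i : ℕ, w = (List.range w.length).map (fun j => u (i + j))) ∧
            w.reverse = w} := by
  constructor
  · intro h
    apply Set.Infinite.of_image List.length
    apply Set.infinite_of_forall_exists_gt
    intro N
    obtain ⟨w, ⟨i, n, hw⟩, hN, hp⟩ := h (N + 1)
    have hl : w.length = n := by rw [hw]; simp
    refine ⟨w.length, ⟨w, ⟨⟨i, ?_⟩, hp⟩, rfl⟩, by omega⟩
    rw [hl]
    exact hw
  · intro h N
    by_contra hcon
    push Not at hcon
    apply h
    apply (List.finite_length_lt α N).subset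
    rintro w ⟨⟨i, hw⟩, hp⟩
    show w.length < N
    by_contra hlt
    exact hcon w ⟨i, w.length, hw⟩ (not_lt.1 hlt) hp

theorem final :
    ∀ (α : Type) [Fintype α] (φ : α → List α) (u : ℕ → α),
      (∃ k : ℕ, 1 ≤ k ∧ ∀ a b : α,
          b ∈ (fun w : List α => w.flatMap φ)^[k] [a]) →
      (∀ n : ℕ, ((List.range n).map u).flatMap φ =
          (List.range (((List.range n).map u).flatMap φ).length).map u) →
      ((∀ i n : ℕ, ∃ i' : ℕ,
          (List.range n).map (fun j => u (i' + j)) =
            ((List.range n).map (fun j => u (i + j))).reverse) ↔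
        Set.Infinite {w : List α |
          (∃ i : ℕ, w = (List.range w.length).map (fun j => u (i + j))) ∧
            w.reverse = w}) := by
  intro α _ φ u hP hI
  have hI' : Im φ u u := final_aux_Im hI
  have hP' : Prim φ := hP
  rw [final_aux_RC, ← final_aux_inf]
  exact ⟨i_forward hP' hI', i_backward hP' hI'⟩

end Pool.H868.Pal
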